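import Pool.Agent.J4H32.MV.S4

/-!
# Project MV: one class (helper32)
-/

set_option autoImplicit false

namespace Pool.Agent.J4H32.MV

open Finset MeasureTheory Filter
open Pool.Agent.J4H81.PT

/-- the good classes -/
theorem cls {η : ℝ} {D : ℕ} {l : ℝ} {y w W T Q P N₁ : ℕ} {ω c : ℕ → ℝ} {B₀ m₀ Et : ℝ}
    (h : SDat η D l y w W T Q P N₁ ω c B₀ m₀ Et) [NeZero W] (hT1 : 1 ≤ T) {E : ℝ} (hE : 0 < E) :
    ∃ B : Finset (ZMod W), (B.card : ℝ) * E ≤ Et ∧ ∀ r < W, r.Coprime W → (r : ZMod W) ∉ B →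
      (∫ α in (0 : ℝ)..1, (MA P ((P : ℝ) / T)).indicator (fun α => ‖hat (cx (fun s => FFc W c r s - gg W Q ω r s)) T α‖ ^ 2) α ≤ E) ∧
      ∀ α : ℝ, α ∉ MA P ((P : ℝ) / T) → ‖hat (cx (fun s => FFc W c r s - gg W Q ω r s)) T α‖ ≤ m₀ := by
  classical
  have hWs : Squarefree W := by rw [h.hW]; exact squarefree_primorial w
  have hWpos : 0 < W := Nat.pos_of_ne_zero (NeZero.ne W)
  have hW0 : (0 : ℝ) < W := by exact_mod_cast hWpos
  have hT0 : (0 : ℝ) < T := by exact_mod_cast hT1
  have hφW : (Nat.totient W : ℝ) ≤ W := by exact_mod_cast Nat.totient_le W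
  have hφW1 : (Nat.totient W : ℝ) / W ≤ 1 := (div_le_one hW0).2 hφW
  have hφW0 : 0 ≤ (Nat.totient W : ℝ) / W := by positivity
  have hφW2 : ((Nat.totient W : ℝ) / W) ^ 2 ≤ 1 := pow_le_one₀ hφW0 hφW1
  set A : Set ℝ := MA P ((P : ℝ) / T) with hA
  set en : ZMod W → ℝ := fun b => ∫ α in (0 : ℝ)..1, A.indicator (fun α => ‖hat (cx (fun s => FFc W c b.val s - gg W Q ω b.val s)) T α‖ ^ 2) α with hen
  set B : Finset (ZMod W) := univ.filter (fun b => IsUnit b ∧ E < en b) with hB
  have hcop : ∀ b : ZMod W, IsUnit b → b.val.Coprime W := by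
    intro b hb
    have : IsUnit ((b.val : ℕ) : ZMod W) := by rwa [ZMod.natCast_zmod_val]
    exact (ZMod.isUnit_iff_coprime b.val W).1 this
  -- the transform of the difference
  have htr : ∀ r : ℕ, r.Coprime W → ∀ α, hat (cx (fun s => FFc W c r s - gg W Q ω r s)) T α =
      (((Nat.totient W : ℝ) / W : ℝ) : ℂ) * hat (fun s => cx (hc W Q c ω) (r + W * s)) T α := by
    intro r hr α
    unfold hat cx
    rw [mul_sum]
    refine sum_congr rfl fun s _ => ?_
    beta_reduce
    rw [FFc_sub hWs c ω hr]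
    push_cast
    ring
  -- the minor arcs in one class
  have hmin : ∀ r < W, ∀ α, α ∉ A → ‖hat (fun s => cx (hc W Q c ω) (r + W * s)) T α‖ ≤ m₀ := by
    intro r hr α hα
    apply class_point hWpos (cx (hc W Q c ω)) α m₀ h.hm0 _ hr
    intro j _
    apply h.hm
    intro q hq1 hqP a
    by_contra hcon
    push Not at hcon
    apply hα
    rw [hA, ← MA_per P ((P : ℝ) / T) α j]
    refine ⟨q, hq1, hqP, W * a, ?_⟩
    have h2 : α + j - ((W * a : ℤ) : ℝ) / q = W * ((α + j) / W - a / q) := by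
      push_cast
      field_simp
    rw [h2, abs_mul, abs_of_pos hW0]
    calc (W : ℝ) * |(α + j) / W - a / q| ≤ W * (P / (W * T : ℕ)) := mul_le_mul_of_nonneg_left hcon hW0.le
      _ = P / T := by
          push_cast
          field_simp
  have hBcard : (B.card : ℝ) * E ≤ ((Nat.totient W : ℝ) / W) ^ 2 * Et := by
    have h1 : (B.card : ℝ) * E ≤ ∑ b ∈ B, en b := by
      rw [← nsmul_eq_mul, ← sum_const]
      apply sum_le_sum
      intro b hb
      rw [hB, mem_filter] at hb
      exact hb.2.2.le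
    have h2 : ∀ b ∈ B, en b = ((Nat.totient W : ℝ) / W) ^ 2 * ∫ α in (0 : ℝ)..1, A.indicator (fun α => ‖hat (fun s => cx (hc W Q c ω) (b.val + W * s)) T α‖ ^ 2) α := by
      intro b hb
      rw [hB, mem_filter] at hb
      simp only [hen]
      rw [← intervalIntegral.integral_const_mul]
      congr 1
      funext α
      have h3 := htr b.val (hcop b hb.2.1) α
      by_cases hα : α ∈ A
      · rw [Set.indicator_of_mem hα, Set.indicator_of_mem hα, h3, norm_mul, Complex.norm_real, Real.norm_of_nonneg (by positivity), mul_pow]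
      · rw [Set.indicator_of_notMem hα, Set.indicator_of_notMem hα, mul_zero]
    rw [sum_congr rfl h2, ← mul_sum] at h1
    refine h1.trans (mul_le_mul_of_nonneg_left ?_ (by positivity))
    refine le_trans ?_ h.hEt
    have h4 := classes_int (T := T) hWpos (cx (hc W Q c ω)) A (MA_meas P _) (MA_per P _)
    rw [hA] at h4 ⊢
    rw [← h4]
    have h5 : ∑ b ∈ B, (∫ α in (0 : ℝ)..1, (MA P ((P : ℝ) / T)).indicator (fun α => ‖hat (fun s => cx (hc W Q c ω) (b.val + W * s)) T α‖ ^ 2) α) =
        ∑ r ∈ B.image (fun b => b.val), ∫ α in (0 : ℝ)..1, (MA P ((P : ℝ) / T)).indicator (fun α => ‖hat (fun s => cx (hc W Q c ω) (r + W * s)) T α‖ ^ 2) α := by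
      rw [sum_image]
      intro a _ b _ hab
      exact ZMod.val_injective W hab
    rw [h5]
    apply sum_le_sum_of_subset_of_nonneg
    · intro r hr
      rw [mem_image] at hr
      obtain ⟨b, _, rfl⟩ := hr
      exact mem_range.2 (ZMod.val_lt b)
    · intro r _ _
      apply intervalIntegral.integral_nonneg zero_le_one
      intro α _
      apply Set.indicator_nonneg
      intro _ _
      positivity
  refine ⟨B, ?_, ?_⟩
  · have hEt0 : 0 ≤ Et := by
      refine le_trans ?_ h.hEt
      apply intervalIntegral.integral_nonneg zero_le_one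
      intro α _
      apply Set.indicator_nonneg
      intro _ _
      positivity
    refine hBcard.trans ?_
    calc _ ≤ 1 * Et := mul_le_mul_of_nonneg_right hφW2 hEt0
      _ = Et := one_mul _
  · intro r hr hco hrB
    have hval : ((r : ZMod W)).val = r := ZMod.val_cast_of_lt hr
    refine ⟨?_, ?_⟩
    · by_contra hcon
      push Not at hcon
      apply hrB
      rw [hB, mem_filter]
      refine ⟨mem_univ _, (ZMod.isUnit_iff_coprime r W).2 hco, ?_⟩
      simp only [hen]
      rw [hval]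
      exact hcon
    · intro α hα
      rw [htr r hco α, norm_mul, Complex.norm_real, Real.norm_of_nonneg hφW0]
      calc _ ≤ 1 * m₀ := mul_le_mul hφW1 (hmin r hr α hα) (norm_nonneg _) zero_le_one
        _ = m₀ := one_mul _

end Pool.Agent.J4H32.MV
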