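import Pool.Agent.J4H81.PT.CL

/-!
# Project MV: Fourier part, exact statements (helper32)
-/

set_option autoImplicit false

namespace Pool.Agent.J4H32.MV

open Finset MeasureTheory
open Pool.Agent.J4H81.PT (hat cx)

/-- (FR) one free shift (Bessel; `Pool.Agent.J4H81.PT.bessel` for the real and the imaginary part) -/
def S_FR : Prop := ∀ (T : ℕ) (H G : ℕ → ℝ) (A : Set ℝ) (E m a τ : ℝ), MeasurableSet A →
  (∀ s, T ≤ s → H s = 0) → 0 ≤ m → 0 < τ →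
  ∫ α in (0 : ℝ)..1, A.indicator (fun α => ‖hat (cx H) T α‖ ^ 2) α ≤ E →
  (∀ α : ℝ, 0 ≤ α → α ≤ 1 → α ∉ A → ‖hat (cx H) T α‖ ≤ m) →
  ∑ s ∈ range T, G s ^ 2 ≤ a →
  ∃ Ex : Finset ℕ, (Ex.card : ℝ) ≤ 2 * m ^ 2 * a / τ ^ 2 ∧
    ∀ D : ℕ, D < T → D ∉ Ex → |∑ s ∈ range T, G s * H (s + D)| ≤ Real.sqrt (E * a) + τ

open Classical in
/-- (TE) telescoping: few exceptional tuples of shifts -/
def S_TE : Prop := ∀ (K T S₀ : ℕ) (F g : Fin K → ℕ → ℝ) (A : Set ℝ) (E m a τ : ℝ), MeasurableSet A → S₀ ≤ T →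
  (∀ j s, T ≤ s → F j s = 0) → (∀ j s, T ≤ s → g j s = 0) → 0 ≤ m → 0 < τ →
  (∀ j, ∫ α in (0 : ℝ)..1, A.indicator (fun α => ‖hat (cx (fun s => F j s - g j s)) T α‖ ^ 2) α ≤ E) →
  (∀ j, ∀ α : ℝ, 0 ≤ α → α ≤ 1 → α ∉ A → ‖hat (cx (fun s => F j s - g j s)) T α‖ ≤ m) →
  (∀ (i : Fin K) (t : Fin K → ℕ), ∑ s ∈ range T,
    ((∏ j ∈ univ.filter (fun j => j < i), g j (s + t j)) * ∏ j ∈ univ.filter (fun j => i < j), F j (s + t j)) ^ 2 ≤ a) →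
  (((Fintype.piFinset (fun _ : Fin K => range T)).filter (fun t =>
    K * (Real.sqrt (E * a) + τ) < |∑ s ∈ range S₀, (∏ j, F j (s + t j) - ∏ j, g j (s + t j))|)).card : ℝ) ≤
      K * (2 * m ^ 2 * a / τ ^ 2) * (T : ℝ) ^ (K - 1)

end Pool.Agent.J4H32.MV
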