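import Pool.Agent.J4H32.MV.S2
import Mathlib.NumberTheory.Primorial

/-!
# Project MV: elementary number theory, exact statements (helper32)
-/

set_option autoImplicit false

namespace Pool.Agent.J4H32.MV

open Finset

/-- (RK) few integers have many prime factors above `w` (Rankin: sum of `exp (w * Sg w h)`) -/
def S_RK : Prop := ∀ (w X : ℕ) (ε : ℝ), 1 ≤ w →
  (((Icc 1 X).filter (fun h : ℕ => ε < Sg w (h : ℤ))).card : ℝ) ≤ 8 * X * Real.exp (-(ε * w))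

/-- (PS) the sum of the reciprocals of the primes -/
def S_PS : Prop := ∃ C : ℝ, 0 < C ∧ ∀ l : ℝ, 3 ≤ l → ∀ Q : ℕ, (Q : ℝ) ≤ Real.exp l →
  ∑ p ∈ (range (Q + 1)).filter Nat.Prime, 1 / (p : ℝ) ≤ C * Real.log l

/-- (NB) the number of classes `b` with all the `b + a_j` coprime to the primorial -/
def S_NB : Prop := ∀ (K w : ℕ) (a : Fin K → ℕ), 1 ≤ K → 1 ≤ w → (∀ p : ℕ, p.Prime → ∃ r : ℕ, ∀ j, ¬ p ∣ r + a j) →
  (primorial w : ℝ) ≤ ((2 * K : ℝ) ^ (2 * K) * (w : ℝ) ^ (2 * K)) *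
    (((range (primorial w)).filter (fun b => ∀ j, (b + a j).Coprime (primorial w))).card : ℝ)

/-- (RC) the choice of the class -/
def S_RC : Prop := ∀ (K w : ℕ) (a : Fin K → ℕ), 1 ≤ K → 1 ≤ w → (∀ p : ℕ, p.Prime → ∃ r : ℕ, ∀ j, ¬ p ∣ r + a j) →
  ∀ B : Finset (ZMod (primorial w)), (K : ℝ) * B.card * ((2 * K : ℝ) ^ (2 * K) * (w : ℝ) ^ (2 * K)) < primorial w →
    ∃ b < primorial w, ∀ j, (b + a j).Coprime (primorial w) ∧ ((b + a j : ℕ) : ZMod (primorial w)) ∉ B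

end Pool.Agent.J4H32.MV
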