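import Pool.Agent.J4H32.MV.Cl
import Pool.Agent.J4H32.MV.S1
import Pool.Agent.J4H32.MV.S3

/-!
# Project MV: correlations in good classes (helper32)
-/

set_option autoImplicit false

namespace Pool.Agent.J4H32.MV

open Finset MeasureTheory Filter
open Pool.Agent.J4H81.PT

theorem var_mul {a b c d : ℝ} (ha0 : 0 ≤ a) (ha1 : a ≤ 1) (hd0 : 0 ≤ d) (hd1 : d ≤ 1) : |a * b - c * d| ≤ |a - c| + |b - d| := by
  have : a * b - c * d = (a - c) * d + a * (b - d) := by ring
  rw [this]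
  refine (abs_add_le _ _).trans ?_
  rw [abs_mul, abs_mul, abs_of_nonneg hd0, abs_of_nonneg ha0]
  have := mul_le_of_le_one_right (abs_nonneg (a - c)) hd1
  have := mul_le_of_le_one_left (abs_nonneg (b - d)) ha1
  linarith

theorem var_prod {ι : Type*} (S : Finset ι) (v : ι → ℕ → ℝ) (h0 : ∀ i s, 0 ≤ v i s) (h1 : ∀ i s, v i s ≤ 1) (T : ℕ) :
    ∑ s ∈ range T, |∏ i ∈ S, v i (s + 1) - ∏ i ∈ S, v i s| ≤ ∑ i ∈ S, ∑ s ∈ range T, |v i (s + 1) - v i s| := by
  classical
  induction S using Finset.induction_on with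
  | empty => simp
  | insert i S hi ih =>
    rw [sum_insert hi]
    refine le_trans ?_ (add_le_add le_rfl ih)
    rw [← sum_add_distrib]
    apply sum_le_sum
    intro s _
    rw [prod_insert hi, prod_insert hi]
    exact var_mul (h0 _ _) (h1 _ _) (prod_nonneg fun _ _ => h0 _ _) (prod_le_one (fun _ _ => h0 _ _) fun _ _ => h1 _ _)

theorem var_ind (S₀ T : ℕ) : ∑ s ∈ range T, |(if s + 1 < S₀ then (1 : ℝ) else 0) - (if s < S₀ then 1 else 0)| ≤ 1 := by
  have h1 : ∀ s : ℕ, |(if s + 1 < S₀ then (1 : ℝ) else 0) - (if s < S₀ then 1 else 0)| = if s + 1 = S₀ then 1 else 0 := by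
    intro s
    by_cases h1 : s + 1 < S₀
    · rw [if_pos h1, if_pos (by omega), if_neg (by omega)]; simp
    · by_cases h2 : s < S₀
      · rw [if_neg h1, if_pos h2, if_pos (by omega)]; simp
      · rw [if_neg h1, if_neg h2, if_neg (by omega)]; simp
  simp_rw [h1]
  rcases Nat.eq_zero_or_pos S₀ with h | h
  · rw [sum_eq_zero]
    · norm_num
    · intro s _
      rw [if_neg (by omega)]
  · have h2 : ∀ s : ℕ, (if s + 1 = S₀ then (1 : ℝ) else 0) = if s = S₀ - 1 then 1 else 0 := by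
      intro s
      by_cases h3 : s + 1 = S₀
      · rw [if_pos h3, if_pos (by omega)]
      · rw [if_neg h3, if_neg (by omega)]
    simp_rw [h2]
    rw [sum_ite_eq']
    split_ifs <;> norm_num

/-- the weight of a tuple -/
noncomputable def VV {K : ℕ} (ω : ℕ → ℝ) (W S₀ : ℕ) (C : Fin K → ℕ) (s : ℕ) : ℝ :=
  (if s < S₀ then 1 else 0) * ∏ j, ω (C j + W * s)

theorem VV_TV {K : ℕ} {ω : ℕ → ℝ} {N N₁ : ℕ} (hω : Wt ω N N₁) (W S₀ T : ℕ) (C : Fin K → ℕ) :
    TV (VV ω W S₀ C) T ≤ 2 * K + 2 := by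
  unfold TV
  have hi0 : ∀ s : ℕ, (0 : ℝ) ≤ if s < S₀ then (1 : ℝ) else 0 := by intro s; split_ifs <;> norm_num
  have hi1 : ∀ s : ℕ, (if s < S₀ then (1 : ℝ) else 0) ≤ 1 := by intro s; split_ifs <;> norm_num
  have hp0 : ∀ s : ℕ, 0 ≤ ∏ j, ω (C j + W * s) := fun s => prod_nonneg fun _ _ => hω.nonneg _
  have hp1 : ∀ s : ℕ, ∏ j, ω (C j + W * s) ≤ 1 := fun s => prod_le_one (fun _ _ => hω.nonneg _) fun _ _ => hω.le_one _
  have h1 : |VV ω W S₀ C 0| ≤ 1 := by
    unfold VV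
    rw [abs_of_nonneg (mul_nonneg (hi0 _) (hp0 _))]
    exact mul_le_one₀ (hi1 _) (hp0 _) (hp1 _)
  have h2 : ∑ s ∈ range T, |VV ω W S₀ C (s + 1) - VV ω W S₀ C s| ≤
      ∑ s ∈ range T, (|(if s + 1 < S₀ then (1 : ℝ) else 0) - (if s < S₀ then 1 else 0)| +
        |∏ j, ω (C j + W * (s + 1)) - ∏ j, ω (C j + W * s)|) := by
    apply sum_le_sum
    intro s _
    unfold VV
    exact var_mul (hi0 _) (hi1 _) (hp0 _) (hp1 _)
  rw [sum_add_distrib] at h2
  have h3 := var_ind S₀ T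
  have h4 := var_prod (univ : Finset (Fin K)) (fun j s => ω (C j + W * s)) (fun _ _ => hω.nonneg _) (fun _ _ => hω.le_one _) T
  have h5 : ∑ j : Fin K, ∑ s ∈ range T, |ω (C j + W * (s + 1)) - ω (C j + W * s)| ≤ ∑ j : Fin K, (2 : ℝ) :=
    sum_le_sum fun j _ => hω.var (C j) W T
  rw [sum_const, card_univ, Fintype.card_fin, nsmul_eq_mul] at h5
  linarith

theorem weier {ι : Type*} (S : Finset ι) (x : ι → ℝ) (h0 : ∀ i, 0 ≤ x i) (h1 : ∀ i, x i ≤ 1) :
    1 - ∑ i ∈ S, (1 - x i) ≤ ∏ i ∈ S, x i := by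
  classical
  induction S using Finset.induction_on with
  | empty => simp
  | insert i S hi ih =>
    rw [sum_insert hi, prod_insert hi]
    have h2 : 0 ≤ ∏ j ∈ S, x j := prod_nonneg fun _ _ => h0 _
    have h3 : ∏ j ∈ S, x j ≤ 1 := prod_le_one (fun _ _ => h0 _) fun _ _ => h1 _
    nlinarith [h0 i, h1 i]

/-- the mass of the weight of a tuple -/
theorem VV_mass {K : ℕ} {ω : ℕ → ℝ} {N N₁ : ℕ} (hω : Wt ω N N₁) {W S₀ T : ℕ} {r t : Fin K → ℕ} {η : ℝ}
    (hmass : ∀ j, (1 - η) * T ≤ ∑ s ∈ range T, ω (r j + W * s)) (hS : ∀ j, S₀ + t j ≤ T) (hS₀ : S₀ ≤ T) :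
    (S₀ : ℝ) - K * (η * T) ≤ ∑ s ∈ range T, VV ω W S₀ (fun j => r j + W * t j) s := by
  have h1 : ∑ s ∈ range T, VV ω W S₀ (fun j => r j + W * t j) s = ∑ s ∈ range S₀, ∏ j, ω (r j + W * t j + W * s) := by
    have h2 : ∀ s, VV ω W S₀ (fun j => r j + W * t j) s = if s < S₀ then ∏ j, ω (r j + W * t j + W * s) else 0 := by
      intro s
      unfold VV
      split_ifs
      · rw [one_mul]
      · rw [zero_mul]
    simp_rw [h2]
    rw [← sum_filter]
    apply sum_congr _ fun _ _ => rfl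
    ext s
    simp only [mem_filter, mem_range]
    omega
  rw [h1]
  have h3 : ∀ s, 1 - ∑ j, (1 - ω (r j + W * t j + W * s)) ≤ ∏ j, ω (r j + W * t j + W * s) := by
    intro s
    exact weier univ (fun j => ω (r j + W * t j + W * s)) (fun _ => hω.nonneg _) (fun _ => hω.le_one _)
  have h5 : ∑ s ∈ range S₀, (1 - ∑ j, (1 - ω (r j + W * t j + W * s))) ≤ ∑ s ∈ range S₀, ∏ j, ω (r j + W * t j + W * s) :=
    sum_le_sum fun s _ => h3 s
  refine le_trans ?_ h5
  rw [sum_sub_distrib, sum_comm, sum_const, card_range, nsmul_eq_mul, mul_one]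
  have h6 : ∀ j : Fin K, ∑ s ∈ range S₀, (1 - ω (r j + W * t j + W * s)) ≤ η * T := by
    intro j
    have h7 : ∑ s ∈ range S₀, (1 - ω (r j + W * t j + W * s)) ≤ ∑ s ∈ range T, (1 - ω (r j + W * s)) := by
      have e : ∑ s ∈ range S₀, (1 - ω (r j + W * t j + W * s)) = ∑ s ∈ (range S₀).map (addLeftEmbedding (t j)), (1 - ω (r j + W * s)) := by
        rw [sum_map]
        refine sum_congr rfl fun s _ => ?_
        simp only [addLeftEmbedding_apply]
        congr 2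
        ring
      rw [e]
      apply sum_le_sum_of_subset_of_nonneg
      · intro s hs
        rw [Finset.mem_map] at hs
        obtain ⟨s', hs', rfl⟩ := hs
        rw [mem_range] at hs' ⊢
        simp only [addLeftEmbedding_apply]
        have := hS j
        omega
      · intro s _ _
        linarith [hω.le_one (r j + W * s)]
    refine h7.trans ?_
    rw [sum_sub_distrib, sum_const, card_range, nsmul_eq_mul, mul_one]
    have := hmass j
    linarith
  have h8 : ∑ j : Fin K, ∑ s ∈ range S₀, (1 - ω (r j + W * t j + W * s)) ≤ ∑ j : Fin K, η * T := sum_le_sum fun j _ => h6 j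
  rw [sum_const, card_univ, Fintype.card_fin, nsmul_eq_mul] at h8
  linarith

end Pool.Agent.J4H32.MV
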