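import Pool.Agent.J4H32.MV.Co

/-!
# Project MV: the number of primes in good classes, two-sided (helper32)
-/

set_option autoImplicit false

namespace Pool.Agent.J4H32.MV

open Finset MeasureTheory Filter
open Pool.Agent.J4H81.PT

theorem core2 (hTE : S_TE) (hMD : S_MD) {K : ℕ} {η : ℝ} {D : ℕ} {l : ℝ} {y w W T Q P N₁ : ℕ} {ω c : ℕ → ℝ} {B₀ m₀ Et : ℝ}
    (h : SDat η D l y w W T Q P N₁ ω c B₀ m₀ Et) {E a a₁ τ ε δ : ℝ} {S₀ : ℕ} (hw : 2 ≤ w)
    (r : Fin K → ℕ)
    (hen : ∀ j, ∫ α in (0 : ℝ)..1, (MA P ((P : ℝ) / T)).indicator (fun α => ‖hat (cx (fun s => FFc W c (r j) s - gg W Q ω (r j) s)) T α‖ ^ 2) α ≤ E)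
    (hmin : ∀ j, ∀ α : ℝ, α ∉ MA P ((P : ℝ) / T) → ‖hat (cx (fun s => FFc W c (r j) s - gg W Q ω (r j) s)) T α‖ ≤ m₀)
    (hMB : ∀ (C : Fin K → ℕ) (S : Finset (Fin K)), ∑ s ∈ range T, ∏ j ∈ S, GG W Q ((C j + W * s : ℕ) : ℤ) ^ 2 ≤ a₁)
    (ha : B₀ ^ (2 * K) * a₁ ≤ a) (hτ : 0 < τ)
    (hS1 : S₀ ≤ T) (hε : 0 ≤ ε)
    (hδ : 2 ^ K * ((K : ℝ) + 2) * (2 / w + K ^ 2 * ε) ≤ δ) (hδ1 : δ ≤ 1) :
    ∃ Ex : Finset (Fin K → ℕ), (Ex.card : ℝ) ≤ K * (2 * m₀ ^ 2 * a / τ ^ 2) * (T : ℝ) ^ (K - 1) ∧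
      ∀ t : Fin K → ℕ, (∀ j, t j < T) → t ∉ Ex → Function.Injective (fun j => r j + W * t j) →
        (∀ i j, Sg w (((r i + W * t i : ℕ) : ℤ) - (r j + W * t j : ℕ)) ≤ ε) →
        (∀ s < S₀, ∀ j, ω (r j + W * (s + t j)) = 1) →
        |∑ s ∈ range S₀, ∏ j, FFc W c (r j) (s + t j) - S₀| ≤
          2 * δ * S₀ + 2 * (Q : ℝ) ^ (2 * K) * (2 * K + 2) + K * (Real.sqrt (E * a) + τ) := by
  classical
  have hWpos : 0 < W := by rw [h.hW]; exact primorial_pos w
  have hW0 : (0 : ℝ) < W := by exact_mod_cast hWpos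
  have hωT : ∀ s r', T ≤ s → ω (r' + W * s) = 0 := by
    intro s r' hs
    have h1 : W * T ≤ W * s := Nat.mul_le_mul_left W hs
    exact h.hω.zero_ge _ (by omega)
  have hFz : ∀ (j : Fin K) s, T ≤ s → FFc W c (r j) s = 0 := by
    intro j s hs
    have h1 : W * T ≤ W * s := Nat.mul_le_mul_left W hs
    have : c (r j + W * s) = 0 := h.hcN _ (by omega)
    unfold FFc; rw [this]; simp
  have hgz : ∀ (j : Fin K) s, T ≤ s → gg W Q ω (r j) s = 0 := by
    intro j s hs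
    unfold gg; rw [hωT s _ hs]; simp
  have hB0 : 0 ≤ B₀ := by linarith [h.hB1]
  have hT0 : (0 : ℝ) ≤ T := Nat.cast_nonneg _
  -- the mean squares
  have hsq : ∀ (i : Fin K) (t : Fin K → ℕ), ∑ s ∈ range T,
      ((∏ j ∈ univ.filter (fun j => j < i), gg W Q ω (r j) (s + t j)) * ∏ j ∈ univ.filter (fun j => i < j), FFc W c (r j) (s + t j)) ^ 2 ≤ a := by
    intro i t
    refine le_trans ?_ ha
    have h1 := hMB (fun j => r j + W * t j) (univ.filter (fun j => j < i))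
    refine le_trans ?_ (mul_le_mul_of_nonneg_left h1 (by positivity))
    rw [mul_sum]
    apply sum_le_sum
    intro s _
    rw [mul_pow, mul_comm]
    apply mul_le_mul
    · have h2 : |∏ j ∈ univ.filter (fun j => i < j), FFc W c (r j) (s + t j)| ≤ B₀ ^ K := by
        rw [abs_prod]
        calc ∏ j ∈ univ.filter (fun j => i < j), |FFc W c (r j) (s + t j)| ≤ ∏ j ∈ univ.filter (fun j : Fin K => i < j), B₀ := by
              apply prod_le_prod (fun _ _ => abs_nonneg _)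
              intro j _
              rw [abs_of_nonneg (FFc_nonneg h.hc0 _ _)]
              exact FFc_le hWpos h.hc0 h.hcB _ _
          _ = B₀ ^ (univ.filter (fun j : Fin K => i < j)).card := by rw [prod_const]
          _ ≤ B₀ ^ K := by
              apply pow_le_pow_right₀ h.hB1
              refine (card_filter_le _ _).trans ?_
              rw [card_univ, Fintype.card_fin]
      rw [← sq_abs]
      calc _ ≤ (B₀ ^ K) ^ 2 := pow_le_pow_left₀ (abs_nonneg _) h2 2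
        _ = B₀ ^ (2 * K) := by rw [← pow_mul]; congr 1; ring
    · rw [← prod_pow]
      apply prod_le_prod (fun _ _ => sq_nonneg _)
      intro j _
      have e : r j + W * (s + t j) = r j + W * t j + W * s := by ring
      unfold gg
      rw [e, mul_pow]
      have h3 : ω (r j + W * t j + W * s) ^ 2 ≤ 1 := pow_le_one₀ (h.hω.nonneg _) (h.hω.le_one _)
      calc _ ≤ 1 * GG W Q ((r j + W * t j + W * s : ℕ) : ℤ) ^ 2 := mul_le_mul_of_nonneg_right h3 (sq_nonneg _)
        _ = _ := one_mul _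
    · exact sq_nonneg _
    · positivity
  have hte := hTE K T S₀ (fun j => FFc W c (r j)) (fun j => gg W Q ω (r j)) (MA P ((P : ℝ) / T)) E m₀ a τ (MA_meas _ _) hS1
    hFz hgz h.hm0 hτ hen (fun j α _ _ hα => hmin j α hα) hsq
  refine ⟨_, hte, ?_⟩
  intro t ht hEx hinj hSg hω1
  have h1 : |∑ s ∈ range S₀, (∏ j, FFc W c (r j) (s + t j) - ∏ j, gg W Q ω (r j) (s + t j))| ≤ K * (Real.sqrt (E * a) + τ) := by
    by_contra hcon
    push Not at hcon
    apply hEx
    rw [Finset.mem_filter]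
    exact ⟨Fintype.mem_piFinset.2 fun j => Finset.mem_range.2 (ht j), hcon⟩
  -- the model
  set C : Fin K → ℕ := fun j => r j + W * t j with hC
  have hV0 : ∀ s, 0 ≤ VV ω W S₀ C s := by
    intro s
    unfold VV
    apply mul_nonneg
    · split_ifs <;> norm_num
    · exact prod_nonneg fun _ _ => h.hω.nonneg _
  have hVT : VV ω W S₀ C T = 0 := by
    unfold VV
    rw [if_neg (by omega), zero_mul]
  have hWw : ∀ p : ℕ, p.Prime → p ≤ w → p ∣ W := fun p hp hpw => by rw [h.hW]; exact hp.dvd_primorial_iff.2 hpw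
  have hmd := hMD W Q K T w C (VV ω W S₀ C) h.hQ1 hw hWw hVT hV0 hinj
  have hTV := VV_TV h.hω W S₀ T C
  have hVS : ∑ s ∈ range T, VV ω W S₀ C s = S₀ := by
    have e1 : ∀ s, VV ω W S₀ C s = if s < S₀ then 1 else 0 := by
      intro s
      unfold VV
      split_ifs with hs
      · rw [one_mul]
        apply prod_eq_one
        intro j _
        have := hω1 s hs j
        have e : r j + W * (s + t j) = C j + W * s := by rw [hC]; ring
        rw [e] at this
        exact this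
      · rw [zero_mul]
    simp_rw [e1]
    rw [← sum_filter, sum_const, nsmul_eq_mul, mul_one]
    congr 1
    have : (range T).filter (fun s => s < S₀) = range S₀ := by
      ext s
      simp only [Finset.mem_filter, Finset.mem_range]
      omega
    rw [this, card_range]
  rw [hVS] at hmd
  have hδ0 : 0 ≤ δ := le_trans (by positivity) hδ
  have hexp : Real.exp (2 ^ K * ((K : ℝ) + 2) * (2 / w + ∑ i : Fin K, ∑ j : Fin K, Sg w ((C i : ℤ) - C j))) - 1 ≤ 2 * δ := by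
    have h2 : ∑ i : Fin K, ∑ j : Fin K, Sg w ((C i : ℤ) - C j) ≤ K ^ 2 * ε := by
      calc _ ≤ ∑ i : Fin K, ∑ j : Fin K, ε := sum_le_sum fun i _ => sum_le_sum fun j _ => hSg i j
        _ = K ^ 2 * ε := by
            rw [sum_const, sum_const, card_univ, Fintype.card_fin, nsmul_eq_mul, nsmul_eq_mul]
            ring
    have h3 : 2 ^ K * ((K : ℝ) + 2) * (2 / w + ∑ i : Fin K, ∑ j : Fin K, Sg w ((C i : ℤ) - C j)) ≤ δ := by
      refine le_trans ?_ hδ
      apply mul_le_mul_of_nonneg_left _ (by positivity)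
      linarith
    have h4 := Real.exp_le_exp.2 h3
    have h5 := Real.abs_exp_sub_one_sub_id_le (x := δ) (by rw [abs_of_nonneg hδ0]; exact hδ1)
    have h6 := (abs_le.1 h5).2
    nlinarith only [h4, h6, hδ0, hδ1]
  have hg1 : ∑ s ∈ range S₀, ∏ j, gg W Q ω (r j) (s + t j) = ∑ s ∈ range T, VV ω W S₀ C s * ∏ j, GG W Q ((C j + W * s : ℕ) : ℤ) := by
    have e1 : ∀ s, VV ω W S₀ C s * ∏ j, GG W Q ((C j + W * s : ℕ) : ℤ) = if s < S₀ then ∏ j, gg W Q ω (r j) (s + t j) else 0 := by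
      intro s
      unfold VV
      split_ifs
      · rw [one_mul, ← prod_mul_distrib]
        refine prod_congr rfl fun j _ => ?_
        unfold gg
        have e : r j + W * (s + t j) = C j + W * s := by rw [hC]; ring
        rw [e]
      · rw [zero_mul, zero_mul]
    simp_rw [e1]
    rw [← sum_filter]
    apply sum_congr _ fun _ _ => rfl
    ext s
    simp only [Finset.mem_filter, Finset.mem_range]
    omega
  rw [← hg1] at hmd
  have hQ0 : 0 ≤ 2 * (Q : ℝ) ^ (2 * K) := by positivity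
  have h5 : 2 * (Q : ℝ) ^ (2 * K) * TV (VV ω W S₀ C) T ≤ 2 * (Q : ℝ) ^ (2 * K) * (2 * K + 2) := mul_le_mul_of_nonneg_left hTV hQ0
  have h6 : (Real.exp (2 ^ K * ((K : ℝ) + 2) * (2 / w + ∑ i : Fin K, ∑ j : Fin K, Sg w ((C i : ℤ) - C j))) - 1) * S₀ ≤ 2 * δ * S₀ :=
    mul_le_mul_of_nonneg_right hexp (Nat.cast_nonneg _)
  rw [sum_sub_distrib] at h1
  set x₁ := ∑ s ∈ range S₀, ∏ j, FFc W c (r j) (s + t j)
  set x₂ := ∑ s ∈ range S₀, ∏ j, gg W Q ω (r j) (s + t j)
  have h7 : |x₁ - S₀| ≤ |x₁ - x₂| + |x₂ - S₀| := by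
    have : x₁ - S₀ = (x₁ - x₂) + (x₂ - S₀) := by ring
    rw [this]
    exact abs_add_le _ _
  linarith

end Pool.Agent.J4H32.MV
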