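import Pool.Agent.Y843.HS.Top

/-!
# Narrow progressions in sifted sets of a residue class: many progressions with one difference

This is `Pool.Agent.J4H73.AQ.Eng` by helper73, copied with smaller imports (helper32).
-/

set_option autoImplicit false

open Finset Filter

namespace Pool.Agent.J4H32.MV.Eng

open Pool.Agent.Y843.HS (Pr VV S_FIN)

/-- powers of the logarithm -/
theorem ev_log (C : ℝ) (B : ℕ) (ε : ℝ) (hε : 0 < ε) : ∀ᶠ X : ℝ in atTop, C * (Real.log X) ^ B ≤ X ^ ε := by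
  have h1 : (fun x : ℝ => Real.log x ^ (B : ℝ)) =o[atTop] fun x => x ^ ε := isLittleO_log_rpow_rpow_atTop (B : ℝ) hε
  have h2 := h1.bound (show (0 : ℝ) < 1 / (|C| + 1) by positivity)
  filter_upwards [h2, eventually_ge_atTop 1] with X h3 hX
  have hl : 0 ≤ Real.log X := Real.log_nonneg hX
  rw [Real.rpow_natCast, Real.norm_of_nonneg (pow_nonneg hl B), Real.norm_of_nonneg (by positivity)] at h3
  have h4 : C ≤ |C| + 1 := by linarith [le_abs_self C]
  have h5 : (|C| + 1) * Real.log X ^ B ≤ X ^ ε := by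
    have h6 : (0 : ℝ) < |C| + 1 := by positivity
    calc (|C| + 1) * Real.log X ^ B ≤ (|C| + 1) * (1 / (|C| + 1) * X ^ ε) := by gcongr
      _ = X ^ ε := by field_simp
  exact (mul_le_mul_of_nonneg_right h4 (pow_nonneg hl B)).trans h5

/-- pigeonhole -/
theorem pigeon {α : Type*} [DecidableEq α] (s : Finset α) (f : α → ℕ) (B : ℕ) (hf : ∀ a ∈ s, 1 ≤ f a ∧ f a ≤ B)
    (hs : s.Nonempty) :
    ∃ d : ℕ, 1 ≤ d ∧ d ≤ B ∧ (s.card : ℝ) ≤ B * ((s.filter (fun a => f a = d)).card : ℝ) := by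
  by_contra hc
  push Not at hc
  obtain ⟨a0, ha0⟩ := hs
  have hB : 1 ≤ B := (hf a0 ha0).1.trans (hf a0 ha0).2
  have h1 : (s.card : ℝ) = ∑ d ∈ Icc 1 B, ((s.filter (fun a => f a = d)).card : ℝ) := by
    have := card_eq_sum_card_fiberwise (f := f) (s := s) (t := Icc 1 B) (fun a ha => by
      rw [mem_coe, mem_Icc]
      exact hf a ha)
    exact_mod_cast this
  have hB0 : (0 : ℝ) < B := by exact_mod_cast hB
  have h2 : ∑ d ∈ Icc 1 B, ((s.filter (fun a => f a = d)).card : ℝ) < ∑ d ∈ Icc 1 B, (s.card : ℝ) / B := by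
    apply sum_lt_sum_of_nonempty (nonempty_Icc.2 hB)
    intro d hd
    rw [mem_Icc] at hd
    rw [lt_div_iff₀ hB0, mul_comm]
    exact hc d hd.1 hd.2
  rw [← h1, sum_const, Nat.card_Icc, Nat.add_sub_cancel, nsmul_eq_mul] at h2
  have : (B : ℝ) * ((s.card : ℝ) / B) = s.card := by field_simp
  linarith

/-- the classes after the change of variables `n = W m + b` -/
def Zm (W b : ℕ) (Z : ℕ → Finset ℕ) (p : ℕ) : Finset ℕ :=
  if p ∣ W then ∅ else (range p).filter (fun c => (W * c + b) % p ∈ Z p)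

theorem mem_Zm (W b : ℕ) (Z : ℕ → Finset ℕ) (p m : ℕ) (hp : p.Prime) (hW : ¬ p ∣ W) :
    m % p ∈ Zm W b Z p ↔ (W * m + b) % p ∈ Z p := by
  unfold Zm
  rw [if_neg hW, mem_filter, mem_range]
  have e : (W * (m % p) + b) % p = (W * m + b) % p := by
    have h1 : W * (m % p) + b ≡ W * m + b [MOD p] := ((Nat.mod_modEq m p).mul_left W).add_right b
    exact h1
  rw [e]
  exact ⟨fun h => h.2, fun h => ⟨Nat.mod_lt _ hp.pos, h⟩⟩

theorem card_Zm (W b : ℕ) (Z : ℕ → Finset ℕ) (p : ℕ) (hp : p.Prime) (hW : ¬ p ∣ W) (hZ : ∀ c ∈ Z p, c < p) :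
    (Zm W b Z p).card = (Z p).card := by
  have hinj : Set.InjOn (fun c => (W * c + b) % p) (range p : Set ℕ) := by
    intro c hc c' hc' h
    rw [coe_range, Set.mem_Iio] at hc hc'
    have h1 : W * c + b ≡ W * c' + b [MOD p] := h
    have h2 : W * c ≡ W * c' [MOD p] := Nat.ModEq.add_right_cancel' b h1
    have h3 : c ≡ c' [MOD p] := Nat.ModEq.cancel_left_of_coprime
      ((Nat.Prime.coprime_iff_not_dvd hp).2 hW) h2
    have h4 := Nat.ModEq.eq_of_lt_of_lt h3 hc hc'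
    exact h4
  have himg : (range p).image (fun c => (W * c + b) % p) = range p := by
    apply eq_of_subset_of_card_le
    · intro x hx
      obtain ⟨c, _, rfl⟩ := mem_image.1 hx
      exact mem_range.2 (Nat.mod_lt _ hp.pos)
    · rw [card_image_of_injOn (by exact_mod_cast hinj)]
  unfold Zm
  rw [if_neg hW]
  have h5 : ((range p).filter (fun c => (W * c + b) % p ∈ Z p)).image (fun c => (W * c + b) % p) = Z p := by
    ext x
    rw [mem_image]
    constructor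
    · rintro ⟨c, hc, rfl⟩
      exact (mem_filter.1 hc).2
    · intro hx
      have h6 : x ∈ (range p).image (fun c => (W * c + b) % p) := by
        rw [himg]
        exact mem_range.2 (hZ x hx)
      obtain ⟨c, hc, hcx⟩ := mem_image.1 h6
      exact ⟨c, mem_filter.2 ⟨hc, by rw [hcx]; exact hx⟩, hcx⟩
  have h6 := congrArg card h5
  rw [card_image_of_injOn] at h6
  · exact h6
  · intro c hc c' hc' h
    rw [mem_coe, mem_filter] at hc hc'
    exact hinj (mem_coe.2 hc.1) (mem_coe.2 hc'.1) h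

/-- the primes `≤ y` which do not divide `W` -/
def Pf (W y : ℕ) : Finset ℕ := (Icc 1 y).filter (fun p => p.Prime ∧ ¬ p ∣ W)

theorem VV_le (W b : ℕ) (Z : ℕ → Finset ℕ) (y y' : ℕ) (hy : y ≤ y')
    (hZ : ∀ p : ℕ, p.Prime → ¬ p ∣ W → p ≤ y' → (Z p).card < p ∧ ∀ c ∈ Z p, c < p) :
    0 ≤ ∏ p ∈ Pf W y, (1 - ((Z p).card : ℝ) / p) ∧
    VV (Zm W b Z) 0 y' ≤ ∏ p ∈ Pf W y, (1 - ((Z p).card : ℝ) / p) := by
  have h01 : ∀ p : ℕ, p.Prime → ¬ p ∣ W → p ≤ y' →
      0 ≤ 1 - ((Z p).card : ℝ) / p ∧ 1 - ((Z p).card : ℝ) / p ≤ 1 := by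
    intro p hp hpW hpy
    have hp0 : (0 : ℝ) < p := by exact_mod_cast hp.pos
    have h1 : ((Z p).card : ℝ) / p ≤ 1 := by
      rw [div_le_one hp0]
      exact_mod_cast (hZ p hp hpW hpy).1.le
    have h2 : 0 ≤ ((Z p).card : ℝ) / p := by positivity
    constructor <;> linarith
  constructor
  · apply prod_nonneg
    intro p hp
    unfold Pf at hp
    rw [mem_filter, mem_Icc] at hp
    exact (h01 p hp.2.1 hp.2.2 (hp.1.2.trans hy)).1
  · unfold VV
    have e1 : ∏ p ∈ Pr 0 y', (1 - ((Zm W b Z p).card : ℝ) / p) =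
        ∏ p ∈ Pf W y', (1 - ((Z p).card : ℝ) / p) := by
      unfold Pf
      have e2 : (Icc 1 y').filter (fun p => p.Prime ∧ ¬ p ∣ W) = (Pr 0 y').filter (fun p => ¬ p ∣ W) := by
        unfold Pr
        ext p
        simp only [mem_filter, mem_Icc, mem_Ioc]
        constructor
        · rintro ⟨⟨h1, h2⟩, h3, h4⟩
          exact ⟨⟨⟨by omega, h2⟩, h3⟩, h4⟩
        · rintro ⟨⟨⟨h1, h2⟩, h3⟩, h4⟩
          exact ⟨⟨by omega, h2⟩, h3, h4⟩
      rw [e2, prod_filter]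
      apply prod_congr rfl
      intro p hp
      unfold Pr at hp
      rw [mem_filter, mem_Ioc] at hp
      by_cases hW : p ∣ W
      · rw [if_neg (not_not.2 hW)]
        unfold Zm
        rw [if_pos hW]
        simp
      · rw [if_pos hW, card_Zm W b Z p hp.2 hW (hZ p hp.2 hW hp.1.2).2]
    rw [e1]
    apply prod_le_prod_of_subset_of_le_one
    · intro p hp
      unfold Pf at hp ⊢
      rw [mem_filter, mem_Icc] at hp ⊢
      exact ⟨⟨hp.1.1, hp.1.2.trans hy⟩, hp.2⟩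
    · intro p hp
      unfold Pf at hp
      rw [mem_filter, mem_Icc] at hp
      exact (h01 p hp.2.1 hp.2.2 hp.1.2).1
    · intro p hp _
      unfold Pf at hp
      rw [mem_filter, mem_Icc] at hp
      exact (h01 p hp.2.1 hp.2.2 hp.1.2).2

/-- **Many narrow progressions with one difference.** -/
theorem engine (k r : ℕ) (κ κ' ρ : ℝ) (hκ' : 0 < κ') (hκκ : κ' < κ) (hρ : 0 < ρ) :
    ∃ B : ℕ, ∀ᶠ X : ℝ in atTop, ∀ (W b : ℕ), 0 < W → (W : ℝ) ≤ X ^ (1 / 600 : ℝ) → ∀ Z : ℕ → Finset ℕ,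
      (∀ p : ℕ, p.Prime → ¬ p ∣ W → (p : ℝ) ≤ X ^ κ → (Z p).card ≤ r ∧ (Z p).card < p ∧ ∀ c ∈ Z p, c < p) →
      ∀ T : Finset ℕ, (∀ n ∈ T, n ≡ b [MOD W] ∧ n ≤ ⌊7 * X⌋₊ ∧ X < n ∧
        ∀ p : ℕ, p.Prime → ¬ p ∣ W → (p : ℝ) ≤ X ^ κ → n % p ∉ Z p) →
      X ^ (497 / 500 : ℝ) ≤ (T.card : ℝ) →
      ρ * (X / W * ∏ p ∈ Pf W ⌊X ^ κ'⌋₊, (1 - ((Z p).card : ℝ) / p)) ≤ T.card →
      ∃ d : ℕ, 1 ≤ d ∧ (d : ℝ) ≤ (Real.log X) ^ B ∧
        X ^ (99 / 100 : ℝ) ≤ ((T.filter (fun n => ∀ j ≤ k, n + j * (W * d) ∈ T)).card : ℝ) := by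
  obtain ⟨B, X₀, HF⟩ := Pool.Agent.Y843.HS.fin (k + 1) r (1000 * κ) (ρ / 16) (by linarith) (by positivity)
  refine ⟨B, ?_⟩
  have hY : ∀ᶠ X : ℝ in atTop, X₀ ≤ ⌊X ^ (1 / 1000 : ℝ)⌋₊ := by
    filter_upwards [(tendsto_rpow_atTop (show (0 : ℝ) < 1 / 1000 by norm_num)).eventually_ge_atTop (X₀ : ℝ)] with X h
    exact Nat.le_floor h
  have hY2 : ∀ᶠ X : ℝ in atTop, X ^ κ' ≤ (⌊X ^ (1 / 1000 : ℝ)⌋₊ : ℝ) ^ (1000 * κ) := by
    filter_upwards [(tendsto_rpow_atTop (show (0 : ℝ) < 1 / 1000 by norm_num)).eventually_ge_atTop 1,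
      (tendsto_rpow_atTop (show 0 < κ - κ' by linarith)).eventually_ge_atTop ((2 : ℝ) ^ (1000 * κ)),
      eventually_gt_atTop 0] with X h1 h2 h3
    have h4 : X ^ (1 / 1000 : ℝ) / 2 ≤ ⌊X ^ (1 / 1000 : ℝ)⌋₊ := by
      have h5 := Nat.lt_floor_add_one (X ^ (1 / 1000 : ℝ))
      have h6 : (1 : ℝ) ≤ ⌊X ^ (1 / 1000 : ℝ)⌋₊ := by
        have : 1 ≤ ⌊X ^ (1 / 1000 : ℝ)⌋₊ := Nat.le_floor (by push_cast; exact h1)
        exact_mod_cast this
      linarith
    calc X ^ κ' = X ^ κ / X ^ (κ - κ') := by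
          rw [← Real.rpow_sub h3]
          congr 1
          ring
      _ ≤ X ^ κ / 2 ^ (1000 * κ) := div_le_div_of_nonneg_left (by positivity) (by positivity) h2
      _ = (X ^ (1 / 1000 : ℝ) / 2) ^ (1000 * κ) := by
          rw [Real.div_rpow (by positivity) (by norm_num), ← Real.rpow_mul h3.le]
          congr 2
          ring
      _ ≤ _ := Real.rpow_le_rpow (by positivity) h4 (by linarith)
  have hlg : ∀ᶠ X : ℝ in atTop, 2 * X ^ (99 / 100 : ℝ) * (Real.log X) ^ B * X ^ (1 / 1000 : ℝ) ≤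
      X ^ (497 / 500 : ℝ) := by
    filter_upwards [ev_log 2 B (3 / 1000) (by norm_num), eventually_gt_atTop 0] with X h1 h2
    calc 2 * X ^ (99 / 100 : ℝ) * (Real.log X) ^ B * X ^ (1 / 1000 : ℝ) =
        (2 * (Real.log X) ^ B) * (X ^ (99 / 100 : ℝ) * X ^ (1 / 1000 : ℝ)) := by ring
      _ ≤ X ^ (3 / 1000 : ℝ) * (X ^ (99 / 100 : ℝ) * X ^ (1 / 1000 : ℝ)) := by gcongr
      _ = X ^ (497 / 500 : ℝ) := by
          rw [← Real.rpow_add h2, ← Real.rpow_add h2]
          norm_num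
  filter_upwards [hY, hY2, hlg, eventually_ge_atTop 1, Real.tendsto_log_atTop.eventually_ge_atTop 1,
    (tendsto_rpow_atTop (show (0 : ℝ) < 1 / 1000 by norm_num)).eventually_ge_atTop 1,
    eventually_ge_atTop 4]
    with X hYX hYκ hlog hX1 hL1 hYone hX4
  intro W b hW0 hWX Z hZ T hT hTbig hTlow
  have hX0 : 0 < X := by linarith
  set Y := ⌊X ^ (1 / 1000 : ℝ)⌋₊ with hYdef
  have hY1 : 1 ≤ Y := Nat.le_floor (by push_cast; exact hYone)
  have hYle : (Y : ℝ) ≤ X ^ (1 / 1000 : ℝ) := Nat.floor_le (by positivity)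
  have hYr : (1 : ℝ) ≤ Y := by exact_mod_cast hY1
  have hW0r : (0 : ℝ) < W := by exact_mod_cast hW0
  have hYκ2 : (Y : ℝ) ^ (1000 * κ) ≤ X ^ κ := by
    calc (Y : ℝ) ^ (1000 * κ) ≤ (X ^ (1 / 1000 : ℝ)) ^ (1000 * κ) :=
          Real.rpow_le_rpow (by positivity) hYle (by linarith)
      _ = X ^ κ := by
          rw [← Real.rpow_mul hX0.le]
          congr 1
          ring
  set b' := b % W with hb'
  set P := ∏ p ∈ Pf W ⌊X ^ κ'⌋₊, (1 - ((Z p).card : ℝ) / p) with hP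
  have hWXle : (W : ℝ) ≤ X := hWX.trans (by
    calc X ^ (1 / 600 : ℝ) ≤ X ^ (1 : ℝ) := Real.rpow_le_rpow_of_exponent_le hX1 (by norm_num)
      _ = X := Real.rpow_one X)
  -- the variable `m`
  have hdec : ∀ n ∈ T, W * (n / W) + b' = n := by
    intro n hn
    have h1 : n % W = b' := (hT n hn).1
    rw [← h1]
    exact Nat.div_add_mod n W
  have hdivinj : Set.InjOn (fun n => n / W) (T : Set ℕ) := by
    intro n hn n' hn' h
    rw [← hdec n (mem_coe.1 hn), ← hdec n' (mem_coe.1 hn')]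
    have h' : n / W = n' / W := h
    rw [h']
  set S := T.image (fun n => n / W) with hS
  have hScard : S.card = T.card := card_image_of_injOn hdivinj
  have hSmem : ∀ m ∈ S, W * m + b' ∈ T := by
    intro m hm
    obtain ⟨n, hn, rfl⟩ := mem_image.1 hm
    have h1 := hdec n hn
    rw [h1]
    exact hn
  have hSpos : ∀ m ∈ S, 1 ≤ m := by
    intro m hm
    obtain ⟨n, hn, rfl⟩ := mem_image.1 hm
    have h1 : X < n := (hT n hn).2.2.1
    have h2 : (W : ℝ) ≤ n := by linarith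
    have h3 : W ≤ n := by exact_mod_cast h2
    exact (Nat.one_le_div_iff hW0).2 h3
  set M := ⌊7 * X⌋₊ / (W * Y) + 1 with hM
  have hSj : ∀ m ∈ S, (m - 1) / Y < M := by
    intro m hm
    obtain ⟨n, hn, rfl⟩ := mem_image.1 hm
    have h1 : n ≤ ⌊7 * X⌋₊ := (hT n hn).2.1
    have h2 : (n / W - 1) / Y ≤ ⌊7 * X⌋₊ / (W * Y) := by
      rw [← Nat.div_div_eq_div_mul]
      apply Nat.div_le_div_right
      exact (Nat.sub_le _ _).trans (Nat.div_le_div_right h1)
    rw [hM]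
    omega
  set Sj : ℕ → Finset ℕ := fun j => S.filter (fun m => (m - 1) / Y = j) with hSjdef
  have hSjI : ∀ j, Sj j ⊆ Ioc (j * Y) (j * Y + Y) := by
    intro j m hm
    rw [hSjdef, mem_filter] at hm
    rw [mem_Ioc]
    have h1 := hSpos m hm.1
    have h2 := Nat.div_add_mod (m - 1) Y
    rw [hm.2] at h2
    have h3 := Nat.mod_lt (m - 1) (by omega : 0 < Y)
    have h4 : Y * j = j * Y := Nat.mul_comm _ _
    omega
  have hsum : (T.card : ℝ) = ∑ j ∈ range M, ((Sj j).card : ℝ) := by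
    have := card_eq_sum_card_fiberwise (f := fun m => (m - 1) / Y) (s := S) (t := range M) (fun m hm => by
      rw [mem_coe, mem_range]
      exact hSj m hm)
    rw [hScard] at this
    exact_mod_cast this
  have hcardY : ∀ j, ((Sj j).card : ℝ) ≤ Y := by
    intro j
    have h1 := card_le_card (hSjI j)
    rw [Nat.card_Ioc] at h1
    have h2 : j * Y + Y - j * Y = Y := by omega
    rw [h2] at h1
    exact_mod_cast h1
  classical
  set G := (range M).filter (fun j => ρ / 16 * Y * P ≤ ((Sj j).card : ℝ)) with hG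
  have hZW : ∀ p : ℕ, p.Prime → ¬ p ∣ W → p ≤ ⌊(Y : ℝ) ^ (1000 * κ)⌋₊ → (Z p).card < p ∧ ∀ c ∈ Z p, c < p := by
    intro p hp hpW hpy
    have h1 : (p : ℝ) ≤ X ^ κ := le_trans ((Nat.le_floor_iff (by positivity)).1 hpy) hYκ2
    exact (hZ p hp hpW h1).2
  obtain ⟨hP0, hVP⟩ := VV_le W b' Z ⌊X ^ κ'⌋₊ ⌊(Y : ℝ) ^ (1000 * κ)⌋₊ (Nat.floor_le_floor hYκ) hZW
  rw [← hP] at hP0 hVP
  -- bad intervals
  have hMY : (M : ℝ) * Y ≤ 8 * (X / W) := by
    have h1 : ((⌊7 * X⌋₊ / (W * Y) : ℕ) : ℝ) ≤ 7 * X / (W * Y) := by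
      refine Nat.cast_div_le.trans ?_
      push_cast
      gcongr
      exact Nat.floor_le (by linarith)
    have h2 : (M : ℝ) ≤ 7 * X / (W * Y) + 1 := by
      rw [hM]
      push_cast
      linarith
    have h3 : (Y : ℝ) ≤ X / W := by
      rw [le_div_iff₀ hW0r]
      calc (Y : ℝ) * W ≤ X ^ (1 / 1000 : ℝ) * X ^ (1 / 600 : ℝ) := by gcongr
        _ = X ^ (1 / 1000 + 1 / 600 : ℝ) := by rw [← Real.rpow_add hX0]
        _ ≤ X ^ (1 : ℝ) := Real.rpow_le_rpow_of_exponent_le hX1 (by norm_num)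
        _ = X := Real.rpow_one X
    calc (M : ℝ) * Y ≤ (7 * X / (W * Y) + 1) * Y := by gcongr
      _ = 7 * (X / W) + Y := by field_simp
      _ ≤ _ := by linarith
  have hbad : ∑ j ∈ (range M).filter (fun j => ¬ ρ / 16 * Y * P ≤ ((Sj j).card : ℝ)), ((Sj j).card : ℝ) ≤
      T.card / 2 := by
    calc ∑ j ∈ (range M).filter (fun j => ¬ ρ / 16 * Y * P ≤ ((Sj j).card : ℝ)), ((Sj j).card : ℝ) ≤
        ∑ j ∈ (range M).filter (fun j => ¬ ρ / 16 * Y * P ≤ ((Sj j).card : ℝ)), (ρ / 16 * Y * P) := by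
          apply sum_le_sum
          intro j hj
          exact (not_le.1 (mem_filter.1 hj).2).le
      _ ≤ ∑ j ∈ range M, (ρ / 16 * Y * P) :=
          sum_le_sum_of_subset_of_nonneg (filter_subset _ _) (fun _ _ _ => by positivity)
      _ = ρ / 16 * P * (M * Y) := by
          rw [sum_const, card_range, nsmul_eq_mul]
          ring
      _ ≤ ρ / 16 * P * (8 * (X / W)) := mul_le_mul_of_nonneg_left hMY (by positivity)
      _ = (ρ * (X / W * P)) / 2 := by ring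
      _ ≤ _ := by linarith
  have hgood : (T.card : ℝ) / 2 ≤ G.card * Y := by
    have h1 := sum_filter_add_sum_filter_not (range M) (fun j => ρ / 16 * Y * P ≤ ((Sj j).card : ℝ))
      (fun j => ((Sj j).card : ℝ))
    rw [← hsum] at h1
    have h2 : ∑ j ∈ G, ((Sj j).card : ℝ) ≤ G.card * Y := by
      calc ∑ j ∈ G, ((Sj j).card : ℝ) ≤ ∑ j ∈ G, (Y : ℝ) := sum_le_sum fun j _ => hcardY j
        _ = _ := by rw [sum_const, nsmul_eq_mul]
    rw [← hG] at h1
    linarith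
  -- progressions in the good intervals
  have hAP : ∀ j ∈ G, ∃ a d : ℕ, 1 ≤ d ∧ (d : ℝ) ≤ Real.log Y ^ B ∧ ∀ i < k + 1, a + i * d ∈ Sj j := by
    intro j hj
    apply HF Y (j * Y) hYX (Zm W b' Z)
    · intro p hp hpY
      by_cases hpW : p ∣ W
      · unfold Zm
        rw [if_pos hpW]
        simp [hp.pos]
      · have h1 := hZ p hp hpW (hpY.trans hYκ2)
        rw [card_Zm W b' Z p hp hpW h1.2.2]
        refine ⟨h1.1, h1.2.1, ?_⟩
        intro c hc
        unfold Zm at hc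
        rw [if_neg hpW, mem_filter, mem_range] at hc
        exact hc.1
    · exact hSjI j
    · intro m hm p hp hpY hmem
      have hmS : m ∈ S := (mem_filter.1 hm).1
      by_cases hpW : p ∣ W
      · unfold Zm at hmem
        rw [if_pos hpW] at hmem
        simp at hmem
      · rw [mem_Zm W b' Z p m hp hpW] at hmem
        exact (hT _ (hSmem m hmS)).2.2.2 p hp hpW (hpY.trans hYκ2) hmem
    · have h1 := (mem_filter.1 hj).2
      refine le_trans ?_ h1
      exact mul_le_mul_of_nonneg_left hVP (by positivity)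
  choose! a d hd1 hd2 had using hAP
  have hTpos : (0 : ℝ) < T.card := lt_of_lt_of_le (by positivity) hTbig
  have hGne : G.Nonempty := by
    rw [nonempty_iff_ne_empty]
    intro h
    rw [h, card_empty] at hgood
    simp only [Nat.cast_zero, zero_mul] at hgood
    linarith
  have hlogY : Real.log Y ≤ Real.log X := by
    apply Real.log_le_log (by linarith)
    refine hYle.trans ?_
    calc X ^ (1 / 1000 : ℝ) ≤ X ^ (1 : ℝ) := Real.rpow_le_rpow_of_exponent_le hX1 (by norm_num)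
      _ = X := Real.rpow_one X
  have hdB : ∀ j ∈ G, 1 ≤ d j ∧ d j ≤ ⌊(Real.log X) ^ B⌋₊ := by
    intro j hj
    refine ⟨hd1 j hj, Nat.le_floor ((hd2 j hj).trans ?_)⟩
    exact pow_le_pow_left₀ (Real.log_nonneg hYr) hlogY B
  obtain ⟨D, hD1, hD2, hD3⟩ := pigeon G d ⌊(Real.log X) ^ B⌋₊ hdB hGne
  have hLB0 : 0 ≤ (Real.log X) ^ B := by positivity
  have hDB : (D : ℝ) ≤ (Real.log X) ^ B := (Nat.le_floor_iff hLB0).1 hD2
  refine ⟨D, hD1, hDB, ?_⟩
  have hmap : (G.filter (fun j => d j = D)).card ≤ (T.filter (fun n => ∀ j ≤ k, n + j * (W * D) ∈ T)).card := by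
    apply card_le_card_of_injOn (fun j => W * a j + b')
    · intro j hj
      rw [mem_coe, mem_filter] at hj
      rw [mem_coe, mem_filter]
      have h1 : ∀ i ≤ k, W * a j + b' + i * (W * D) ∈ T := by
        intro i hi
        have h2 := hSmem _ (mem_filter.1 (had j hj.1 i (by omega))).1
        rw [hj.2] at h2
        have h3 : W * (a j + i * D) + b' = W * a j + b' + i * (W * D) := by ring
        rwa [h3] at h2
      refine ⟨?_, h1⟩
      have := h1 0 (Nat.zero_le k)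
      simpa using this
    · intro j hj j' hj' h
      rw [mem_coe, mem_filter] at hj hj'
      have h' : W * a j + b' = W * a j' + b' := h
      have h1 : a j = a j' := Nat.eq_of_mul_eq_mul_left hW0 (Nat.add_right_cancel h')
      have h2 := (mem_filter.1 (had j hj.1 0 (by omega))).2
      have h3 := (mem_filter.1 (had j' hj'.1 0 (by omega))).2
      simp only [zero_mul, add_zero] at h2 h3
      rw [← h2, ← h3, h1]
  have hmapr : ((G.filter (fun j => d j = D)).card : ℝ) ≤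
      ((T.filter (fun n => ∀ j ≤ k, n + j * (W * D) ∈ T)).card : ℝ) := by exact_mod_cast hmap
  refine le_trans ?_ hmapr
  set t := ((G.filter (fun j => d j = D)).card : ℝ) with ht
  have ht0 : 0 ≤ t := Nat.cast_nonneg _
  have hBf : ((⌊(Real.log X) ^ B⌋₊ : ℕ) : ℝ) ≤ (Real.log X) ^ B := Nat.floor_le hLB0
  have h1 : (G.card : ℝ) ≤ (Real.log X) ^ B * t := hD3.trans (mul_le_mul_of_nonneg_right hBf ht0)
  have h2 : X ^ (497 / 500 : ℝ) ≤ 2 * ((Real.log X) ^ B * t * X ^ (1 / 1000 : ℝ)) := by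
    calc X ^ (497 / 500 : ℝ) ≤ 2 * (G.card * Y) := by linarith
      _ ≤ 2 * ((Real.log X) ^ B * t * X ^ (1 / 1000 : ℝ)) := by gcongr
  have hpos : 0 < 2 * (Real.log X) ^ B * X ^ (1 / 1000 : ℝ) := by positivity
  have h3 : X ^ (99 / 100 : ℝ) * (2 * (Real.log X) ^ B * X ^ (1 / 1000 : ℝ)) ≤
      t * (2 * (Real.log X) ^ B * X ^ (1 / 1000 : ℝ)) := by
    calc X ^ (99 / 100 : ℝ) * (2 * (Real.log X) ^ B * X ^ (1 / 1000 : ℝ)) =
        2 * X ^ (99 / 100 : ℝ) * (Real.log X) ^ B * X ^ (1 / 1000 : ℝ) := by ring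
      _ ≤ X ^ (497 / 500 : ℝ) := hlog
      _ ≤ 2 * ((Real.log X) ^ B * t * X ^ (1 / 1000 : ℝ)) := h2
      _ = _ := by ring
  exact le_of_mul_le_mul_right h3 hpos

end Pool.Agent.J4H32.MV.Eng
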