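import Pool.Agent.J4H32.MV.S3

/-!
# Project MV: counting, exact statements (helper32)
-/

set_option autoImplicit false

namespace Pool.Agent.J4H32.MV

open Finset
open Pool.Agent.J4H81.PT (GG)

/-- the shifts `0, m_1, ..., m_k` -/
def aa {k : ℕ} (m : Fin k → ℕ) : Fin (k + 1) → ℕ := Fin.cons 0 m

/-- (MB) second moments of products of the model -/
def S_MB : Prop := ∀ (K W Q T : ℕ) (C : Fin K → ℕ) (S : Finset (Fin K)), 1 ≤ Q → 1 ≤ T →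
  ∑ s ∈ range T, ∏ j ∈ S, GG W Q ((C j + W * s : ℕ) : ℤ) ^ 2 ≤
    Real.exp (4 ^ K * (2 * (K : ℝ) + 2) * ∑ p ∈ (range (Q + 1)).filter Nat.Prime, 1 / (p : ℝ)) * T + 4 * (Q : ℝ) ^ (4 * K)

open Classical in
/-- (BD) few vectors of shifts have a difference with many prime factors above `w` -/
def S_BD : Prop := ∀ (k w X : ℕ) (ε : ℝ), 1 ≤ w → 1 ≤ X →
  (((Fintype.piFinset (fun _ : Fin k => Icc 1 X)).filter (fun m => ∃ i j : Fin (k + 1), i ≠ j ∧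
    (aa m i = aa m j ∨ ε < Sg w ((aa m i : ℤ) - aa m j)))).card : ℝ) ≤
    ((k : ℝ) + 1) ^ 2 * ((X : ℝ) ^ k / X + 16 * (X : ℝ) ^ k * Real.exp (-(ε * w)))

/-- (CN) from exceptional tuples of shifts to exceptional vectors -/
def S_CN : Prop := ∀ (k W Y : ℕ) (Z : Finset (Fin k → ℕ)) (b : (Fin k → ℕ) → ℕ) (Ex : (Fin k → ℕ) → Finset (Fin (k + 1) → ℕ)) (M : ℝ),
  1 ≤ W → (∀ ρ, b ρ < W) → (∀ ρ, ((Ex ρ).card : ℝ) ≤ M) →
  (∀ m ∈ Z, ∀ t < Y, (fun j => t + (b (fun i => m i % W) + aa m j) / W) ∈ Ex (fun i => m i % W)) →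
  (Z.card : ℝ) * Y ≤ (W : ℝ) ^ k * M

end Pool.Agent.J4H32.MV
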