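import Pool.Agent.J4H32.MV.Core
import Pool.Agent.J4H32.MV.S5

/-!
# Project MV: the choice of the class and the count of primes (helper32)
-/

set_option autoImplicit false

namespace Pool.Agent.J4H32.MV

open Finset MeasureTheory Filter
open Pool.Agent.J4H81.PT

/-- no local obstruction for `n, n + m_1, ..., n + m_k` -/
def Ad {k : ℕ} (m : Fin k → ℕ) : Prop := ∀ p : ℕ, p.Prime → ∃ r : ℕ, ∀ j, ¬ p ∣ r + aa m j

/-- the number of `n ≤ X` such that `n, n + m_1, ..., n + m_k` are primes -/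
noncomputable def Cn {k : ℕ} (m : Fin k → ℕ) (X : ℕ) : ℕ := ((Icc 1 X).filter (fun n => ∀ j, (n + aa m j).Prime)).card

theorem aa_mod {k W : ℕ} (m m' : Fin k → ℕ) (h : (fun i => m i % W) = fun i => m' i % W) (j : Fin (k + 1)) :
    aa m j % W = aa m' j % W := by
  unfold aa
  refine Fin.cases ?_ (fun i => ?_) j
  · simp
  · simp only [Fin.cons_succ]
    exact congrFun h i

theorem exists_b (hRC : S_RC) {k w W : ℕ} (hW : W = primorial w) (hw : 1 ≤ w) (B : Finset (ZMod W))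
    (hB : ((k + 1 : ℕ) : ℝ) * B.card * ((2 * ((k + 1 : ℕ) : ℝ)) ^ (2 * (k + 1)) * (w : ℝ) ^ (2 * (k + 1))) < W) (ρ : Fin k → ℕ) :
    ∃ b < W, ∀ m : Fin k → ℕ, Ad m → (fun i => m i % W) = ρ → ∀ j, (b + aa m j).Coprime W ∧ ((b + aa m j : ℕ) : ZMod W) ∉ B := by
  subst hW
  by_cases hex : ∃ m₁ : Fin k → ℕ, Ad m₁ ∧ (fun i => m₁ i % primorial w) = ρ
  · obtain ⟨m₁, hAd, hρ⟩ := hex
    obtain ⟨b, hb, hbj⟩ := hRC (k + 1) w (aa m₁) (by omega) hw hAd B hB
    refine ⟨b, hb, ?_⟩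
    intro m _ hm j
    obtain ⟨h1, h2⟩ := hbj j
    have h3 : aa m j % primorial w = aa m₁ j % primorial w := aa_mod m m₁ (hm.trans hρ.symm) j
    have h4 : b + aa m j ≡ b + aa m₁ j [MOD primorial w] := Nat.ModEq.add_left b h3
    refine ⟨?_, ?_⟩
    · have h5 := h4.gcd_eq
      unfold Nat.Coprime
      rw [h5]
      exact h1
    · have h5 : ((b + aa m j : ℕ) : ZMod (primorial w)) = ((b + aa m₁ j : ℕ) : ZMod (primorial w)) :=
        (ZMod.natCast_eq_natCast_iff _ _ _).2 h4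
      rw [h5]
      exact h2
  · refine ⟨0, primorial_pos w, ?_⟩
    intro m hAd hm
    exact absurd ⟨m, hAd, hm⟩ hex

theorem count_lower {k W S₀ X b t : ℕ} {c : ℕ → ℝ} {B₀ : ℝ} (hW : 0 < W) (hc0 : ∀ n, 0 ≤ c n) (hcB : ∀ n, c n ≤ B₀)
    (hcp : ∀ n, c n ≠ 0 → n.Prime) (hB1 : 1 ≤ B₀) (m : Fin k → ℕ) (r τ : Fin (k + 1) → ℕ)
    (hrt : ∀ j, r j + W * τ j = W * t + b + aa m j) (hX : ∀ s < S₀, b + W * (s + t) ≤ X) :
    ∑ s ∈ range S₀, ∏ j, FFc W c (r j) (s + τ j) ≤ B₀ ^ (k + 1) * Cn m X := by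
  classical
  set G : Finset ℕ := (range S₀).filter (fun s => ∀ j, FFc W c (r j) (s + τ j) ≠ 0) with hG
  have h1 : ∑ s ∈ range S₀, ∏ j, FFc W c (r j) (s + τ j) = ∑ s ∈ G, ∏ j, FFc W c (r j) (s + τ j) := by
    rw [hG, sum_filter]
    refine sum_congr rfl fun s _ => ?_
    split_ifs with h
    · rfl
    · push Not at h
      obtain ⟨j, hj⟩ := h
      exact prod_eq_zero (Finset.mem_univ j) hj
  rw [h1]
  have h2 : ∑ s ∈ G, ∏ j, FFc W c (r j) (s + τ j) ≤ ∑ s ∈ G, B₀ ^ (k + 1) := by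
    apply sum_le_sum
    intro s _
    calc ∏ j, FFc W c (r j) (s + τ j) ≤ ∏ j : Fin (k + 1), B₀ :=
          prod_le_prod (fun _ _ => FFc_nonneg hc0 _ _) fun _ _ => FFc_le hW hc0 hcB _ _
      _ = B₀ ^ (k + 1) := by rw [prod_const, card_univ, Fintype.card_fin]
  refine h2.trans ?_
  rw [sum_const, nsmul_eq_mul, mul_comm]
  apply mul_le_mul_of_nonneg_left _ (by positivity)
  have h3 : G.card ≤ Cn m X := by
    unfold Cn
    apply card_le_card_of_injOn (fun s => b + W * (s + t))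
    · intro s hs
      rw [Finset.mem_coe, hG, Finset.mem_filter, Finset.mem_range] at hs
      have hpr : ∀ j, (b + W * (s + t) + aa m j).Prime := by
        intro j
        have h4 := FFc_prime hcp (hs.2 j)
        have e : r j + W * (s + τ j) = b + W * (s + t) + aa m j := by
          have := hrt j
          rw [Nat.mul_add, Nat.mul_add]
          omega
        rw [e] at h4
        exact h4
      rw [Finset.mem_coe, Finset.mem_filter, Finset.mem_Icc]
      refine ⟨⟨?_, hX s hs.1⟩, hpr⟩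
      have h5 := (hpr 0).one_lt
      have h6 : aa m 0 = 0 := rfl
      rw [h6] at h5
      show 1 ≤ b + W * (s + t)
      omega
    · intro s _ s' _ h
      simp only at h
      have h4 : W * (s + t) = W * (s' + t) := by omega
      have h5 := Nat.eq_of_mul_eq_mul_left hW h4
      omega
  exact_mod_cast h3

end Pool.Agent.J4H32.MV
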