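import Pool.Agent.J4H32.MV.Fa

/-!
# Project MV: exceptional vectors at one scale (helper32)
-/

set_option autoImplicit false

namespace Pool.Agent.J4H32.MV

open Finset MeasureTheory Filter
open Pool.Agent.J4H81.PT

/-- integer arithmetic of the ranges -/
theorem ranges {X W T : ℕ} (hW : 0 < W) (hT : T = (4 * X + 1) / W) (hWX : W * 20 ≤ X) :
    4 * (X / W) ≤ T ∧ T ≤ 4 * (X / W) + 4 ∧ W * T ≤ 4 * X + 1 ∧ 3 * X ≤ W * T ∧ 20 ≤ X / W ∧ W * (X / W) ≤ X := by
  have h1 : W * (X / W) + X % W = X := Nat.div_add_mod X W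
  have h2 : X % W < W := Nat.mod_lt _ hW
  have h3 : W * T + (4 * X + 1) % W = 4 * X + 1 := by rw [hT]; exact Nat.div_add_mod (4 * X + 1) W
  have h4 : (4 * X + 1) % W < W := Nat.mod_lt _ hW
  have h5 : 20 ≤ X / W := (Nat.le_div_iff_mul_le hW).2 (by linarith)
  refine ⟨?_, ?_, by omega, by omega, h5, by omega⟩
  · rw [hT, Nat.le_div_iff_mul_le hW]
    have : 4 * (X / W) * W = 4 * (W * (X / W)) := by ring
    rw [this]
    omega
  · have h6 : W * T < W * (4 * (X / W) + 5) := by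
      have : W * (4 * (X / W) + 5) = 4 * (W * (X / W)) + 5 * W := by ring
      rw [this]
      omega
    have := Nat.lt_of_mul_lt_mul_left h6
    omega

open Classical in
theorem fin1 (hTE : S_TE) (hMD : S_MD) (hRC : S_RC) (hMB : S_MB) (hCN : S_CN) {k D c₁ : ℕ} {η l ε C : ℝ} {X : ℕ}
    (hKη : ((k + 1 : ℕ) : ℝ) * η ≤ 1 / 64)
    (hD : D = 2 * (k + 1) + c₁ + 5)
    (hPS : ∀ Q : ℕ, (Q : ℝ) ≤ Real.exp l → ∑ p ∈ (range (Q + 1)).filter Nat.Prime, 1 / (p : ℝ) ≤ C * Real.log l)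
    (hc₁ : 4 ^ (k + 1) * (2 * ((k + 1 : ℕ) : ℝ) + 2) * C ≤ c₁)
    (hl4 : 10 ^ 4 ≤ l) (hl2 : 2 * (((k + 1 : ℕ) : ℝ) * (2 * ((k + 1 : ℕ) : ℝ)) ^ (2 * (k + 1))) ≤ l) (hl3 : 1000 * ((k + 1 : ℕ) : ℝ) ≤ l)
    (hl5 : 24000 * (2 ^ (k + 1) * (((k + 1 : ℕ) : ℝ) + 2)) ≤ l) (hε0 : 0 ≤ ε) (hε : 2 ^ (k + 1) * (((k + 1 : ℕ) : ℝ) + 2) * (((k + 1 : ℕ) : ℝ) ^ 2 * ε) ≤ 1 / 6)
    (hl6 : 4 * ((k + 1 : ℕ) : ℝ) * l ^ (c₁ + 4) ≤ Real.exp (l / 250))
    (hX : Real.exp ((((k + 1 : ℕ) : ℝ) + 3) * l) ≤ X)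
    (hSD : SD η D l (4 * X)) :
    ∃ w : ℕ, l / 2000 ≤ w ∧ (((Fintype.piFinset (fun _ : Fin k => Icc 1 X)).filter (fun m => Ad m ∧ (Cn m X : ℝ) < X * Real.exp (-(l / 300)) ∧
      ¬ ∃ i j : Fin (k + 1), i ≠ j ∧ (aa m i = aa m j ∨ ε < Sg w ((aa m i : ℤ) - aa m j)))).card : ℝ) ≤
        20 * 5 ^ k * (X : ℝ) ^ k * Real.exp (-(l / 200)) := by
  obtain ⟨w, W, T, Q, P, N₁, ω, c, B₀, m₀, Et, h⟩ := hSD
  set K : ℕ := k + 1 with hKdef
  have hK1 : (1 : ℝ) ≤ (K : ℝ) := by rw [hKdef]; push_cast; linarith [(Nat.cast_nonneg k : (0 : ℝ) ≤ k)]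
  have hK0 : (0 : ℝ) < (K : ℝ) := by linarith
  have hl0 : 0 < l := by linarith
  have hl1 : 1 ≤ l := by linarith
  have hWpos : 0 < W := by rw [h.hW]; exact primorial_pos w
  have : NeZero W := ⟨hWpos.ne'⟩
  have hW0 : (0 : ℝ) < W := by exact_mod_cast hWpos
  have hW1 : (1 : ℝ) ≤ W := by exact_mod_cast hWpos
  have hwr : 5 ≤ (w : ℝ) := by linarith [h.hw1]
  have hw2 : 2 ≤ w := by
    have : (2 : ℝ) ≤ w := by linarith
    exact_mod_cast this
  have hw0 : (0 : ℝ) < w := by linarith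
  have hX0 : (0 : ℝ) < X := lt_of_lt_of_le (Real.exp_pos _) hX
  have he1 : 10 ^ 4 ≤ Real.exp l := by
    have := Real.add_one_le_exp l
    linarith
  -- the ranges
  have hWX : W * 20 ≤ X := by
    have h1 : (W : ℝ) * 20 ≤ X := by
      calc (W : ℝ) * 20 ≤ Real.exp (l / 700) * Real.exp l := by
            apply mul_le_mul h.hWl (by linarith) (by norm_num) (Real.exp_pos _).le
        _ = Real.exp (l / 700 + l) := (Real.exp_add _ _).symm
        _ ≤ Real.exp ((K + 3) * l) := by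
            apply Real.exp_le_exp.2
            nlinarith only [hK1, hl0]
        _ ≤ X := hX
    exact_mod_cast h1
  obtain ⟨hq1, hq2, hWT, h3X, hq20, hWq⟩ := ranges hWpos h.hT hWX
  set q : ℕ := X / W with hq
  have hTpos : 1 ≤ T := by omega
  have hT0 : (0 : ℝ) < T := by exact_mod_cast hTpos
  have h3Xr : 3 * (X : ℝ) ≤ W * T := by exact_mod_cast h3X
  have hWTr : (W : ℝ) * T ≤ 4 * X + 1 := by exact_mod_cast hWT
  have hX1 : (1 : ℝ) ≤ X := by
    have : 0 < X := by exact_mod_cast hX0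
    exact_mod_cast this
  have hT3 : 3 * (X : ℝ) * Real.exp (-(l / 700)) ≤ T := by
    have h1 : 3 * (X : ℝ) ≤ Real.exp (l / 700) * T := h3Xr.trans (mul_le_mul_of_nonneg_right h.hWl hT0.le)
    calc 3 * (X : ℝ) * Real.exp (-(l / 700)) ≤ Real.exp (l / 700) * T * Real.exp (-(l / 700)) :=
          mul_le_mul_of_nonneg_right h1 (Real.exp_pos _).le
      _ = T * (Real.exp (l / 700) * Real.exp (-(l / 700))) := by ring
      _ = T := by rw [← Real.exp_add]; simp
  have hTexp : Real.exp ((K + 2) * l) ≤ T := by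
    calc Real.exp ((K + 2) * l) ≤ Real.exp ((K + 3) * l + -(l / 700)) := Real.exp_le_exp.2 (by linarith)
      _ = Real.exp ((K + 3) * l) * Real.exp (-(l / 700)) := Real.exp_add _ _
      _ ≤ X * Real.exp (-(l / 700)) := mul_le_mul_of_nonneg_right hX (Real.exp_pos _).le
      _ ≤ 3 * X * Real.exp (-(l / 700)) := by
          apply mul_le_mul_of_nonneg_right _ (Real.exp_pos _).le
          linarith
      _ ≤ T := hT3
  -- the moments
  have hB0 : 0 < B₀ := by linarith [h.hB1]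
  have hB2K : 0 < B₀ ^ (2 * K) := by positivity
  have hQel : (Q : ℝ) ≤ Real.exp l := h.hQl.trans (Real.exp_le_exp.2 (by linarith))
  have hlc1 : 1 ≤ l ^ c₁ := one_le_pow₀ hl1
  have hQpow : (Q : ℝ) ^ (4 * K) ≤ Real.exp ((K : ℝ) * l) := by
    calc (Q : ℝ) ^ (4 * K) ≤ Real.exp (l / 40) ^ (4 * K) := pow_le_pow_left₀ (Nat.cast_nonneg _) h.hQl _
      _ = Real.exp ((4 * K : ℕ) * (l / 40)) := by rw [← Real.exp_nat_mul]
      _ ≤ Real.exp ((K : ℝ) * l) := by
          apply Real.exp_le_exp.2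
          push_cast
          nlinarith only [hK0, hl0]
  have hQpow2 : (Q : ℝ) ^ (2 * K) ≤ Real.exp ((K : ℝ) * l) := by
    have hQ1 : (1 : ℝ) ≤ Q := by exact_mod_cast h.hQ1
    exact (pow_le_pow_right₀ hQ1 (by omega)).trans hQpow
  set a₁ : ℝ := 2 * l ^ c₁ * T with ha₁
  have hMB' : ∀ (C : Fin K → ℕ) (S : Finset (Fin K)), ∑ s ∈ range T, ∏ j ∈ S, GG W Q ((C j + W * s : ℕ) : ℤ) ^ 2 ≤ a₁ := by
    intro C' S
    refine (hMB K W Q T C' S h.hQ1 hTpos).trans ?_
    have h1 : Real.exp (4 ^ K * (2 * (K : ℝ) + 2) * ∑ p ∈ (range (Q + 1)).filter Nat.Prime, 1 / (p : ℝ)) ≤ l ^ c₁ := by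
      have h2 := hPS Q hQel
      have h3 : l ^ c₁ = Real.exp (c₁ * Real.log l) := by rw [Real.exp_nat_mul, Real.exp_log hl0]
      rw [h3]
      apply Real.exp_le_exp.2
      have hlog : 0 ≤ Real.log l := Real.log_nonneg hl1
      calc 4 ^ K * (2 * (K : ℝ) + 2) * ∑ p ∈ (range (Q + 1)).filter Nat.Prime, 1 / (p : ℝ) ≤ 4 ^ K * (2 * (K : ℝ) + 2) * (C * Real.log l) :=
            mul_le_mul_of_nonneg_left h2 (by positivity)
        _ = (4 ^ K * (2 * (K : ℝ) + 2) * C) * Real.log l := by ring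
        _ ≤ c₁ * Real.log l := mul_le_mul_of_nonneg_right hc₁ hlog
    have h4 : 4 * (Q : ℝ) ^ (4 * K) ≤ T := by
      calc 4 * (Q : ℝ) ^ (4 * K) ≤ Real.exp l * Real.exp ((K : ℝ) * l) := by
            apply mul_le_mul (by linarith) hQpow (by positivity) (Real.exp_pos _).le
        _ = Real.exp (l + K * l) := (Real.exp_add _ _).symm
        _ ≤ Real.exp ((K + 2) * l) := Real.exp_le_exp.2 (by linarith)
        _ ≤ T := hTexp
    have h5 : (T : ℝ) ≤ l ^ c₁ * T := le_mul_of_one_le_left hT0.le hlc1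
    have h6 := mul_le_mul_of_nonneg_right h1 hT0.le
    rw [ha₁]
    linarith
  set a : ℝ := B₀ ^ (2 * K) * a₁ with ha
  set E : ℝ := T / (B₀ ^ (2 * K) * l ^ (c₁ + 4)) with hE
  have hE0 : 0 < E := by positivity
  set τ : ℝ := T / l ^ 2 with hτ
  have hτ0 : 0 < τ := by positivity
  have hEa : E * a = 2 * (T / l ^ 2) ^ 2 := by
    rw [hE, ha, ha₁]
    field_simp
    ring
  have hsqrt : Real.sqrt (E * a) ≤ 2 * (T / l ^ 2) := by
    rw [hEa]
    apply Real.sqrt_le_iff.2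
    refine ⟨by positivity, ?_⟩
    have : 0 ≤ ((T : ℝ) / l ^ 2) ^ 2 := sq_nonneg _
    nlinarith only [this]
  have hsm : K * (Real.sqrt (E * a) + τ) ≤ T / 200 := by
    have h1 : (K : ℝ) * (Real.sqrt (E * a) + τ) ≤ K * (2 * (T / l ^ 2) + T / l ^ 2) := by
      apply mul_le_mul_of_nonneg_left _ hK0.le
      rw [hτ]
      linarith
    refine h1.trans ?_
    have e : (K : ℝ) * (2 * (T / l ^ 2) + T / l ^ 2) = (3 * K * T) / l ^ 2 := by ring
    rw [e, div_le_div_iff₀ (by positivity) (by norm_num)]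
    have h2 : 600 * (K : ℝ) ≤ l ^ 2 := by nlinarith only [hl3, hl1, hK0]
    calc 3 * K * T * 200 = (600 * (K : ℝ)) * T := by ring
      _ ≤ l ^ 2 * T := mul_le_mul_of_nonneg_right h2 hT0.le
      _ = T * l ^ 2 := by ring
  have hδ : 2 ^ K * ((K : ℝ) + 2) * (2 / w + K ^ 2 * ε) ≤ 1 / 3 := by
    have h1 : 2 ^ K * ((K : ℝ) + 2) * (2 / w) ≤ 1 / 6 := by
      have h2 : 12 * (2 ^ K * ((K : ℝ) + 2)) ≤ w := by linarith [h.hw1]
      rw [mul_div_assoc', div_le_div_iff₀ hw0 (by norm_num)]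
      linarith
    rw [mul_add]
    linarith
  have hQT : 2 * (Q : ℝ) ^ (2 * K) * (2 * K + 2) ≤ T / 200 := by
    rw [le_div_iff₀ (by norm_num)]
    have h1 : 2 * (2 * (K : ℝ) + 2) * 200 ≤ Real.exp l := by
      have := Real.add_one_le_exp l
      linarith
    calc 2 * (Q : ℝ) ^ (2 * K) * (2 * K + 2) * 200 = (2 * (2 * (K : ℝ) + 2) * 200) * (Q : ℝ) ^ (2 * K) := by ring
      _ ≤ Real.exp l * Real.exp ((K : ℝ) * l) := mul_le_mul h1 hQpow2 (by positivity) (Real.exp_pos _).le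
      _ = Real.exp (l + K * l) := (Real.exp_add _ _).symm
      _ ≤ Real.exp ((K + 2) * l) := Real.exp_le_exp.2 (by linarith)
      _ ≤ T := hTexp
  -- the classes
  obtain ⟨B, hBE, hBgood⟩ := cls h hTpos hE0
  have hBD : (B.card : ℝ) * l ^ (2 * K + 1) ≤ W := by
    have hEt0 : 0 ≤ Et := le_trans (by positivity) hBE
    have h1 : (B.card : ℝ) * T ≤ Et * (B₀ ^ (2 * K) * l ^ (c₁ + 4)) := by
      rw [hE, mul_div_assoc', div_le_iff₀ (by positivity)] at hBE
      exact hBE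
    have h2 : B₀ ^ (2 * K) ≤ B₀ ^ D := pow_le_pow_right₀ h.hB1 (by omega)
    have h3 : (B.card : ℝ) * T * l ^ (2 * K + 1) ≤ W * T := by
      calc (B.card : ℝ) * T * l ^ (2 * K + 1) ≤ Et * (B₀ ^ (2 * K) * l ^ (c₁ + 4)) * l ^ (2 * K + 1) :=
            mul_le_mul_of_nonneg_right h1 (by positivity)
        _ = Et * (B₀ ^ (2 * K) * l ^ D) := by
            rw [hD]
            have : l ^ (2 * K + c₁ + 5) = l ^ (c₁ + 4) * l ^ (2 * K + 1) := by rw [← pow_add]; congr 1; omega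
            rw [this]
            ring
        _ ≤ Et * (B₀ ^ D * l ^ D) := by
            apply mul_le_mul_of_nonneg_left _ hEt0
            exact mul_le_mul_of_nonneg_right h2 (by positivity)
        _ ≤ ((W * T : ℕ) : ℝ) := h.hEt1
        _ = W * T := by push_cast; ring
    have h4 : (B.card : ℝ) * l ^ (2 * K + 1) * T ≤ W * T := by
      calc _ = (B.card : ℝ) * T * l ^ (2 * K + 1) := by ring
        _ ≤ _ := h3
    exact le_of_mul_le_mul_right h4 hT0
  have hRCB : ((k + 1 : ℕ) : ℝ) * B.card * ((2 * ((k + 1 : ℕ) : ℝ)) ^ (2 * (k + 1)) * (w : ℝ) ^ (2 * (k + 1))) < W := by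
    rw [← hKdef]
    have hwl : (w : ℝ) ^ (2 * K) ≤ l ^ (2 * K) := pow_le_pow_left₀ hw0.le h.hw2 _
    have h1 : (K : ℝ) * (2 * (K : ℝ)) ^ (2 * K) ≤ l / 2 := by linarith
    calc (K : ℝ) * B.card * ((2 * (K : ℝ)) ^ (2 * K) * (w : ℝ) ^ (2 * K)) =
          (B.card : ℝ) * ((K : ℝ) * (2 * (K : ℝ)) ^ (2 * K)) * (w : ℝ) ^ (2 * K) := by ring
      _ ≤ (B.card : ℝ) * (l / 2) * l ^ (2 * K) := by gcongr
      _ = (B.card : ℝ) * l ^ (2 * K + 1) / 2 := by rw [pow_succ]; ring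
      _ ≤ W / 2 := by linarith
      _ < W := by linarith
  choose b hbW hb using exists_b (k := k) hRC h.hW (by omega : 1 ≤ w) B hRCB
  -- the exceptional tuples
  have hexr : ∀ ρ : Fin k → ℕ, ∃ Ex : Finset (Fin K → ℕ), (Ex.card : ℝ) ≤ K * (2 * m₀ ^ 2 * a / τ ^ 2) * (T : ℝ) ^ (K - 1) ∧
      ((∃ m₁ : Fin k → ℕ, Ad m₁ ∧ (fun i => m₁ i % W) = ρ) → ∀ t : Fin K → ℕ, (∀ j, t j < T) → (∀ j, q / 2 + t j ≤ T) → t ∉ Ex →
        Function.Injective (fun j => (b ρ + aa ρ j) % W + W * t j) →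
        (∀ i j, Sg w ((((b ρ + aa ρ i) % W + W * t i : ℕ) : ℤ) - ((b ρ + aa ρ j) % W + W * t j : ℕ)) ≤ ε) →
        (T : ℝ) / 100 ≤ ∑ s ∈ range (q / 2), ∏ j, FFc W c ((b ρ + aa ρ j) % W) (s + t j)) := by
    intro ρ
    by_cases hρ : ∃ m₁ : Fin k → ℕ, Ad m₁ ∧ (fun i => m₁ i % W) = ρ
    · obtain ⟨m₁, hm₁, hres⟩ := hρ
      have hres2 : ∀ j, (b ρ + aa m₁ j) % W = (b ρ + aa ρ j) % W := by
        intro j
        have h1 : aa m₁ j % W = aa ρ j % W := by
          apply aa_mod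
          funext i
          have := congrFun hres i
          rw [← this]
          exact (Nat.mod_mod _ _).symm
        exact Nat.ModEq.add_left (b ρ) h1
      have hgood := hb ρ m₁ hm₁ hres
      have hrlt : ∀ j, (b ρ + aa ρ j) % W < W := fun j => Nat.mod_lt _ hWpos
      have hcls : ∀ j, ((b ρ + aa ρ j) % W).Coprime W ∧ (((b ρ + aa ρ j) % W : ℕ) : ZMod W) ∉ B := by
        intro j
        obtain ⟨g1, g2⟩ := hgood j
        rw [← hres2 j]
        refine ⟨?_, ?_⟩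
        · unfold Nat.Coprime
          rw [← Nat.gcd_rec, Nat.gcd_comm]
          exact g1
        · rw [ZMod.natCast_mod]
          exact g2
      obtain ⟨Ex, hEx1, hEx2⟩ := core hTE hMD h (E := E) (a := a) (a₁ := a₁) (τ := τ) (ε := ε) (S₀ := q / 2) hw2
        (fun j => (b ρ + aa ρ j) % W) hrlt (fun j => (hBgood _ (hrlt j) (hcls j).1 (hcls j).2).1)
        (fun j => (hBgood _ (hrlt j) (hcls j).1 (hcls j).2).2) hMB' le_rfl hτ0 (by omega) (by
          have h1 : (T : ℝ) ≤ 4 * q + 4 := by exact_mod_cast hq2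
          have h2 : (q : ℝ) ≤ 2 * ((q / 2 : ℕ) : ℝ) + 1 := by
            have : q ≤ 2 * (q / 2) + 1 := by omega
            exact_mod_cast this
          have h3 : (20 : ℝ) ≤ q := by exact_mod_cast hq20
          rw [div_le_iff₀ (by norm_num)]
          linarith) hKη hsm hδ hQT
      exact ⟨Ex, hEx1, fun _ => hEx2⟩
    · refine ⟨∅, ?_, fun h1 => absurd h1 hρ⟩
      rw [card_empty, Nat.cast_zero]
      have := h.hm0
      positivity
  choose Ex hEx1 hEx2 using hexr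
  refine ⟨w, h.hw1, ?_⟩
  set Z : Finset (Fin k → ℕ) := (Fintype.piFinset (fun _ : Fin k => Icc 1 X)).filter (fun m => Ad m ∧ (Cn m X : ℝ) < X * Real.exp (-(l / 300)) ∧
      ¬ ∃ i j : Fin (k + 1), i ≠ j ∧ (aa m i = aa m j ∨ ε < Sg w ((aa m i : ℤ) - aa m j))) with hZ
  have hcn := hCN k W (q / 4) Z b Ex _ hWpos hbW hEx1 (by
    intro m hm t ht
    rw [hZ, Finset.mem_filter, Fintype.mem_piFinset] at hm
    obtain ⟨hmX, hAd, hcnt, hsg⟩ := hm
    set ρ : Fin k → ℕ := fun i => m i % W with hρ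
    have hres2 : ∀ j, (b ρ + aa m j) % W = (b ρ + aa ρ j) % W := by
      intro j
      have h1 : aa m j % W = aa ρ j % W := by
        apply aa_mod
        funext i
        rw [hρ]
        exact (Nat.mod_mod _ _).symm
      exact Nat.ModEq.add_left (b ρ) h1
    have haaX : ∀ j, aa m j ≤ X := by
      intro j
      unfold aa
      refine Fin.cases ?_ (fun i => ?_) j
      · simp
      · simp only [Fin.cons_succ]
        exact (Finset.mem_Icc.1 (hmX i)).2
    have hdiv : ∀ j, (b ρ + aa m j) / W ≤ q + 1 := by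
      intro j
      have h1 := hbW ρ
      have h2 := haaX j
      have h3 : (b ρ + aa m j) / W ≤ (W + X) / W := Nat.div_le_div_right (by omega)
      have h4 : (W + X) / W = 1 + X / W := by
        rw [Nat.add_div_left _ hWpos]
        omega
      rw [h4] at h3
      omega
    have hrt : ∀ j, (b ρ + aa ρ j) % W + W * (t + (b ρ + aa m j) / W) = W * t + b ρ + aa m j := by
      intro j
      rw [← hres2 j]
      have h1 := Nat.div_add_mod (b ρ + aa m j) W
      rw [Nat.mul_add]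
      omega
    by_contra hcon
    have hT100 := hEx2 ρ ⟨m, hAd, rfl⟩ (fun j => t + (b ρ + aa m j) / W) (fun j => by have := hdiv j; omega)
      (fun j => by have := hdiv j; omega) hcon (by
        intro i j hij
        by_contra hne
        apply hsg
        refine ⟨i, j, hne, Or.inl ?_⟩
        simp only at hij
        rw [hrt i, hrt j] at hij
        omega) (by
        intro i j
        rw [hrt i, hrt j]
        have e : ((W * t + b ρ + aa m i : ℕ) : ℤ) - ((W * t + b ρ + aa m j : ℕ) : ℤ) = (aa m i : ℤ) - aa m j := by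
          push_cast; ring
        rw [e]
        by_cases hij : i = j
        · subst hij
          rw [sub_self]
          unfold Sg
          simpa using hε0
        · by_contra hcon2
          push Not at hcon2
          exact hsg ⟨i, j, hij, Or.inr hcon2⟩)
    have hlow := count_lower (k := k) (W := W) (S₀ := q / 2) (X := X) (b := b ρ) (t := t) hWpos h.hc0 h.hcB h.hcp h.hB1 m
      (fun j => (b ρ + aa ρ j) % W) (fun j => t + (b ρ + aa m j) / W) hrt (by
        intro s hs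
        have h1 : s + t + 1 ≤ q := by omega
        have h2 : W * (s + t + 1) ≤ W * q := Nat.mul_le_mul_left W h1
        have h3 := hbW ρ
        rw [Nat.mul_add, Nat.mul_one] at h2
        omega)
    have h1 : (T : ℝ) / 100 ≤ B₀ ^ (k + 1) * Cn m X := hT100.trans hlow
    have h2 : B₀ ^ (k + 1) ≤ Real.exp (l / 1000) := (pow_le_pow_right₀ h.hB1 (by omega)).trans h.hBD
    have h3 : B₀ ^ (k + 1) * (Cn m X : ℝ) ≤ Real.exp (l / 1000) * (X * Real.exp (-(l / 300))) := by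
      apply mul_le_mul h2 hcnt.le (Nat.cast_nonneg _) (Real.exp_pos _).le
    have h4 : 3 * (X : ℝ) * Real.exp (-(l / 700)) ≤ 100 * (Real.exp (l / 1000) * (X * Real.exp (-(l / 300)))) := by linarith
    have h5 : Real.exp (l / 1000) * (X * Real.exp (-(l / 300))) = X * Real.exp (-(l / 700)) * Real.exp (l / 1000 + -(l / 300) + l / 700) := by
      rw [Real.exp_add, Real.exp_add]
      have : Real.exp (-(l / 700)) * Real.exp (l / 700) = 1 := by rw [← Real.exp_add]; simp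
      calc Real.exp (l / 1000) * (X * Real.exp (-(l / 300))) = Real.exp (l / 1000) * (X * Real.exp (-(l / 300))) * (Real.exp (-(l / 700)) * Real.exp (l / 700)) := by
            rw [this, mul_one]
        _ = _ := by ring
    rw [h5] at h4
    have h6 : Real.exp (l / 1000 + -(l / 300) + l / 700) ≤ 1 / 1000 := by
      have h7 : l / 1000 + -(l / 300) + l / 700 ≤ -7 := by linarith
      refine (Real.exp_le_exp.2 h7).trans ?_
      rw [Real.exp_neg, ← one_div]
      apply one_div_le_one_div_of_le (by norm_num)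
      have h8 : Real.exp 7 = Real.exp 1 ^ 7 := by rw [← Real.exp_nat_mul]; norm_num
      rw [h8]
      have h9 : (2.7 : ℝ) ^ 7 ≤ Real.exp 1 ^ 7 := pow_le_pow_left₀ (by norm_num) (by have := Real.exp_one_gt_d9; linarith) 7
      refine le_trans ?_ h9
      norm_num
    have h7 : 0 < (X : ℝ) * Real.exp (-(l / 700)) := by positivity
    have h8 : (X : ℝ) * Real.exp (-(l / 700)) * Real.exp (l / 1000 + -(l / 300) + l / 700) ≤ X * Real.exp (-(l / 700)) * (1 / 1000) :=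
      mul_le_mul_of_nonneg_left h6 h7.le
    linarith)
  -- the number of exceptional vectors
  have hM : K * (2 * m₀ ^ 2 * a / τ ^ 2) * (T : ℝ) ^ (K - 1) ≤ (T : ℝ) ^ k * T * Real.exp (-(l / 200)) := by
    have hKk : K - 1 = k := by omega
    rw [hKk]
    have h1 : m₀ ^ 2 ≤ (T * Real.exp (-(l / 200))) ^ 2 := pow_le_pow_left₀ h.hm0 h.hm1 2
    have h2 : B₀ ^ (2 * K) ≤ Real.exp (l / 1000) := (pow_le_pow_right₀ h.hB1 (by omega)).trans h.hBD
    have e : (K : ℝ) * (2 * m₀ ^ 2 * a / τ ^ 2) = m₀ ^ 2 * B₀ ^ (2 * K) * (4 * K * l ^ (c₁ + 4)) / T := by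
      rw [ha, ha₁, hτ]
      field_simp
      ring
    rw [e]
    have h3 : m₀ ^ 2 * B₀ ^ (2 * K) * (4 * K * l ^ (c₁ + 4)) ≤ (T * Real.exp (-(l / 200))) ^ 2 * Real.exp (l / 1000) * Real.exp (l / 250) := by
      gcongr
    have h4 : ((T : ℝ) * Real.exp (-(l / 200))) ^ 2 * Real.exp (l / 1000) * Real.exp (l / 250) = T * (T * Real.exp (-(l / 200))) := by
      have h5 : Real.exp (-(l / 200)) * Real.exp (l / 1000) * Real.exp (l / 250) = 1 := by
        rw [← Real.exp_add, ← Real.exp_add]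
        have : -(l / 200) + l / 1000 + l / 250 = 0 := by ring
        rw [this, Real.exp_zero]
      calc ((T : ℝ) * Real.exp (-(l / 200))) ^ 2 * Real.exp (l / 1000) * Real.exp (l / 250) =
            T * (T * Real.exp (-(l / 200))) * (Real.exp (-(l / 200)) * Real.exp (l / 1000) * Real.exp (l / 250)) := by ring
        _ = _ := by rw [h5, mul_one]
    rw [h4] at h3
    have h6 : m₀ ^ 2 * B₀ ^ (2 * K) * (4 * K * l ^ (c₁ + 4)) / T ≤ T * Real.exp (-(l / 200)) := by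
      rw [div_le_iff₀ hT0]
      linarith
    calc m₀ ^ 2 * B₀ ^ (2 * K) * (4 * K * l ^ (c₁ + 4)) / T * (T : ℝ) ^ k ≤ T * Real.exp (-(l / 200)) * (T : ℝ) ^ k :=
          mul_le_mul_of_nonneg_right h6 (by positivity)
      _ = _ := by ring
  have hY : (T : ℝ) / 20 ≤ ((q / 4 : ℕ) : ℝ) := by
    have h1 : (T : ℝ) ≤ 4 * q + 4 := by exact_mod_cast hq2
    have h2 : (q : ℝ) ≤ 4 * ((q / 4 : ℕ) : ℝ) + 3 := by
      have : q ≤ 4 * (q / 4) + 3 := by omega
      exact_mod_cast this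
    have h3 : (20 : ℝ) ≤ q := by exact_mod_cast hq20
    rw [div_le_iff₀ (by norm_num)]
    linarith
  have hfin : (Z.card : ℝ) * (T / 20) ≤ (W : ℝ) ^ k * ((T : ℝ) ^ k * T * Real.exp (-(l / 200))) := by
    calc (Z.card : ℝ) * (T / 20) ≤ Z.card * ((q / 4 : ℕ) : ℝ) := mul_le_mul_of_nonneg_left hY (Nat.cast_nonneg _)
      _ ≤ _ := hcn
      _ ≤ _ := mul_le_mul_of_nonneg_left hM (by positivity)
  have hfin2 : (Z.card : ℝ) ≤ 20 * ((W * T) ^ k * Real.exp (-(l / 200))) := by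
    have h1 : (Z.card : ℝ) * T ≤ 20 * ((W * T) ^ k * Real.exp (-(l / 200))) * T := by
      rw [mul_pow]
      linarith
    exact le_of_mul_le_mul_right h1 hT0
  refine hfin2.trans ?_
  have h1 : ((W : ℝ) * T) ^ k ≤ (5 * X) ^ k := pow_le_pow_left₀ (by positivity) (by linarith) k
  have h2 : (5 * (X : ℝ)) ^ k = 5 ^ k * (X : ℝ) ^ k := mul_pow _ _ _
  rw [h2] at h1
  calc 20 * (((W : ℝ) * T) ^ k * Real.exp (-(l / 200))) ≤ 20 * ((5 ^ k * (X : ℝ) ^ k) * Real.exp (-(l / 200))) :=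
        mul_le_mul_of_nonneg_left (mul_le_mul_of_nonneg_right h1 (Real.exp_pos _).le) (by norm_num)
    _ = _ := by ring

end Pool.Agent.J4H32.MV
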