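import Pool.Agent.J4H32.MV.S4
import Pool.Agent.J4H32.MV.S5

/-!
# Project MV, part 2 (asymptotic formula at good scales), exact statements (helper32)
-/

set_option autoImplicit false

namespace Pool.Agent.J4H32.MV

open Finset MeasureTheory Filter
open Pool.Agent.J4H81.PT
open Pool.Agent.J4H81.PT.ZF (NoZ ExZ)

/-- the data at a good scale for the asymptotic formula: primes with the weight `ω`, which is one on `[X, 4 X]` -/
structure SDat2 (D : ℕ) (l : ℝ) (X w W T Q P N₁ : ℕ) (ω : ℕ → ℝ) (B₀ m₀ Et : ℝ) : Prop where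
  base : SDat (1 / 2) D l (16 * X) w W T Q P N₁ ω (fun n => nu n * ω n) B₀ m₀ Et
  one : ∀ n : ℕ, X ≤ n → n ≤ 4 * X → ω n = 1

def SD2 (D : ℕ) (l : ℝ) (X : ℕ) : Prop :=
  ∃ (w W T Q P N₁ : ℕ) (ω : ℕ → ℝ) (B₀ m₀ Et : ℝ), SDat2 D l X w W T Q P N₁ ω B₀ m₀ Et

/-- (GD2) as (GD), with `η = 1 / 2`, `y = 16 X` -/
def S_GD2 : Prop := ∀ (c₀ : ℝ) (D : ℕ), 0 < c₀ → c₀ ≤ 1 →
  ∃ A l₀ : ℝ, 1 ≤ A ∧ ∀ l : ℝ, l₀ ≤ l → NoZ c₀ l → ∀ X : ℕ, Real.exp (A * l * Real.log l) ≤ X → Real.log (16 * X + 1 : ℕ) ≤ l ^ 2 →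
    SD2 D l X

/-- the number of the residue classes modulo `p` occupied by the `a_j` -/
def nuP {K : ℕ} (a : Fin K → ℕ) (p : ℕ) : ℕ := ((univ : Finset (Fin K)).image (fun j => a j % p)).card

/-- the factor of the singular series at `p` -/
noncomputable def fac {K : ℕ} (a : Fin K → ℕ) (p : ℕ) : ℝ := (1 - (nuP a p : ℝ) / p) / (1 - 1 / (p : ℝ)) ^ K

/-- the singular series -/
noncomputable def SS {K : ℕ} (a : Fin K → ℕ) : ℝ := ∏' p : Nat.Primes, fac a p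

/-- the part at the primes up to `w` -/
noncomputable def SW {K : ℕ} (w : ℕ) (a : Fin K → ℕ) : ℝ := ∏ p ∈ (range (w + 1)).filter Nat.Prime, fac a p

/-- (TL) the primes beyond `w` contribute little to the singular series -/
def S_TL : Prop := ∀ K : ℕ, ∃ C : ℝ, 1 ≤ C ∧ ∀ (w : ℕ) (a : Fin K → ℕ) (ε : ℝ), 1 ≤ w → 0 ≤ ε → Function.Injective a →
  (∀ i j, Sg w ((a i : ℤ) - a j) ≤ ε) → C * (1 / w + ε) ≤ 1 → |SS a - SW w a| ≤ C * (1 / w + ε) * SW w a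

/-- (NV) the classes `b` with all `b + a_j` coprime to the primorial -/
def S_NV : Prop := ∀ (K w : ℕ) (a : Fin K → ℕ),
  (((range (primorial w)).filter (fun b => ∀ j, (b + a j).Coprime (primorial w))).card : ℝ) / (primorial w : ℝ) *
    ((primorial w : ℝ) / (Nat.totient (primorial w) : ℝ)) ^ K = SW w a

end Pool.Agent.J4H32.MV
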