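import Pool.Agent.J4H32.MV.Core2
import Pool.Agent.J4H32.MV.Fb
import Pool.Agent.J4H32.MV.S6

/-!
# Project MV, part 2: sums over a window and its classes (helper32)
-/

set_option autoImplicit false

namespace Pool.Agent.J4H32.MV

open Finset MeasureTheory Filter
open Pool.Agent.J4H81.PT

/-- the part of a class in `(X, 2 X]` -/
def Cl (X W b : ℕ) : Finset ℕ := (Ioc X (2 * X)).filter (fun n => n % W = b)

theorem low_class {X W b v S₀ : ℕ} (hW : 0 < W) (hb : b < W) (hv : X / W + 1 ≤ v) (hS : v + S₀ ≤ 2 * (X / W))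
    (f : ℕ → ℝ) (hf : ∀ n, 0 ≤ f n) : ∑ s ∈ range S₀, f (b + W * (s + v)) ≤ ∑ n ∈ Cl X W b, f n := by
  have hinj : Set.InjOn (fun s => b + W * (s + v)) (range S₀ : Finset ℕ) := by
    intro s _ s' _ h
    simp only at h
    have h2 := Nat.eq_of_mul_eq_mul_left hW (show W * (s + v) = W * (s' + v) by omega)
    omega
  rw [← sum_image (f := f) hinj]
  apply sum_le_sum_of_subset_of_nonneg
  · intro n hn
    rw [Finset.mem_image] at hn
    obtain ⟨s, hs, rfl⟩ := hn
    rw [Finset.mem_range] at hs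
    unfold Cl
    rw [Finset.mem_filter, Finset.mem_Ioc]
    have h1 : W * (X / W) + X % W = X := Nat.div_add_mod X W
    have h2 : X % W < W := Nat.mod_lt _ hW
    have h3 : W * (X / W + 1) ≤ W * (s + v) := Nat.mul_le_mul_left W (by omega)
    have h4 : W * (s + v + 1) ≤ W * (2 * (X / W)) := Nat.mul_le_mul_left W (by omega)
    have h5 : W * (2 * (X / W)) = 2 * (W * (X / W)) := by ring
    rw [Nat.mul_add, Nat.mul_one] at h3 h4
    refine ⟨⟨by omega, by omega⟩, ?_⟩
    rw [Nat.add_mul_mod_self_left]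
    exact Nat.mod_eq_of_lt hb
  · intro n _ _
    exact hf n

theorem upp_class {X W b v S₀ : ℕ} (hW : 0 < W) (hv : v ≤ X / W) (hS : 2 * (X / W) + 2 ≤ v + S₀)
    (f : ℕ → ℝ) (hf : ∀ n, 0 ≤ f n) : ∑ n ∈ Cl X W b, f n ≤ ∑ s ∈ range S₀, f (b + W * (s + v)) := by
  have hinj : Set.InjOn (fun s => b + W * (s + v)) (range S₀ : Finset ℕ) := by
    intro s _ s' _ h
    simp only at h
    have h2 := Nat.eq_of_mul_eq_mul_left hW (show W * (s + v) = W * (s' + v) by omega)
    omega
  rw [← sum_image (f := f) hinj]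
  apply sum_le_sum_of_subset_of_nonneg
  · intro n hn
    unfold Cl at hn
    rw [Finset.mem_filter, Finset.mem_Ioc] at hn
    obtain ⟨⟨h1, h2⟩, h3⟩ := hn
    rw [Finset.mem_image]
    have h4 : W * (n / W) + n % W = n := Nat.div_add_mod n W
    have h5 : X / W ≤ n / W := Nat.div_le_div_right h1.le
    have h6 : n / W ≤ 2 * (X / W) + 1 := by
      have h7 : n / W ≤ (2 * X) / W := Nat.div_le_div_right h2
      have h8 : (2 * X) / W < 2 * (X / W) + 2 := by
        rw [Nat.div_lt_iff_lt_mul hW]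
        have h9 : W * (X / W) + X % W = X := Nat.div_add_mod X W
        have h10 : X % W < W := Nat.mod_lt _ hW
        have h11 : (2 * (X / W) + 2) * W = 2 * (W * (X / W)) + 2 * W := by ring
        rw [h11]
        omega
      omega
    refine ⟨n / W - v, ?_, ?_⟩
    · rw [Finset.mem_range]; omega
    · have h7 : n / W - v + v = n / W := by omega
      rw [h7]
      omega
  · intro n _ _
    exact hf n

theorem sum_classes {X W : ℕ} (hW : 0 < W) (f : ℕ → ℝ) : ∑ n ∈ Ioc X (2 * X), f n = ∑ b ∈ range W, ∑ n ∈ Cl X W b, f n := by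
  unfold Cl
  rw [← sum_fiberwise_of_maps_to (g := fun n => n % W) (t := range W)]
  intro n _
  exact Finset.mem_range.2 (Nat.mod_lt _ hW)

/-- the number of primes `p` with `X < p ≤ 2 X` and all `p + m_i` prime -/
noncomputable def Cn2 {k : ℕ} (m : Fin k → ℕ) (X : ℕ) : ℕ := ((Ioc X (2 * X)).filter (fun n => ∀ j, (n + aa m j).Prime)).card

theorem aa_le {k X : ℕ} {m : Fin k → ℕ} (h : ∀ i, m i ≤ X) (j : Fin (k + 1)) : aa m j ≤ X := by
  unfold aa
  refine Fin.cases ?_ (fun i => ?_) j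
  · simp
  · simp only [Fin.cons_succ]
    exact h i

/-- from the weighted sum to the number -/
theorem conv {k X : ℕ} {m : Fin k → ℕ} (hm : ∀ i, m i ≤ X) (hX : 3 ≤ X) {ω : ℕ → ℝ} (hω : ∀ n, X ≤ n → n ≤ 3 * X → ω n = 1) {φ : ℝ} (hφ : 0 ≤ φ) :
    (φ * Real.log X) ^ (k + 1) * Cn2 m X ≤ ∑ n ∈ Ioc X (2 * X), ∏ j, (φ * (nu (n + aa m j) * ω (n + aa m j))) ∧
    ∑ n ∈ Ioc X (2 * X), ∏ j, (φ * (nu (n + aa m j) * ω (n + aa m j))) ≤ (φ * Real.log (3 * X)) ^ (k + 1) * Cn2 m X := by
  classical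
  have hX0 : (0 : ℝ) < X := by exact_mod_cast (by omega : 0 < X)
  have hlogX : 0 ≤ Real.log X := Real.log_natCast_nonneg X
  have e : ∑ n ∈ Ioc X (2 * X), ∏ j, (φ * (nu (n + aa m j) * ω (n + aa m j))) =
      ∑ n ∈ (Ioc X (2 * X)).filter (fun n => ∀ j, (n + aa m j).Prime), ∏ j, (φ * (nu (n + aa m j) * ω (n + aa m j))) := by
    rw [sum_filter]
    refine sum_congr rfl fun n _ => ?_
    split_ifs with h
    · rfl
    · push Not at h
      obtain ⟨j, hj⟩ := h
      apply prod_eq_zero (Finset.mem_univ j)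
      unfold nu
      rw [if_neg hj]
      ring
  rw [e]
  have hb : ∀ n ∈ (Ioc X (2 * X)).filter (fun n => ∀ j, (n + aa m j).Prime),
      (φ * Real.log X) ^ (k + 1) ≤ ∏ j, (φ * (nu (n + aa m j) * ω (n + aa m j))) ∧
      ∏ j, (φ * (nu (n + aa m j) * ω (n + aa m j))) ≤ (φ * Real.log (3 * X)) ^ (k + 1) := by
    intro n hn
    rw [Finset.mem_filter, Finset.mem_Ioc] at hn
    obtain ⟨⟨h1, h2⟩, hp⟩ := hn
    have hval : ∀ j, φ * (nu (n + aa m j) * ω (n + aa m j)) = φ * Real.log ((n + aa m j : ℕ) : ℝ) := by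
      intro j
      have h3 := aa_le hm j
      rw [hω _ (by omega) (by omega)]
      unfold nu
      rw [if_pos (hp j), mul_one]
    have hlo : ∀ j, Real.log X ≤ Real.log ((n + aa m j : ℕ) : ℝ) := fun j => log_nat_mono (by omega)
    have hup : ∀ j, Real.log ((n + aa m j : ℕ) : ℝ) ≤ Real.log (3 * X) := by
      intro j
      have h3 := aa_le hm j
      have h4 : Real.log ((n + aa m j : ℕ) : ℝ) ≤ Real.log ((3 * X : ℕ) : ℝ) := log_nat_mono (by omega)
      push_cast at h4 ⊢
      exact h4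
    simp_rw [hval]
    constructor
    · calc (φ * Real.log X) ^ (k + 1) = ∏ j : Fin (k + 1), (φ * Real.log X) := by rw [prod_const, card_univ, Fintype.card_fin]
        _ ≤ _ := prod_le_prod (fun j _ => by positivity) fun j _ => mul_le_mul_of_nonneg_left (hlo j) hφ
    · calc ∏ j, (φ * Real.log ((n + aa m j : ℕ) : ℝ)) ≤ ∏ j : Fin (k + 1), (φ * Real.log (3 * X)) :=
            prod_le_prod (fun j _ => mul_nonneg hφ (hlogX.trans (hlo j))) fun j _ => mul_le_mul_of_nonneg_left (hup j) hφ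
        _ = _ := by rw [prod_const, card_univ, Fintype.card_fin]
  constructor
  · calc (φ * Real.log X) ^ (k + 1) * Cn2 m X = ∑ n ∈ (Ioc X (2 * X)).filter (fun n => ∀ j, (n + aa m j).Prime), (φ * Real.log X) ^ (k + 1) := by
          rw [sum_const, nsmul_eq_mul, mul_comm]
          unfold Cn2
          rfl
      _ ≤ _ := sum_le_sum fun n hn => (hb n hn).1
  · calc ∑ n ∈ (Ioc X (2 * X)).filter (fun n => ∀ j, (n + aa m j).Prime), ∏ j, (φ * (nu (n + aa m j) * ω (n + aa m j))) ≤
          ∑ n ∈ (Ioc X (2 * X)).filter (fun n => ∀ j, (n + aa m j).Prime), (φ * Real.log (3 * X)) ^ (k + 1) := sum_le_sum fun n hn => (hb n hn).2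
      _ = _ := by
          rw [sum_const, nsmul_eq_mul, mul_comm]
          unfold Cn2
          rfl

/-- the values in a class through the functions `FFc` -/
theorem prod_FFc {k W b v s : ℕ} (c : ℕ → ℝ) (a : Fin (k + 1) → ℕ) :
    ∏ j, FFc W c ((b + a j) % W) (s + (v + (b + a j) / W)) = ∏ j, ((Nat.totient W : ℝ) / W * c (b + W * (s + v) + a j)) := by
  refine prod_congr rfl fun j _ => ?_
  unfold FFc
  have h1 : W * ((b + a j) / W) + (b + a j) % W = b + a j := Nat.div_add_mod _ W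
  have e : (b + a j) % W + W * (s + (v + (b + a j) / W)) = b + W * (s + v) + a j := by
    have : W * (s + (v + (b + a j) / W)) = W * (s + v) + W * ((b + a j) / W) := by ring
    rw [this]
    omega
  rw [e]

end Pool.Agent.J4H32.MV
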