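import Pool.Agent.J4H32.MV.G2a

/-!
# Project MV, part 2: the weighted sum over a window outside few vectors (helper32)
-/

set_option autoImplicit false

namespace Pool.Agent.J4H32.MV

open Finset MeasureTheory Filter
open Pool.Agent.J4H81.PT

open Classical in
/-- the weighted sum over the window `(X, 2 X]` is the expected one, outside few vectors -/
theorem fin4 (hTE : S_TE) (hMD : S_MD) (hMB : S_MB) (hCN : S_CN) (hNB : S_NB) {k D c₁ : ℕ} {l ε δ C : ℝ} {X X' L₁ : ℕ}
    (hD : D = 3 * (k + 1) + c₁ + 10)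
    (hPS : ∀ Q : ℕ, (Q : ℝ) ≤ Real.exp l → ∑ p ∈ (range (Q + 1)).filter Nat.Prime, 1 / (p : ℝ) ≤ C * Real.log l)
    (hc₁ : 4 ^ (k + 1) * (2 * ((k + 1 : ℕ) : ℝ) + 2) * C ≤ c₁)
    (hl4 : 10 ^ 4 ≤ l) (hl2 : 2 * (((k + 1 : ℕ) : ℝ) * (2 * ((k + 1 : ℕ) : ℝ)) ^ (2 * (k + 1))) ≤ l) (hl3 : 1000 * ((k + 1 : ℕ) : ℝ) ≤ l)
    (hε0 : 0 ≤ ε) (hδ : 2 ^ (k + 1) * (((k + 1 : ℕ) : ℝ) + 2) * (4000 / l + ((k + 1 : ℕ) : ℝ) ^ 2 * ε) ≤ δ) (hδ1 : δ ≤ 1)
    (hL1 : 10 ≤ L₁) (hL2 : (L₁ : ℝ) ≤ l)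
    (hl6 : 4 * ((k + 1 : ℕ) : ℝ) * l ^ (c₁ + 4) ≤ Real.exp (l / 250))
    (hX' : X' = 4 * X / 5)
    (hX : Real.exp ((((k + 1 : ℕ) : ℝ) + 3) * l) ≤ X)
    (hSD : SD2 D l X') :
    ∃ (w : ℕ) (ω : ℕ → ℝ), l / 2000 ≤ w ∧ (w : ℝ) ≤ l ∧ (∀ n, X ≤ n → n ≤ 3 * X → ω n = 1) ∧
      l * (primorial w : ℝ) ≤ X ∧
      (((Fintype.piFinset (fun _ : Fin k => Icc 1 X)).filter (fun m => Ad m ∧
      (¬ ∃ i j : Fin (k + 1), i ≠ j ∧ (aa m i = aa m j ∨ ε < Sg w ((aa m i : ℤ) - aa m j))) ∧
      (2 * δ + 3 / L₁ + 20 / l) * (((range (primorial w)).filter (fun b => ∀ j, (b + aa m j).Coprime (primorial w))).card * ((X / primorial w : ℕ) : ℝ)) <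
        |∑ n ∈ Ioc X (2 * X), ∏ j, ((Nat.totient (primorial w) : ℝ) / (primorial w : ℝ) * (nu (n + aa m j) * ω (n + aa m j))) -
          ((range (primorial w)).filter (fun b => ∀ j, (b + aa m j).Coprime (primorial w))).card * ((X / primorial w : ℕ) : ℝ)|)).card : ℝ) ≤
        60 * 13 ^ k * (X : ℝ) ^ k * (l * Real.exp (-(l / 280))) := by
  obtain ⟨w, W, T, Q, P, N₁, ω, B₀, m₀, Et, h2⟩ := hSD
  have h := h2.base
  have hone := h2.one
  set K : ℕ := k + 1 with hKdef
  have hK1 : (1 : ℝ) ≤ (K : ℝ) := by rw [hKdef]; push_cast; linarith [(Nat.cast_nonneg k : (0 : ℝ) ≤ k)]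
  have hK0 : (0 : ℝ) < (K : ℝ) := by linarith
  have hl0 : 0 < l := by linarith
  have hl1 : 1 ≤ l := by linarith
  have hWpr := h.hW
  have hWpos : 0 < W := by rw [h.hW]; exact primorial_pos w
  have : NeZero W := ⟨hWpos.ne'⟩
  have hW0 : (0 : ℝ) < W := by exact_mod_cast hWpos
  have hW1 : (1 : ℝ) ≤ W := by exact_mod_cast hWpos
  have hwr : 5 ≤ (w : ℝ) := by linarith [h.hw1]
  have hw2 : 2 ≤ w := by
    have : (2 : ℝ) ≤ w := by linarith
    exact_mod_cast this
  have hw0 : (0 : ℝ) < w := by linarith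
  have hX0 : (0 : ℝ) < X := lt_of_lt_of_le (Real.exp_pos _) hX
  have he1 : 10 ^ 4 ≤ Real.exp l := by
    have := Real.add_one_le_exp l
    linarith
  -- the ranges
  have hWX : W * 1000 ≤ X := by
    have h1 : (W : ℝ) * 1000 ≤ X := by
      calc (W : ℝ) * 1000 ≤ Real.exp (l / 700) * Real.exp l := by
            apply mul_le_mul h.hWl (by linarith) (by norm_num) (Real.exp_pos _).le
        _ = Real.exp (l / 700 + l) := (Real.exp_add _ _).symm
        _ ≤ Real.exp ((K + 3) * l) := by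
            apply Real.exp_le_exp.2
            nlinarith only [hK1, hl0]
        _ ≤ X := hX
    exact_mod_cast h1
  obtain ⟨hq1, hq2, hWT, h12X, hq20, hWq, hWq2⟩ := ranges2 hWpos hX' h.hT hWX
  set q : ℕ := X / W with hq
  have hq0 : (0 : ℝ) < q := by exact_mod_cast (by omega : 0 < q)
  have hTpos : 1 ≤ T := by omega
  have hT0 : (0 : ℝ) < T := by exact_mod_cast hTpos
  have h12Xr : 12 * (X : ℝ) ≤ W * T := by exact_mod_cast h12X
  have hWTr : (W : ℝ) * T ≤ 13 * X := by exact_mod_cast hWT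
  have hTq : (T : ℝ) ≤ 14 * q := by exact_mod_cast hq2
  have hX1 : (1 : ℝ) ≤ X := by
    have : 0 < X := by exact_mod_cast hX0
    exact_mod_cast this
  have hTexp : Real.exp ((K + 2) * l) ≤ T := by
    have h1 : 12 * (X : ℝ) * Real.exp (-(l / 700)) ≤ T := by
      have h1 : 12 * (X : ℝ) ≤ Real.exp (l / 700) * T := h12Xr.trans (mul_le_mul_of_nonneg_right h.hWl hT0.le)
      calc 12 * (X : ℝ) * Real.exp (-(l / 700)) ≤ Real.exp (l / 700) * T * Real.exp (-(l / 700)) :=
            mul_le_mul_of_nonneg_right h1 (Real.exp_pos _).le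
        _ = T * (Real.exp (l / 700) * Real.exp (-(l / 700))) := by ring
        _ = T := by rw [← Real.exp_add]; simp
    calc Real.exp ((K + 2) * l) ≤ Real.exp ((K + 3) * l + -(l / 700)) := Real.exp_le_exp.2 (by linarith)
      _ = Real.exp ((K + 3) * l) * Real.exp (-(l / 700)) := Real.exp_add _ _
      _ ≤ X * Real.exp (-(l / 700)) := mul_le_mul_of_nonneg_right hX (Real.exp_pos _).le
      _ ≤ 12 * X * Real.exp (-(l / 700)) := by
          apply mul_le_mul_of_nonneg_right _ (Real.exp_pos _).le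
          linarith
      _ ≤ T := h1
  -- the moments
  have hB0 : 0 < B₀ := by linarith [h.hB1]
  have hB2K : 0 < B₀ ^ (2 * K) := by positivity
  have hQel : (Q : ℝ) ≤ Real.exp l := h.hQl.trans (Real.exp_le_exp.2 (by linarith))
  have hlc1 : 1 ≤ l ^ c₁ := one_le_pow₀ hl1
  have hQpow : (Q : ℝ) ^ (4 * K) ≤ Real.exp ((K : ℝ) * l) := by
    calc (Q : ℝ) ^ (4 * K) ≤ Real.exp (l / 40) ^ (4 * K) := pow_le_pow_left₀ (Nat.cast_nonneg _) h.hQl _
      _ = Real.exp ((4 * K : ℕ) * (l / 40)) := by rw [← Real.exp_nat_mul]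
      _ ≤ Real.exp ((K : ℝ) * l) := by
          apply Real.exp_le_exp.2
          push_cast
          nlinarith only [hK0, hl0]
  have hQpow2 : (Q : ℝ) ^ (2 * K) ≤ Real.exp ((K : ℝ) * l) := by
    have hQ1 : (1 : ℝ) ≤ Q := by exact_mod_cast h.hQ1
    exact (pow_le_pow_right₀ hQ1 (by omega)).trans hQpow
  set a₁ : ℝ := 2 * l ^ c₁ * T with ha₁
  have hMB' : ∀ (C : Fin K → ℕ) (S : Finset (Fin K)), ∑ s ∈ range T, ∏ j ∈ S, GG W Q ((C j + W * s : ℕ) : ℤ) ^ 2 ≤ a₁ := by
    intro C' S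
    refine (hMB K W Q T C' S h.hQ1 hTpos).trans ?_
    have h1 : Real.exp (4 ^ K * (2 * (K : ℝ) + 2) * ∑ p ∈ (range (Q + 1)).filter Nat.Prime, 1 / (p : ℝ)) ≤ l ^ c₁ := by
      have h2 := hPS Q hQel
      have h3 : l ^ c₁ = Real.exp (c₁ * Real.log l) := by rw [Real.exp_nat_mul, Real.exp_log hl0]
      rw [h3]
      apply Real.exp_le_exp.2
      have hlog : 0 ≤ Real.log l := Real.log_nonneg hl1
      calc 4 ^ K * (2 * (K : ℝ) + 2) * ∑ p ∈ (range (Q + 1)).filter Nat.Prime, 1 / (p : ℝ) ≤ 4 ^ K * (2 * (K : ℝ) + 2) * (C * Real.log l) :=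
            mul_le_mul_of_nonneg_left h2 (by positivity)
        _ = (4 ^ K * (2 * (K : ℝ) + 2) * C) * Real.log l := by ring
        _ ≤ c₁ * Real.log l := mul_le_mul_of_nonneg_right hc₁ hlog
    have h4 : 4 * (Q : ℝ) ^ (4 * K) ≤ T := by
      calc 4 * (Q : ℝ) ^ (4 * K) ≤ Real.exp l * Real.exp ((K : ℝ) * l) := by
            apply mul_le_mul (by linarith) hQpow (by positivity) (Real.exp_pos _).le
        _ = Real.exp (l + K * l) := (Real.exp_add _ _).symm
        _ ≤ Real.exp ((K + 2) * l) := Real.exp_le_exp.2 (by linarith)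
        _ ≤ T := hTexp
    have h5 : (T : ℝ) ≤ l ^ c₁ * T := le_mul_of_one_le_left hT0.le hlc1
    have h6 := mul_le_mul_of_nonneg_right h1 hT0.le
    rw [ha₁]
    linarith
  set a : ℝ := B₀ ^ (2 * K) * a₁ with ha
  set E : ℝ := T / (B₀ ^ (2 * K) * l ^ (c₁ + 4)) with hE
  have hE0 : 0 < E := by positivity
  set τ : ℝ := T / l ^ 2 with hτ
  have hτ0 : 0 < τ := by positivity
  have hEa : E * a = 2 * (T / l ^ 2) ^ 2 := by
    rw [hE, ha, ha₁]
    field_simp
    ring
  have hsqrt : Real.sqrt (E * a) ≤ 2 * (T / l ^ 2) := by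
    rw [hEa]
    apply Real.sqrt_le_iff.2
    refine ⟨by positivity, ?_⟩
    have : 0 ≤ ((T : ℝ) / l ^ 2) ^ 2 := sq_nonneg _
    nlinarith only [this]
  have hsm : K * (Real.sqrt (E * a) + τ) ≤ q / (2 * l) := by
    have h1 : (K : ℝ) * (Real.sqrt (E * a) + τ) ≤ K * (2 * (T / l ^ 2) + T / l ^ 2) := by
      apply mul_le_mul_of_nonneg_left _ hK0.le
      rw [hτ]
      linarith
    refine h1.trans ?_
    have e : (K : ℝ) * (2 * (T / l ^ 2) + T / l ^ 2) = (3 * K * T) / l ^ 2 := by ring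
    rw [e, div_le_div_iff₀ (by positivity) (by positivity)]
    have h2 : 84 * (K : ℝ) ≤ l := by linarith
    calc 3 * K * T * (2 * l) ≤ 3 * K * (14 * q) * (2 * l) := by gcongr
      _ = (84 * (K : ℝ)) * (q * l) := by ring
      _ ≤ l * (q * l) := mul_le_mul_of_nonneg_right h2 (by positivity)
      _ = q * l ^ 2 := by ring
  have hδw : 2 ^ K * ((K : ℝ) + 2) * (2 / w + K ^ 2 * ε) ≤ δ := by
    refine le_trans ?_ hδ
    apply mul_le_mul_of_nonneg_left _ (by positivity)
    have : (2 : ℝ) / w ≤ 4000 / l := by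
      rw [div_le_div_iff₀ hw0 hl0]
      linarith [h.hw1]
    linarith
  have hδ0 : 0 ≤ δ := le_trans (by positivity) hδw
  have hQT : 2 * (Q : ℝ) ^ (2 * K) * (2 * K + 2) ≤ q / (2 * l) := by
    rw [le_div_iff₀ (by positivity)]
    have h1 : 2 * (2 * (K : ℝ) + 2) * (2 * l) * 14 ≤ Real.exp (2 * l) := by
      have h3 : l ≤ Real.exp l := by linarith [Real.add_one_le_exp l]
      have h4 : 2 * (2 * (K : ℝ) + 2) * 2 * 14 ≤ l := by linarith
      have h5 : Real.exp (2 * l) = Real.exp l * Real.exp l := by rw [two_mul, Real.exp_add]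
      rw [h5]
      calc 2 * (2 * (K : ℝ) + 2) * (2 * l) * 14 = (2 * (2 * (K : ℝ) + 2) * 2 * 14) * l := by ring
        _ ≤ l * l := mul_le_mul_of_nonneg_right h4 hl0.le
        _ ≤ Real.exp l * Real.exp l := by gcongr
    have h2 : (2 * (Q : ℝ) ^ (2 * K) * (2 * K + 2) * (2 * l)) * 14 ≤ 14 * q := by
      calc (2 * (Q : ℝ) ^ (2 * K) * (2 * K + 2) * (2 * l)) * 14 = (2 * (2 * (K : ℝ) + 2) * (2 * l) * 14) * (Q : ℝ) ^ (2 * K) := by ring
        _ ≤ Real.exp (2 * l) * Real.exp ((K : ℝ) * l) := mul_le_mul h1 hQpow2 (by positivity) (Real.exp_pos _).le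
        _ = Real.exp (2 * l + K * l) := (Real.exp_add _ _).symm
        _ ≤ Real.exp ((K + 2) * l) := Real.exp_le_exp.2 (by linarith)
        _ ≤ T := hTexp
        _ ≤ 14 * q := hTq
    linarith
  -- the classes
  obtain ⟨B, hBE, hBgood⟩ := cls h hTpos hE0
  have hBD : (B.card : ℝ) * B₀ ^ K * l ^ (2 * K + 2) ≤ W := by
    have hEt0 : 0 ≤ Et := le_trans (by positivity) hBE
    have h1 : (B.card : ℝ) * T ≤ Et * (B₀ ^ (2 * K) * l ^ (c₁ + 4)) := by
      rw [hE, mul_div_assoc', div_le_iff₀ (by positivity)] at hBE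
      exact hBE
    have h2 : B₀ ^ (3 * K) ≤ B₀ ^ D := pow_le_pow_right₀ h.hB1 (by omega)
    have h2' : l ^ (c₁ + 4 + (2 * K + 2)) ≤ l ^ D := pow_le_pow_right₀ hl1 (by omega)
    have h3 : (B.card : ℝ) * T * (B₀ ^ K * l ^ (2 * K + 2)) ≤ W * T := by
      calc (B.card : ℝ) * T * (B₀ ^ K * l ^ (2 * K + 2)) ≤ Et * (B₀ ^ (2 * K) * l ^ (c₁ + 4)) * (B₀ ^ K * l ^ (2 * K + 2)) :=
            mul_le_mul_of_nonneg_right h1 (by positivity)
        _ = Et * (B₀ ^ (3 * K) * l ^ (c₁ + 4 + (2 * K + 2))) := by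
            have e1 : B₀ ^ (3 * K) = B₀ ^ (2 * K) * B₀ ^ K := by rw [← pow_add]; congr 1; omega
            rw [e1, pow_add l]
            ring
        _ ≤ Et * (B₀ ^ D * l ^ D) := by
            apply mul_le_mul_of_nonneg_left _ hEt0
            exact mul_le_mul h2 h2' (by positivity) (by positivity)
        _ ≤ ((W * T : ℕ) : ℝ) := h.hEt1
        _ = W * T := by push_cast; ring
    have h4 : (B.card : ℝ) * B₀ ^ K * l ^ (2 * K + 2) * T ≤ W * T := by
      calc _ = (B.card : ℝ) * T * (B₀ ^ K * l ^ (2 * K + 2)) := by ring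
        _ ≤ _ := h3
    exact le_of_mul_le_mul_right h4 hT0
  -- the exceptional tuples
  set R : ℝ := 2 * (Q : ℝ) ^ (2 * K) * (2 * K + 2) + K * (Real.sqrt (E * a) + τ) with hR
  have hRl : R ≤ q / l := by
    have : (q : ℝ) / l = q / (2 * l) + q / (2 * l) := by field_simp; ring
    rw [this, hR]
    linarith
  set c : ℕ → ℝ := fun n => nu n * ω n with hc
  have hexr : ∀ (S₀ : ℕ) (b : ℕ) (ρ : Fin k → ℕ), ∃ Ex : Finset (Fin K → ℕ), (Ex.card : ℝ) ≤ K * (2 * m₀ ^ 2 * a / τ ^ 2) * (T : ℝ) ^ (K - 1) ∧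
      ((S₀ ≤ T ∧ ∃ m₁ : Fin k → ℕ, (fun i => m₁ i % W) = ρ ∧ ∀ j, (b + aa m₁ j).Coprime W ∧ ((b + aa m₁ j : ℕ) : ZMod W) ∉ B) →
        ∀ t : Fin K → ℕ, (∀ j, t j < T) → t ∉ Ex →
        Function.Injective (fun j => (b + aa ρ j) % W + W * t j) →
        (∀ i j, Sg w ((((b + aa ρ i) % W + W * t i : ℕ) : ℤ) - ((b + aa ρ j) % W + W * t j : ℕ)) ≤ ε) →
        (∀ s < S₀, ∀ j, ω ((b + aa ρ j) % W + W * (s + t j)) = 1) →
        |∑ s ∈ range S₀, ∏ j, FFc W c ((b + aa ρ j) % W) (s + t j) - S₀| ≤ 2 * δ * S₀ + R) := by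
    intro S₀ b ρ
    by_cases hρ : S₀ ≤ T ∧ ∃ m₁ : Fin k → ℕ, (fun i => m₁ i % W) = ρ ∧ ∀ j, (b + aa m₁ j).Coprime W ∧ ((b + aa m₁ j : ℕ) : ZMod W) ∉ B
    · obtain ⟨hS₀, m₁, hres, hgood⟩ := hρ
      have hres2 : ∀ j, (b + aa m₁ j) % W = (b + aa ρ j) % W := by
        intro j
        have h1 : aa m₁ j % W = aa ρ j % W := by
          apply aa_mod
          funext i
          have := congrFun hres i
          rw [← this]
          exact (Nat.mod_mod _ _).symm
        exact Nat.ModEq.add_left b h1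
      have hrlt : ∀ j, (b + aa ρ j) % W < W := fun j => Nat.mod_lt _ hWpos
      have hcls : ∀ j, ((b + aa ρ j) % W).Coprime W ∧ (((b + aa ρ j) % W : ℕ) : ZMod W) ∉ B := by
        intro j
        obtain ⟨g1, g2⟩ := hgood j
        rw [← hres2 j]
        refine ⟨?_, ?_⟩
        · unfold Nat.Coprime
          rw [← Nat.gcd_rec, Nat.gcd_comm]
          exact g1
        · rw [ZMod.natCast_mod]
          exact g2
      obtain ⟨Ex, hEx1, hEx2⟩ := core2 hTE hMD h (E := E) (a := a) (a₁ := a₁) (τ := τ) (ε := ε) (δ := δ) (S₀ := S₀) hw2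
        (fun j => (b + aa ρ j) % W) (fun j => (hBgood _ (hrlt j) (hcls j).1 (hcls j).2).1)
        (fun j => (hBgood _ (hrlt j) (hcls j).1 (hcls j).2).2) hMB' le_rfl hτ0 hS₀ hε0 hδw hδ1
      refine ⟨Ex, hEx1, fun _ t ht1 ht2 ht3 ht4 ht5 => ?_⟩
      refine (hEx2 t ht1 ht2 ht3 ht4 ht5).trans (le_of_eq ?_)
      rw [hR]
      ring
    · refine ⟨∅, ?_, fun h1 => absurd h1 hρ⟩
      rw [card_empty, Nat.cast_zero]
      have := h.hm0
      positivity
  choose Ex hEx1 hEx2 using hexr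
  set M : ℝ := K * (2 * m₀ ^ 2 * a / τ ^ 2) * (T : ℝ) ^ (K - 1) with hM
  set Y : ℕ := q / L₁ with hY
  set S₁ : ℕ := q - 1 - Y with hS₁
  set S₂ : ℕ := q + 1 + Y with hS₂
  have hL₁pos : 0 < L₁ := by omega
  have hYL : Y * L₁ ≤ q := Nat.div_mul_le_self q L₁
  have hY10 : Y * 10 ≤ q := (Nat.mul_le_mul_left Y hL1).trans hYL
  -- the two families of exceptional vectors
  set good : (Fin k → ℕ) → ℕ → Prop := fun m b => ∀ j, (b + aa m j).Coprime W ∧ ((b + aa m j : ℕ) : ZMod W) ∉ B with hgood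
  set S : Finset (Fin k → ℕ) := (Fintype.piFinset (fun _ : Fin k => Icc 1 X)).filter (fun m =>
    ¬ ∃ i j : Fin (k + 1), i ≠ j ∧ (aa m i = aa m j ∨ ε < Sg w ((aa m i : ℤ) - aa m j))) with hS
  set Z₁ : ℕ → Finset (Fin k → ℕ) := fun b => S.filter (fun m => good m b ∧
    ∀ t < Y, (fun j => (q + 1 + t) + (b + aa m j) / W) ∈ Ex S₁ b (fun i => m i % W)) with hZ₁
  set Z₂ : ℕ → Finset (Fin k → ℕ) := fun b => S.filter (fun m => good m b ∧
    ∀ t < Y, (fun j => (q + 1 - Y + t) + (b + aa m j) / W) ∈ Ex S₂ b (fun i => m i % W)) with hZ₂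
  have hcard : ∀ (v S₀ b : ℕ) (Z : Finset (Fin k → ℕ)), b < W → (∀ m ∈ Z, ∀ t < Y, (fun j => (v + t) + (b + aa m j) / W) ∈ Ex S₀ b (fun i => m i % W)) →
      (Z.card : ℝ) * Y ≤ (W : ℝ) ^ k * M := by
    intro v S₀ b Z hb hZ
    refine hCN k W Y Z (fun _ => b) (fun ρ => (Ex S₀ b ρ).image (fun t j => t j - v)) M hWpos (fun _ => hb) (fun ρ => ?_) ?_
    · refine le_trans ?_ (hEx1 S₀ b ρ)
      exact_mod_cast card_image_le
    · intro m hm t ht
      rw [Finset.mem_image]
      refine ⟨_, hZ m hm t ht, ?_⟩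
      funext j
      show (v + t) + (b + aa m j) / W - v = t + (b + aa m j) / W
      generalize (b + aa m j) / W = z
      omega
  have hZ₁c : ∀ b < W, ((Z₁ b).card : ℝ) * Y ≤ (W : ℝ) ^ k * M := by
    intro b hb
    apply hcard (q + 1) S₁ b (Z₁ b) hb
    intro m hm
    rw [hZ₁, Finset.mem_filter] at hm
    exact hm.2.2
  have hZ₂c : ∀ b < W, ((Z₂ b).card : ℝ) * Y ≤ (W : ℝ) ^ k * M := by
    intro b hb
    apply hcard (q + 1 - Y) S₂ b (Z₂ b) hb
    intro m hm
    rw [hZ₂, Finset.mem_filter] at hm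
    exact hm.2.2
  have hω3 : ∀ n, X ≤ n → n ≤ 3 * X → ω n = 1 := fun n hn1 hn2 => hone n (by omega) (by omega)
  have hlWX : l * (W : ℝ) ≤ X := by
    calc l * (W : ℝ) ≤ Real.exp l * Real.exp (l / 700) := by
          apply mul_le_mul (by linarith [Real.add_one_le_exp l]) h.hWl hW0.le (Real.exp_pos _).le
      _ = Real.exp (l + l / 700) := (Real.exp_add _ _).symm
      _ ≤ Real.exp ((K + 3) * l) := by
          apply Real.exp_le_exp.2
          nlinarith only [hK1, hl0]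
      _ ≤ X := hX
  refine ⟨w, ω, h.hw1, h.hw2, hω3, by rw [← hWpr]; exact hlWX, ?_⟩
  rw [← hWpr, ← hq]
  -- reduction to the two families
  set Bad : Finset (Fin k → ℕ) := (Fintype.piFinset (fun _ : Fin k => Icc 1 X)).filter (fun m => Ad m ∧
      (¬ ∃ i j : Fin (k + 1), i ≠ j ∧ (aa m i = aa m j ∨ ε < Sg w ((aa m i : ℤ) - aa m j))) ∧
      (2 * δ + 3 / L₁ + 20 / l) * (((range W).filter (fun b => ∀ j, (b + aa m j).Coprime W)).card * ((q : ℕ) : ℝ)) <
        |∑ n ∈ Ioc X (2 * X), ∏ j, ((Nat.totient W : ℝ) / (W : ℝ) * (nu (n + aa m j) * ω (n + aa m j))) -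
          ((range W).filter (fun b => ∀ j, (b + aa m j).Coprime W)).card * ((q : ℕ) : ℝ)|) with hBad
  have hsub : Bad ⊆ (range W).biUnion (fun b => Z₁ b ∪ Z₂ b) := by
    intro m hm
    rw [hBad, Finset.mem_filter] at hm
    obtain ⟨hmX, hAd, hsg, hbad⟩ := hm
    by_contra hcon
    have hmS : m ∈ S := by rw [hS, Finset.mem_filter]; exact ⟨hmX, hsg⟩
    have hmle : ∀ i, m i ≤ X := fun i => (Finset.mem_Icc.1 (Fintype.mem_piFinset.1 hmX i)).2
    -- the good classes
    set f : ℕ → ℝ := fun n => ∏ j, ((Nat.totient W : ℝ) / (W : ℝ) * (nu (n + aa m j) * ω (n + aa m j))) with hf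
    have hφ0 : 0 ≤ (Nat.totient W : ℝ) / W := by positivity
    have hφ1 : (Nat.totient W : ℝ) / W ≤ 1 := by
      rw [div_le_one hW0]
      exact_mod_cast Nat.totient_le W
    have hf0 : ∀ n, 0 ≤ f n := fun n => prod_nonneg fun j _ => mul_nonneg hφ0 (h.hc0 _)
    have hfB : ∀ n, f n ≤ B₀ ^ K := by
      intro n
      calc f n ≤ ∏ j : Fin (k + 1), B₀ := by
            apply prod_le_prod (fun j _ => mul_nonneg hφ0 (h.hc0 _))
            intro j _
            calc (Nat.totient W : ℝ) / (W : ℝ) * (nu (n + aa m j) * ω (n + aa m j)) ≤ 1 * (nu (n + aa m j) * ω (n + aa m j)) :=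
                  mul_le_mul_of_nonneg_right hφ1 (h.hc0 _)
              _ = nu (n + aa m j) * ω (n + aa m j) := one_mul _
              _ ≤ B₀ := h.hcB _
        _ = B₀ ^ K := by rw [prod_const, card_univ, Fintype.card_fin]
    set ρ : Fin k → ℕ := fun i => m i % W with hρ
    have hres2 : ∀ b j, (b + aa m j) % W = (b + aa ρ j) % W := by
      intro b j
      have h1 : aa m j % W = aa ρ j % W := by
        apply aa_mod
        funext i
        rw [hρ]
        exact (Nat.mod_mod _ _).symm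
      exact Nat.ModEq.add_left b h1
    have haaX : ∀ j, aa m j ≤ X := aa_le hmle
    have hdiv : ∀ b < W, ∀ j, (b + aa m j) / W ≤ q + 1 := by
      intro b hb j
      have h2 := haaX j
      have h3 : (b + aa m j) / W ≤ (W + X) / W := Nat.div_le_div_right (by omega)
      have h4 : (W + X) / W = 1 + X / W := by
        rw [Nat.add_div_left _ hWpos]
        omega
      rw [h4] at h3
      omega
    have hrt : ∀ b v j, (b + aa ρ j) % W + W * (v + (b + aa m j) / W) = W * v + b + aa m j := by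
      intro b v j
      rw [← hres2 b j]
      have h1 := Nat.div_add_mod (b + aa m j) W
      rw [Nat.mul_add]
      omega
    have hWY : W * Y * 10 ≤ X := by
      calc W * Y * 10 = W * (Y * 10) := by ring
        _ ≤ W * q := Nat.mul_le_mul_left W hY10
        _ ≤ X := hWq
    -- one class, one shift outside the exceptional set
    have hcl : ∀ b < W, good m b → ∀ (v S₀ : ℕ), S₀ ≤ q + 1 + Y → q + 1 - Y ≤ v → v ≤ q + Y → v + S₀ ≤ 2 * q + 1 + Y →
        (fun j => v + (b + aa m j) / W) ∉ Ex S₀ b ρ →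
        |∑ s ∈ range S₀, f (b + W * (s + v)) - S₀| ≤ 2 * δ * S₀ + R := by
      intro b hb hg v S₀ hS₀ hv1 hv2 hvS hnot
      have h1 := hEx2 S₀ b ρ ⟨by omega, m, rfl, hg⟩ (fun j => v + (b + aa m j) / W) (fun j => by have := hdiv b hb j; omega) hnot (by
          intro i j hij
          by_contra hne
          apply hsg
          refine ⟨i, j, hne, Or.inl ?_⟩
          simp only at hij
          rw [hrt b v i, hrt b v j] at hij
          omega) (by
          intro i j
          rw [hrt b v i, hrt b v j]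
          have e : ((W * v + b + aa m i : ℕ) : ℤ) - ((W * v + b + aa m j : ℕ) : ℤ) = (aa m i : ℤ) - aa m j := by
            push_cast; ring
          rw [e]
          by_cases hij : i = j
          · subst hij
            rw [sub_self]
            unfold Sg
            simpa using hε0
          · by_contra hcon2
            push Not at hcon2
            exact hsg ⟨i, j, hij, Or.inr hcon2⟩) (by
          intro s hs j
          have e : (b + aa ρ j) % W + W * (s + (v + (b + aa m j) / W)) = W * (s + v) + b + aa m j := by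
            have h1 := hrt b (s + v) j
            have h2 : s + (v + (b + aa m j) / W) = s + v + (b + aa m j) / W := by ring
            rw [h2]
            exact h1
          rw [e]
          apply hone
          · have h3 : W * (q + 1 - Y) ≤ W * (s + v) := Nat.mul_le_mul_left W (by omega)
            have h4 : W * (q + 1 - Y) = W * q + W - W * Y := by
              rw [Nat.mul_sub, Nat.mul_add, Nat.mul_one]
            rw [h4] at h3
            omega
          · have h3 : W * (s + v + 1) ≤ W * (2 * q + 1 + Y) := Nat.mul_le_mul_left W (by omega)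
            have h4 : W * (2 * q + 1 + Y) = 2 * (W * q) + W + W * Y := by ring
            rw [h4, Nat.mul_add, Nat.mul_one] at h3
            have := haaX j
            omega)
      have h2 : ∀ s, ∏ j, FFc W c ((b + aa ρ j) % W) (s + (v + (b + aa m j) / W)) = f (b + W * (s + v)) := by
        intro s
        have h3 := prod_FFc (k := k) (W := W) (b := b) (v := v) (s := s) c (aa m)
        rw [hf]
        simp only
        rw [← h3]
        refine prod_congr rfl fun j _ => ?_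
        rw [hres2 b j]
      simp_rw [h2] at h1
      exact h1
    have hq0' : (1 : ℝ) ≤ q := by exact_mod_cast (by omega : 1 ≤ q)
    have hYr : (Y : ℝ) ≤ q / L₁ := by
      rw [le_div_iff₀ (by exact_mod_cast hL₁pos)]
      exact_mod_cast hYL
    have hqTexp : l ≤ q := by
      have h3 : l ≤ Real.exp l := by linarith [Real.add_one_le_exp l]
      have h4 : 14 * l ≤ 14 * q := by
        calc 14 * l ≤ Real.exp l * Real.exp l := mul_le_mul (by linarith) h3 hl0.le (Real.exp_pos _).le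
          _ = Real.exp (l + l) := (Real.exp_add _ _).symm
          _ ≤ Real.exp ((K + 2) * l) := Real.exp_le_exp.2 (by nlinarith only [hK0, hl0])
          _ ≤ T := hTexp
          _ ≤ 14 * q := hTq
      linarith
    have hql : 1 ≤ (q : ℝ) / l := by rw [le_div_iff₀ hl0]; linarith
    -- lower bound in a good class
    have hlow : ∀ b < W, good m b → (1 - (2 * δ + 1 / L₁ + 3 / l)) * (q : ℝ) ≤ ∑ n ∈ Cl X W b, f n := by
      intro b hb hg
      have hne : ¬ ∀ t < Y, (fun j => (q + 1 + t) + (b + aa m j) / W) ∈ Ex S₁ b ρ := by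
        intro hall
        apply hcon
        rw [Finset.mem_biUnion]
        exact ⟨b, Finset.mem_range.2 hb, Finset.mem_union_left _ (by rw [hZ₁, Finset.mem_filter]; exact ⟨hmS, hg, hall⟩)⟩
      push Not at hne
      obtain ⟨t, ht, hnot⟩ := hne
      have h1 := hcl b hb hg (q + 1 + t) S₁ (by omega) (by omega) (by omega) (by omega) hnot
      have h2 := low_class (X := X) (W := W) (b := b) (v := q + 1 + t) (S₀ := S₁) hWpos hb (by omega) (by omega) f hf0
      have h3 := (abs_le.1 h1).1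
      have h4 : (S₁ : ℝ) = q - 1 - Y := by
        have : S₁ + 1 + Y = q := by omega
        have h5 : (S₁ : ℝ) + 1 + Y = q := by exact_mod_cast this
        linarith
      have h5 : (S₁ : ℝ) ≤ q := by rw [h4]; have := (Nat.cast_nonneg Y : (0 : ℝ) ≤ Y); linarith
      have h6 : 2 * δ * S₁ ≤ 2 * δ * q := mul_le_mul_of_nonneg_left h5 (by positivity)
      have e : (1 - (2 * δ + 1 / L₁ + 3 / l)) * (q : ℝ) = q - 2 * δ * q - q / L₁ - 3 * (q / l) := by ring
      rw [e]
      linarith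
    have hupp : ∀ b < W, good m b → ∑ n ∈ Cl X W b, f n ≤ (1 + (2 * δ + 3 / L₁ + 4 / l)) * (q : ℝ) := by
      intro b hb hg
      have hne : ¬ ∀ t < Y, (fun j => (q + 1 - Y + t) + (b + aa m j) / W) ∈ Ex S₂ b ρ := by
        intro hall
        apply hcon
        rw [Finset.mem_biUnion]
        exact ⟨b, Finset.mem_range.2 hb, Finset.mem_union_right _ (by rw [hZ₂, Finset.mem_filter]; exact ⟨hmS, hg, hall⟩)⟩
      push Not at hne
      obtain ⟨t, ht, hnot⟩ := hne
      have h1 := hcl b hb hg (q + 1 - Y + t) S₂ (by omega) (by omega) (by omega) (by omega) hnot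
      have h2 := upp_class (X := X) (W := W) (b := b) (v := q + 1 - Y + t) (S₀ := S₂) hWpos (by omega) (by omega) f hf0
      have h3 := (abs_le.1 h1).2
      have h4 : (S₂ : ℝ) = q + 1 + Y := by rw [hS₂]; push_cast; ring
      have h5 : 2 * δ * S₂ ≤ 2 * δ * q + 2 * (1 + Y) := by
        rw [h4]
        have h6 : 2 * δ * (1 + (Y : ℝ)) ≤ 2 * 1 * (1 + Y) := by
          apply mul_le_mul_of_nonneg_right _ (by positivity)
          linarith
        linarith
      have e : (1 + (2 * δ + 3 / L₁ + 4 / l)) * (q : ℝ) = q + 2 * δ * q + 3 * (q / L₁) + 4 * (q / l) := by ring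
      rw [e]
      linarith
    have hgoodb : ∀ b < W, (∀ j, (b + aa m j).Coprime W ∧ ((b + aa m j : ℕ) : ZMod W) ∉ B) →
        |∑ n ∈ Cl X W b, f n - ((X / W : ℕ) : ℝ)| ≤ (2 * δ + 3 / L₁ + 4 / l) * (q : ℝ) := by
      intro b hb hg
      rw [← hq]
      have h1 := hlow b hb hg
      have h2 := hupp b hb hg
      have h3 : (1 : ℝ) / L₁ * q ≤ 3 / L₁ * q := by
        apply mul_le_mul_of_nonneg_right _ hq0.le
        apply div_le_div_of_nonneg_right (by norm_num) (Nat.cast_nonneg _)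
      have h4 : (3 : ℝ) / l * q ≤ 4 / l * q := by
        apply mul_le_mul_of_nonneg_right _ hq0.le
        apply div_le_div_of_nonneg_right (by norm_num) hl0.le
      rw [abs_le]
      constructor <;> linarith
    have hfp : ∀ n, f n ≠ 0 → ∀ j, (n + aa m j).Prime := by
      intro n hn j
      by_contra hp
      apply hn
      rw [hf]
      apply prod_eq_zero (Finset.mem_univ j)
      unfold nu
      rw [if_neg hp]
      ring
    have hwX : w ≤ X := by
      have h1 : (w : ℝ) ≤ X := by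
        calc (w : ℝ) ≤ l := h.hw2
          _ ≤ Real.exp l := by linarith [Real.add_one_le_exp l]
          _ ≤ Real.exp ((K + 3) * l) := Real.exp_le_exp.2 (by nlinarith only [hK0, hl0])
          _ ≤ X := hX
      exact_mod_cast h1
    have hagg := agg (k := k) hWpr hwX (by omega) B (aa m) f hf0 (B₁ := B₀ ^ K) hfB (one_le_pow₀ h.hB1) hfp
      (β := (2 * δ + 3 / L₁ + 4 / l) * (q : ℝ)) (by positivity) hgoodb
    rw [← hq] at hagg
    set V : ℝ := (((range W).filter (fun b => ∀ j, (b + aa m j).Coprime W)).card : ℝ) with hV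
    have hNB' : (W : ℝ) ≤ ((2 * K : ℝ) ^ (2 * K) * (w : ℝ) ^ (2 * K)) * V := by
      have h1 := hNB K w (aa m) (by omega) (by omega) hAd
      rw [← hWpr] at h1
      exact h1
    have hKB : (K : ℝ) * B.card * (2 * (q : ℝ) * B₀ ^ K) ≤ V * q / l := by
      have hlK : 0 < l ^ (2 * K) := by positivity
      have h1 : (B.card : ℝ) * B₀ ^ K * l ^ 2 * l ^ (2 * K) ≤ (2 * (K : ℝ)) ^ (2 * K) * V * l ^ (2 * K) := by
        calc (B.card : ℝ) * B₀ ^ K * l ^ 2 * l ^ (2 * K) = (B.card : ℝ) * B₀ ^ K * l ^ (2 * K + 2) := by rw [pow_add]; ring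
          _ ≤ W := hBD
          _ ≤ ((2 * K : ℝ) ^ (2 * K) * (w : ℝ) ^ (2 * K)) * V := hNB'
          _ ≤ ((2 * K : ℝ) ^ (2 * K) * l ^ (2 * K)) * V := by
              apply mul_le_mul_of_nonneg_right _ (Nat.cast_nonneg _)
              apply mul_le_mul_of_nonneg_left _ (by positivity)
              exact pow_le_pow_left₀ hw0.le h.hw2 _
          _ = _ := by ring
      have h2 : (B.card : ℝ) * B₀ ^ K * l ^ 2 ≤ (2 * (K : ℝ)) ^ (2 * K) * V := le_of_mul_le_mul_right h1 hlK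
      rw [le_div_iff₀ hl0]
      have h3 : (K : ℝ) * B.card * (2 * (q : ℝ) * B₀ ^ K) * l * l ≤ V * q * l := by
        calc (K : ℝ) * B.card * (2 * (q : ℝ) * B₀ ^ K) * l * l = 2 * K * q * ((B.card : ℝ) * B₀ ^ K * l ^ 2) := by ring
          _ ≤ 2 * K * q * ((2 * (K : ℝ)) ^ (2 * K) * V) := mul_le_mul_of_nonneg_left h2 (by positivity)
          _ = (2 * ((K : ℝ) * (2 * (K : ℝ)) ^ (2 * K))) * (V * q) := by ring
          _ ≤ l * (V * q) := by
              apply mul_le_mul_of_nonneg_right _ (by positivity)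
              rw [hKdef] at *
              exact hl2
          _ = _ := by ring
      exact le_of_mul_le_mul_right h3 hl0
    have hfin : |∑ n ∈ Ioc X (2 * X), f n - V * q| ≤ (2 * δ + 3 / L₁ + 20 / l) * (V * q) := by
      refine hagg.trans ?_
      have e : (2 * δ + 3 / L₁ + 20 / l) * (V * q) = (2 * δ + 3 / L₁ + 4 / l) * (q : ℝ) * V + V * q / l + 15 * (V * q / l) := by ring
      rw [e]
      have : 0 ≤ V * q / l := by positivity
      linarith
    exact absurd hfin (not_le.2 hbad)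
  -- the number
  have hM1 : M ≤ (T : ℝ) ^ k * T * Real.exp (-(l / 200)) := by
    have hKk : K - 1 = k := by omega
    rw [hM, hKk]
    have h1 : m₀ ^ 2 ≤ (T * Real.exp (-(l / 200))) ^ 2 := pow_le_pow_left₀ h.hm0 h.hm1 2
    have h2 : B₀ ^ (2 * K) ≤ Real.exp (l / 1000) := (pow_le_pow_right₀ h.hB1 (by omega)).trans h.hBD
    have e : (K : ℝ) * (2 * m₀ ^ 2 * a / τ ^ 2) = m₀ ^ 2 * B₀ ^ (2 * K) * (4 * K * l ^ (c₁ + 4)) / T := by
      rw [ha, ha₁, hτ]
      field_simp
      ring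
    rw [e]
    have h3 : m₀ ^ 2 * B₀ ^ (2 * K) * (4 * K * l ^ (c₁ + 4)) ≤ (T * Real.exp (-(l / 200))) ^ 2 * Real.exp (l / 1000) * Real.exp (l / 250) := by
      gcongr
    have h4 : ((T : ℝ) * Real.exp (-(l / 200))) ^ 2 * Real.exp (l / 1000) * Real.exp (l / 250) = T * (T * Real.exp (-(l / 200))) := by
      have h5 : Real.exp (-(l / 200)) * Real.exp (l / 1000) * Real.exp (l / 250) = 1 := by
        rw [← Real.exp_add, ← Real.exp_add]
        have : -(l / 200) + l / 1000 + l / 250 = 0 := by ring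
        rw [this, Real.exp_zero]
      calc ((T : ℝ) * Real.exp (-(l / 200))) ^ 2 * Real.exp (l / 1000) * Real.exp (l / 250) =
            T * (T * Real.exp (-(l / 200))) * (Real.exp (-(l / 200)) * Real.exp (l / 1000) * Real.exp (l / 250)) := by ring
        _ = _ := by rw [h5, mul_one]
    rw [h4] at h3
    have h6 : m₀ ^ 2 * B₀ ^ (2 * K) * (4 * K * l ^ (c₁ + 4)) / T ≤ T * Real.exp (-(l / 200)) := by
      rw [div_le_iff₀ hT0]
      linarith
    calc m₀ ^ 2 * B₀ ^ (2 * K) * (4 * K * l ^ (c₁ + 4)) / T * (T : ℝ) ^ k ≤ T * Real.exp (-(l / 200)) * (T : ℝ) ^ k :=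
          mul_le_mul_of_nonneg_right h6 (by positivity)
      _ = _ := by ring
  have hcardBad : (Bad.card : ℝ) * Y ≤ 2 * W * ((W : ℝ) ^ k * M) := by
    have h1 : (Bad.card : ℝ) ≤ ∑ b ∈ range W, (((Z₁ b).card : ℝ) + (Z₂ b).card) := by
      have h2 : Bad.card ≤ ∑ b ∈ range W, (Z₁ b ∪ Z₂ b).card := (card_le_card hsub).trans card_biUnion_le
      have h3 : ∑ b ∈ range W, (Z₁ b ∪ Z₂ b).card ≤ ∑ b ∈ range W, ((Z₁ b).card + (Z₂ b).card) := sum_le_sum fun b _ => card_union_le _ _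
      exact_mod_cast h2.trans h3
    calc (Bad.card : ℝ) * Y ≤ (∑ b ∈ range W, (((Z₁ b).card : ℝ) + (Z₂ b).card)) * Y := mul_le_mul_of_nonneg_right h1 (Nat.cast_nonneg _)
      _ = ∑ b ∈ range W, (((Z₁ b).card : ℝ) * Y + (Z₂ b).card * Y) := by
          rw [sum_mul]
          refine sum_congr rfl fun b _ => ?_
          ring
      _ ≤ ∑ b ∈ range W, ((W : ℝ) ^ k * M + (W : ℝ) ^ k * M) := sum_le_sum fun b hb =>
          add_le_add (hZ₁c b (Finset.mem_range.1 hb)) (hZ₂c b (Finset.mem_range.1 hb))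
      _ = _ := by rw [sum_const, card_range, nsmul_eq_mul]; ring
  have hYT : (T : ℝ) / (28 * l) ≤ Y := by
    have h1 : 2 * l ≤ q := by
      have h3 : l ≤ Real.exp l := by linarith [Real.add_one_le_exp l]
      have h4 : 28 * l ≤ 14 * q := by
        calc 28 * l ≤ Real.exp l * Real.exp l := mul_le_mul (by linarith) h3 hl0.le (Real.exp_pos _).le
          _ = Real.exp (l + l) := (Real.exp_add _ _).symm
          _ ≤ Real.exp ((K + 2) * l) := Real.exp_le_exp.2 (by nlinarith only [hK0, hl0])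
          _ ≤ T := hTexp
          _ ≤ 14 * q := hTq
      linarith
    have hL0 : (0 : ℝ) < L₁ := by exact_mod_cast hL₁pos
    have h2 : (q : ℝ) < (Y + 1) * L₁ := by
      have h3 : q < (Y + 1) * L₁ := by
        rw [hY, mul_comm]
        have := Nat.lt_mul_div_succ q hL₁pos
        exact this
      exact_mod_cast h3
    rw [div_le_iff₀ (by positivity)]
    have h3 : (q : ℝ) ≤ 2 * (Y * L₁) := by linarith
    calc (T : ℝ) ≤ 14 * q := hTq
      _ ≤ 14 * (2 * (Y * L₁)) := by linarith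
      _ ≤ 14 * (2 * (Y * l)) := by gcongr
      _ = Y * (28 * l) := by ring
  have hfin2 : (Bad.card : ℝ) * T ≤ (56 * l * W * ((W * T) ^ k * Real.exp (-(l / 200)))) * T := by
    have h1 : (Bad.card : ℝ) * (T / (28 * l)) ≤ 2 * W * ((W : ℝ) ^ k * ((T : ℝ) ^ k * T * Real.exp (-(l / 200)))) := by
      calc (Bad.card : ℝ) * (T / (28 * l)) ≤ Bad.card * Y := mul_le_mul_of_nonneg_left hYT (Nat.cast_nonneg _)
        _ ≤ _ := hcardBad
        _ ≤ _ := by gcongr
    have h2 : (Bad.card : ℝ) * T = (Bad.card : ℝ) * (T / (28 * l)) * (28 * l) := by field_simp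
    rw [h2, mul_pow]
    calc (Bad.card : ℝ) * (T / (28 * l)) * (28 * l) ≤ 2 * W * ((W : ℝ) ^ k * ((T : ℝ) ^ k * T * Real.exp (-(l / 200)))) * (28 * l) :=
          mul_le_mul_of_nonneg_right h1 (by positivity)
      _ = _ := by ring
  have hfin3 : (Bad.card : ℝ) ≤ 56 * l * W * ((W * T) ^ k * Real.exp (-(l / 200))) := le_of_mul_le_mul_right hfin2 hT0
  refine hfin3.trans ?_
  have h1 : ((W : ℝ) * T) ^ k ≤ (13 * X) ^ k := pow_le_pow_left₀ (by positivity) hWTr k
  rw [mul_pow (13 : ℝ)] at h1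
  have h2 : Real.exp (l / 700) * Real.exp (-(l / 200)) = Real.exp (-(l / 280)) := by
    rw [← Real.exp_add]
    congr 1
    ring
  calc 56 * l * W * (((W : ℝ) * T) ^ k * Real.exp (-(l / 200))) ≤ 56 * l * Real.exp (l / 700) * ((13 ^ k * (X : ℝ) ^ k) * Real.exp (-(l / 200))) := by
        apply mul_le_mul _ (mul_le_mul_of_nonneg_right h1 (Real.exp_pos _).le) (by positivity) (by positivity)
        exact mul_le_mul_of_nonneg_left h.hWl (by positivity)
    _ = 56 * 13 ^ k * (X : ℝ) ^ k * (l * (Real.exp (l / 700) * Real.exp (-(l / 200)))) := by ring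
    _ = 56 * 13 ^ k * (X : ℝ) ^ k * (l * Real.exp (-(l / 280))) := by rw [h2]
    _ ≤ 60 * 13 ^ k * (X : ℝ) ^ k * (l * Real.exp (-(l / 280))) := by
        apply mul_le_mul_of_nonneg_right _ (by positivity)
        apply mul_le_mul_of_nonneg_right _ (by positivity)
        apply mul_le_mul_of_nonneg_right _ (by positivity)
        norm_num

end Pool.Agent.J4H32.MV
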