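import Pool.Agent.J4H32.MV.G1

/-!
# Project MV, part 2: integer arithmetic, classes and their sum (helper32)
-/

set_option autoImplicit false

namespace Pool.Agent.J4H32.MV

open Finset MeasureTheory Filter
open Pool.Agent.J4H81.PT

/-- integer arithmetic of the ranges -/
theorem ranges2 {X X' W T : ℕ} (hW : 0 < W) (hX' : X' = 4 * X / 5) (hT : T = (16 * X' + 1) / W) (hWX : W * 1000 ≤ X) :
    12 * (X / W) ≤ T ∧ T ≤ 14 * (X / W) ∧ W * T ≤ 13 * X ∧ 12 * X ≤ W * T ∧ 1000 ≤ X / W ∧ W * (X / W) ≤ X ∧ X < W * (X / W) + W := by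
  have h1 : W * (X / W) + X % W = X := Nat.div_add_mod X W
  have h2 : X % W < W := Nat.mod_lt _ hW
  have h3 : W * T + (16 * X' + 1) % W = 16 * X' + 1 := by rw [hT]; exact Nat.div_add_mod _ W
  have h4 : (16 * X' + 1) % W < W := Nat.mod_lt _ hW
  have h5 : 1000 ≤ X / W := (Nat.le_div_iff_mul_le hW).2 (by linarith)
  have h6 : W * T ≤ 13 * X := by omega
  have h7 : 12 * X ≤ W * T := by omega
  refine ⟨?_, ?_, h6, h7, h5, by omega, by omega⟩
  · have h8 : W * (12 * (X / W)) ≤ W * T := by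
      have : W * (12 * (X / W)) = 12 * (W * (X / W)) := by ring
      rw [this]
      omega
    exact Nat.le_of_mul_le_mul_left h8 hW
  · have h8 : W * T < W * (13 * (X / W) + 13) := by
      have : W * (13 * (X / W) + 13) = 13 * (W * (X / W)) + 13 * W := by ring
      rw [this]
      omega
    have := Nat.lt_of_mul_lt_mul_left h8
    omega

/-- few classes are hit by a shifted vector -/
theorem hit_card {k W : ℕ} [NeZero W] (B : Finset (ZMod W)) (a : Fin (k + 1) → ℕ) :
    (((range W).filter (fun b => ∃ j, ((b + a j : ℕ) : ZMod W) ∈ B)).card : ℝ) ≤ ((k + 1 : ℕ) : ℝ) * B.card := by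
  classical
  have h1 : (range W).filter (fun b => ∃ j, ((b + a j : ℕ) : ZMod W) ∈ B) ⊆
      (univ : Finset (Fin (k + 1))).biUnion (fun j => (range W).filter (fun b => ((b + a j : ℕ) : ZMod W) ∈ B)) := by
    intro b hb
    rw [Finset.mem_filter] at hb
    obtain ⟨hb1, j, hj⟩ := hb
    rw [Finset.mem_biUnion]
    exact ⟨j, Finset.mem_univ j, Finset.mem_filter.2 ⟨hb1, hj⟩⟩
  have h2 : ∀ j, ((range W).filter (fun b => ((b + a j : ℕ) : ZMod W) ∈ B)).card ≤ B.card := by
    intro j
    apply card_le_card_of_injOn (fun b => ((b + a j : ℕ) : ZMod W))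
    · intro b hb
      rw [Finset.mem_coe, Finset.mem_filter] at hb
      exact hb.2
    · intro b hb b' hb' h
      rw [Finset.mem_coe, Finset.mem_filter, Finset.mem_range] at hb hb'
      simp only at h
      have h3 : b + a j ≡ b' + a j [MOD W] := (ZMod.natCast_eq_natCast_iff _ _ _).1 h
      have h4 : b ≡ b' [MOD W] := Nat.ModEq.add_right_cancel' _ h3
      have h5 := h4
      unfold Nat.ModEq at h5
      rwa [Nat.mod_eq_of_lt hb.1, Nat.mod_eq_of_lt hb'.1] at h5
  have h3 := (card_le_card h1).trans (card_biUnion_le.trans (sum_le_sum fun j _ => h2 j))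
  rw [sum_const, card_univ, Fintype.card_fin, smul_eq_mul] at h3
  exact_mod_cast h3

/-- the number of the elements of a class -/
theorem Cl_card {X W b : ℕ} (hW : 0 < W) : ((Cl X W b).card : ℝ) ≤ ((X / W : ℕ) : ℝ) + 2 := by
  have h := upp_class (X := X) (W := W) (b := b) (v := X / W) (S₀ := X / W + 2) hW le_rfl (by omega) (fun _ => 1) (fun _ => by norm_num)
  rw [sum_const, sum_const, card_range, nsmul_eq_mul, nsmul_eq_mul, mul_one, mul_one] at h
  push_cast at h
  exact h

/-- a prime not coprime to the primorial is at most `w` -/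
theorem prime_not_cop {w p : ℕ} (hp : p.Prime) (h : ¬ p.Coprime (primorial w)) : p ≤ w := by
  have h1 : p ∣ primorial w := by
    by_contra hcon
    exact h ((Nat.Prime.coprime_iff_not_dvd hp).2 hcon)
  unfold primorial at h1
  rw [Prime.dvd_finset_prod_iff hp.prime] at h1
  obtain ⟨q, hq, hpq⟩ := h1
  rw [Finset.mem_filter, Finset.mem_range] at hq
  have := (Nat.prime_dvd_prime_iff_eq hp hq.2).1 hpq
  omega

open Classical in
/-- the sum over the window from the sums over the good classes -/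
theorem agg {k X W w : ℕ} [NeZero W] (hWpr : W = primorial w) (hwX : w ≤ X) (hq2 : 2 ≤ X / W) (B : Finset (ZMod W)) (a : Fin (k + 1) → ℕ)
    (f : ℕ → ℝ) (hf0 : ∀ n, 0 ≤ f n) {B₁ : ℝ} (hfB : ∀ n, f n ≤ B₁) (hB1 : 1 ≤ B₁) (hfp : ∀ n, f n ≠ 0 → ∀ j, (n + a j).Prime) {β : ℝ} (hβ : 0 ≤ β)
    (hgood : ∀ b < W, (∀ j, (b + a j).Coprime W ∧ ((b + a j : ℕ) : ZMod W) ∉ B) → |∑ n ∈ Cl X W b, f n - ((X / W : ℕ) : ℝ)| ≤ β) :
    |∑ n ∈ Ioc X (2 * X), f n - (((range W).filter (fun b => ∀ j, (b + a j).Coprime W)).card : ℝ) * ((X / W : ℕ) : ℝ)| ≤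
      β * ((range W).filter (fun b => ∀ j, (b + a j).Coprime W)).card + ((k + 1 : ℕ) : ℝ) * B.card * (2 * ((X / W : ℕ) : ℝ) * B₁) := by
  have hWpos : 0 < W := by rw [hWpr]; exact primorial_pos w
  set q : ℝ := ((X / W : ℕ) : ℝ) with hq
  have hq2r : 2 ≤ q := by rw [hq]; exact_mod_cast hq2
  set V : Finset ℕ := (range W).filter (fun b => ∀ j, (b + a j).Coprime W) with hV
  have hV0 : ∀ b ∈ range W, b ∉ V → ∑ n ∈ Cl X W b, f n = 0 := by
    intro b hb hbV
    apply sum_eq_zero
    intro n hn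
    by_contra hne
    have hp := hfp n hne
    apply hbV
    rw [hV, Finset.mem_filter]
    refine ⟨hb, fun j => ?_⟩
    unfold Cl at hn
    rw [Finset.mem_filter, Finset.mem_Ioc] at hn
    obtain ⟨⟨hn1, hn2⟩, hn3⟩ := hn
    by_contra hcop
    have h1 : ¬ (n + a j).Coprime W := by
      intro h2
      apply hcop
      have h3 : (b + a j) % W = (n + a j) % W := by
        have h4 : b ≡ n [MOD W] := by
          unfold Nat.ModEq
          rw [← hn3]
          exact Nat.mod_mod _ _
        exact Nat.ModEq.add_right (a j) h4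
      unfold Nat.Coprime at h2 ⊢
      rw [Nat.gcd_comm, Nat.gcd_rec, h3, ← Nat.gcd_rec, Nat.gcd_comm]
      exact h2
    rw [hWpr] at h1
    have := prime_not_cop (hp j) h1
    omega
  have hsumV : ∑ n ∈ Ioc X (2 * X), f n = ∑ b ∈ V, ∑ n ∈ Cl X W b, f n := by
    rw [sum_classes hWpos]
    symm
    apply sum_subset
    · rw [hV]; exact filter_subset _ _
    · exact hV0
  have e : ∑ n ∈ Ioc X (2 * X), f n - (V.card : ℝ) * q = ∑ b ∈ V, (∑ n ∈ Cl X W b, f n - q) := by
    rw [hsumV, sum_sub_distrib, sum_const, nsmul_eq_mul]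
  rw [e]
  refine (abs_sum_le_sum_abs _ _).trans ?_
  set H : Finset ℕ := (range W).filter (fun b => ∃ j, ((b + a j : ℕ) : ZMod W) ∈ B) with hH
  have hterm : ∀ b ∈ V, |∑ n ∈ Cl X W b, f n - q| ≤ β + (if b ∈ H then 2 * q * B₁ else 0) := by
    intro b hb
    rw [hV, Finset.mem_filter, Finset.mem_range] at hb
    split_ifs with hbH
    · have h1 : ∑ n ∈ Cl X W b, f n ≤ (q + 2) * B₁ := by
        calc ∑ n ∈ Cl X W b, f n ≤ ∑ n ∈ Cl X W b, B₁ := sum_le_sum fun n _ => hfB n
          _ = (Cl X W b).card * B₁ := by rw [sum_const, nsmul_eq_mul]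
          _ ≤ (q + 2) * B₁ := mul_le_mul_of_nonneg_right (Cl_card hWpos) (by linarith)
      have h2 : 0 ≤ ∑ n ∈ Cl X W b, f n := sum_nonneg fun n _ => hf0 n
      have h3 : (q + 2) * B₁ ≤ 2 * q * B₁ := mul_le_mul_of_nonneg_right (by linarith) (by linarith)
      have h4 : q ≤ 2 * q * B₁ := by nlinarith
      rw [abs_le]
      constructor <;> linarith
    · rw [add_zero]
      apply hgood b hb.1
      intro j
      refine ⟨hb.2 j, fun hcon => hbH ?_⟩
      rw [hH, Finset.mem_filter, Finset.mem_range]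
      exact ⟨hb.1, j, hcon⟩
  refine (sum_le_sum hterm).trans ?_
  rw [sum_add_distrib, sum_const, nsmul_eq_mul, mul_comm (V.card : ℝ)]
  have hnn : 0 ≤ 2 * q * B₁ := by positivity
  have h1 : ∑ b ∈ V, (if b ∈ H then 2 * q * B₁ else 0) ≤ ((k + 1 : ℕ) : ℝ) * B.card * (2 * q * B₁) := by
    calc ∑ b ∈ V, (if b ∈ H then 2 * q * B₁ else 0) ≤ ∑ b ∈ range W, (if b ∈ H then 2 * q * B₁ else 0) := by
          apply sum_le_sum_of_subset_of_nonneg
          · rw [hV]; exact filter_subset _ _
          · intro b _ _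
            split_ifs
            · exact hnn
            · exact le_rfl
      _ = ∑ b ∈ H, 2 * q * B₁ := by
          rw [← sum_filter]
          congr 1
          rw [hH]
          ext b
          simp only [Finset.mem_filter, Finset.mem_range]
          tauto
      _ = H.card * (2 * q * B₁) := by rw [sum_const, nsmul_eq_mul]
      _ ≤ _ := mul_le_mul_of_nonneg_right (hit_card B a) hnn
  linarith

end Pool.Agent.J4H32.MV
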