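import Pool.Agent.J4H32.MV.S6

/-!
# Project MV, part 2: the algebra of the last step, eventual inequalities (helper32)
-/

set_option autoImplicit false

namespace Pool.Agent.J4H32.MV

open Finset Filter

theorem an {K : ℕ} {x W q V N F φ L L3 β γ ζ θ sw ss : ℝ} (hx : 0 ≤ x) (hq : 0 ≤ q) (hN : 0 ≤ N) (hφ : 0 < φ) (hL : 0 < L)
    (hsw : 0 ≤ sw) (hβ0 : 0 ≤ β) (hβ1 : β ≤ 1) (hγ1 : γ ≤ 1 / 2) (hζ0 : 0 ≤ ζ) (hθ0 : 0 ≤ θ)
    (h1 : |F - V * q| ≤ β * (V * q)) (h2 : (φ * L) ^ K * N ≤ F) (h3 : F ≤ (φ * L3) ^ K * N) (hV : V = sw * (W * φ ^ K))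
    (h5 : |ss - sw| ≤ γ * sw) (h6 : W * q ≤ x) (h7 : (1 - ζ) * x ≤ W * q) (h8 : L3 ^ K ≤ (1 + θ) * L ^ K) :
    |N - ss * x / L ^ K| ≤ 2 * (β + γ + ζ + θ) * (ss * x / L ^ K) := by
  have hLK : 0 < L ^ K := by positivity
  have hφK : 0 < φ ^ K := by positivity
  have hVq : V * q = φ ^ K * (sw * (W * q)) := by rw [hV]; ring
  have h1' := abs_le.1 h1
  set M : ℝ := sw * x / L ^ K with hM
  have hM0 : 0 ≤ M := by positivity
  -- upper bound
  have hup : N ≤ (1 + β) * M := by
    have h9 : φ ^ K * (L ^ K * N) ≤ φ ^ K * ((1 + β) * (sw * x)) := by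
      calc φ ^ K * (L ^ K * N) = (φ * L) ^ K * N := by rw [mul_pow]; ring
        _ ≤ F := h2
        _ ≤ (1 + β) * (V * q) := by linarith [h1'.2]
        _ = φ ^ K * ((1 + β) * (sw * (W * q))) := by rw [hVq]; ring
        _ ≤ φ ^ K * ((1 + β) * (sw * x)) := by
            apply mul_le_mul_of_nonneg_left _ hφK.le
            apply mul_le_mul_of_nonneg_left _ (by linarith)
            exact mul_le_mul_of_nonneg_left h6 hsw
    have h10 := le_of_mul_le_mul_left h9 hφK
    have e : (1 + β) * M = ((1 + β) * (sw * x)) / L ^ K := by rw [hM]; ring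
    rw [e, le_div_iff₀ hLK]
    linarith
  have hlo : (1 - β - ζ - θ) * M ≤ N := by
    have h9 : φ ^ K * ((1 - β) * ((1 - ζ) * (sw * x))) ≤ φ ^ K * ((1 + θ) * (L ^ K * N)) := by
      calc φ ^ K * ((1 - β) * ((1 - ζ) * (sw * x))) = φ ^ K * ((1 - β) * (sw * ((1 - ζ) * x))) := by ring
        _ ≤ φ ^ K * ((1 - β) * (sw * (W * q))) := by
            apply mul_le_mul_of_nonneg_left _ hφK.le
            apply mul_le_mul_of_nonneg_left _ (by linarith)
            exact mul_le_mul_of_nonneg_left h7 hsw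
        _ = (1 - β) * (V * q) := by rw [hVq]; ring
        _ ≤ F := by linarith [h1'.1]
        _ ≤ (φ * L3) ^ K * N := h3
        _ = φ ^ K * (L3 ^ K * N) := by rw [mul_pow]; ring
        _ ≤ φ ^ K * ((1 + θ) * L ^ K * N) := by
            apply mul_le_mul_of_nonneg_left _ hφK.le
            exact mul_le_mul_of_nonneg_right h8 hN
        _ = _ := by ring
    have h10 := le_of_mul_le_mul_left h9 hφK
    have h11 : (1 - β - ζ - θ) * (1 + θ) ≤ (1 - β) * (1 - ζ) := by
      have : 0 ≤ θ * (β + ζ + θ) := by positivity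
      have h12 : 0 ≤ β * ζ := by positivity
      nlinarith
    have h13 : ((1 - β - ζ - θ) * (1 + θ)) * (sw * x) ≤ ((1 - β) * (1 - ζ)) * (sw * x) := mul_le_mul_of_nonneg_right h11 (by positivity)
    have h14 : (1 + θ) * ((1 - β - ζ - θ) * (sw * x)) ≤ (1 + θ) * (L ^ K * N) := by linarith
    have h15 := le_of_mul_le_mul_left h14 (by linarith)
    have e : (1 - β - ζ - θ) * M = ((1 - β - ζ - θ) * (sw * x)) / L ^ K := by rw [hM]; ring
    rw [e, div_le_iff₀ hLK]
    linarith
  have h5' := abs_le.1 h5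
  set M' : ℝ := ss * x / L ^ K with hM'
  have hxL : 0 ≤ x / L ^ K := by positivity
  have e1 : M' = ss * (x / L ^ K) := by rw [hM']; ring
  have e2 : M = sw * (x / L ^ K) := by rw [hM]; ring
  have h9 : M' - M ≤ γ * M := by
    rw [e1, e2]
    have := mul_le_mul_of_nonneg_right h5'.2 hxL
    linarith
  have h10 : -(γ * M) ≤ M' - M := by
    rw [e1, e2]
    have := mul_le_mul_of_nonneg_right h5'.1 hxL
    linarith
  have hγM : γ * M ≤ 1 / 2 * M := mul_le_mul_of_nonneg_right hγ1 hM0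
  have hMM' : M ≤ 2 * M' := by linarith
  have hγ0 : 0 ≤ γ * M := by linarith
  have h11 : (β + γ + ζ + θ) * M ≤ (β + γ + ζ + θ) * (2 * M') := by
    by_cases hM00 : M = 0
    · have hM'0 : M' = 0 := by
        rw [hM00] at h9 h10
        linarith
      rw [hM00, hM'0]
      simp
    · have hMpos : 0 < M := lt_of_le_of_ne hM0 (Ne.symm hM00)
      have hγ : 0 ≤ γ := by
        by_contra hcon
        push Not at hcon
        have := mul_neg_of_neg_of_pos hcon hMpos
        linarith
      exact mul_le_mul_of_nonneg_left hMM' (by linarith)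
  have h12 : 0 ≤ ζ * M := by positivity
  have h13 : 0 ≤ θ * M := by positivity
  have h14 : 0 ≤ β * M := by positivity
  rw [abs_le]
  constructor <;> nlinarith

theorem ev_log (c : ℝ) (n : ℕ) : ∀ᶠ l : ℝ in atTop, c * Real.log l ^ n ≤ l := by
  have h1 : (fun L : ℝ => Real.log L ^ n) =o[atTop] (fun L : ℝ => L) := Real.isLittleO_pow_log_id_atTop (n := n)
  have h2 := h1.bound (show (0 : ℝ) < 1 / (max c 1) by positivity)
  filter_upwards [h2, eventually_ge_atTop (1 : ℝ)] with L hL hL1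
  have hlog : 0 ≤ Real.log L := Real.log_nonneg hL1
  rw [Real.norm_of_nonneg (pow_nonneg hlog _), Real.norm_of_nonneg (by linarith), div_mul_eq_mul_div, one_mul,
    le_div_iff₀ (by positivity)] at hL
  have : c * Real.log L ^ n ≤ max c 1 * Real.log L ^ n := mul_le_mul_of_nonneg_right (le_max_left _ _) (by positivity)
  linarith

/-- `(log 3 X / log X) ^ K` is close to one -/
theorem log3 {K : ℕ} {x : ℝ} (hx : 1 < x) (h : 2 * (K : ℝ) ≤ Real.log x) :
    Real.log (3 * x) ^ K ≤ (1 + 4 * K / Real.log x) * Real.log x ^ K := by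
  have hL : 0 < Real.log x := Real.log_pos hx
  have h3 : Real.log 3 ≤ 2 := by
    have h1 := Real.log_le_sub_one_of_pos (show (0 : ℝ) < 3 by norm_num)
    linarith
  have h30 : 0 ≤ Real.log 3 := Real.log_nonneg (by norm_num)
  have e : Real.log (3 * x) = Real.log x * (1 + Real.log 3 / Real.log x) := by
    rw [Real.log_mul (by norm_num) (by linarith)]
    field_simp
    ring
  have h1 : 1 + Real.log 3 / Real.log x ≤ Real.exp (2 / Real.log x) := by
    have h2 : Real.log 3 / Real.log x ≤ 2 / Real.log x := div_le_div_of_nonneg_right h3 hL.le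
    linarith [Real.add_one_le_exp (2 / Real.log x)]
  have h2 : (1 + Real.log 3 / Real.log x) ^ K ≤ 1 + 4 * K / Real.log x := by
    have h4 : (1 + Real.log 3 / Real.log x) ^ K ≤ Real.exp (2 / Real.log x) ^ K := pow_le_pow_left₀ (by positivity) h1 K
    refine h4.trans ?_
    rw [← Real.exp_nat_mul]
    have h5 : |(K : ℝ) * (2 / Real.log x)| ≤ 1 := by
      rw [abs_of_nonneg (by positivity), mul_div_assoc', div_le_one hL]
      linarith
    have h6 := (abs_le.1 (Real.abs_exp_sub_one_le h5)).2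
    rw [abs_of_nonneg (by positivity)] at h6
    have e2 : 2 * ((K : ℝ) * (2 / Real.log x)) = 4 * K / Real.log x := by ring
    rw [e2] at h6
    linarith
  rw [e, mul_pow, mul_comm]
  exact mul_le_mul_of_nonneg_right h2 (by positivity)

end Pool.Agent.J4H32.MV
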