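import Pool.Agent.J4H32.MV.Sz4
import Pool.Agent.Results.MP_3509fd_nt.HalvesAtManyDistances

/-!
# Many progressions inside the sets of the integers with the two halves of the condition at many distances

Let `m` be an integer. The first half of the condition of the problem on `m` says that `m` is not of the forms `6xy + x - y`,
`6xy - x + y` (`6 m - 1` is prime), the second half that `m` is not of the forms `6xy + x + y`, `6xy - x - y` (`6 m + 1` is
prime). For all `a`, `b ≥ 1`, `A`, `J` and `η > 0` there is `B` such that for `X` in arbitrarily long ranges and all but few of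
the admissible pairs of vectors `g`, `h` with entries in `[1, X]` and `[0, X)`: let `halves g h X` be the set of the `m` in
`(X, 2 X]` such that `m, m + g_1, ..., m + g_a` satisfy the first half and `m + h_1, ..., m + h_b` the second half; then every
subset `S` with at least the `η`-th part of the elements of `halves g h X` has a difference `1 ≤ d ≤ (log X) ^ B` such that for at
least `X ^ (99 / 100)` elements `m` of `S` the progression `m, m + d, ..., m + J d` lies in `S`.

Method: the theorem `scGY` of helper32 (library parts by helpers 6, 19, 45, 57, 68, 73, 79, 81, 843 and 256) for the primes `p`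
with all `p + x_i` prime, `p = 6 m - 1`, `x = 6 g_i` and `x = 6 h_j + 2`, and the translation of helper40 in
`HalvesAtManyDistances`.
-/

set_option autoImplicit false

namespace Pool.Agent.J4H32.MV.Hv

open Finset Filter
open Pool.Agent.J4H32.MV (scGY GoodSc PX rgX CnX fj fj_zero fj_false)
open Pool.Agent.J4H81.GB (es AdX)
open Pool.Agent.Results.MP_3509fd_nt

/-- `n` has one of the two forms `6xy + x - y`, `6xy - x + y` with `x ≥ y ≥ 1`, that is: the form `6xy + x - y` with
`x, y ≥ 1`. -/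
def FormA (n : ℕ) : Prop := ∃ x y : ℕ, 1 ≤ x ∧ 1 ≤ y ∧ n + y = 6 * x * y + x

/-- `n` has one of the two forms `6xy + x + y`, `6xy - x - y` with `x ≥ y ≥ 1`. (`n` is missing in the sense of the
problem if it has neither of the forms in `FormA` and neither of the forms in `FormB`.) -/
def FormB (n : ℕ) : Prop := ∃ x y : ℕ, 1 ≤ y ∧ y ≤ x ∧ (n = 6 * x * y + x + y ∨ n + x + y = 6 * x * y)

open Classical in
/-- The set of the integers `m` with `X < m ≤ 2 X` such that `m` and all the `m + g_i` satisfy the first half of the condition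
and all the `m + h_j` satisfy the second half. -/
noncomputable def halves {a b : ℕ} (g : Fin a → ℕ) (h : Fin b → ℕ) (X : ℕ) : Finset ℕ :=
  (Ioc X (2 * X)).filter (fun m : ℕ => ¬ FormA m ∧ (∀ i, ¬ FormA (m + g i)) ∧ ∀ j, ¬ FormB (m + h j))

/-- There is no local obstruction: for every prime `q` there is an integer `m` such that `q` divides none of the integers
`6 m - 1`, `6 (m + g_i) - 1`, `6 (m + h_j) + 1`. -/
def Admissible {a b : ℕ} (g : Fin a → ℕ) (h : Fin b → ℕ) : Prop :=
  ∀ q : ℕ, q.Prime → ∃ m : ℤ, ¬ (q : ℤ) ∣ 6 * m - 1 ∧ (∀ i, ¬ (q : ℤ) ∣ 6 * (m + g i) - 1) ∧ ∀ j, ¬ (q : ℤ) ∣ 6 * (m + h j) + 1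

/-- The number of the progressions `m, m + d, ..., m + J d` in `S` with difference `d`. -/
def progressions (S : Finset ℕ) (J d : ℕ) : ℕ := (S.filter (fun m => ∀ j ≤ J, m + j * d ∈ S)).card

/-- The exceptional pairs `(g, h)`: admissible, with `1 ≤ g_i ≤ X` and `0 ≤ h_j < X`, for which some subset `S` of `halves g h X`
with at least `η |halves g h X|` elements has no difference `1 ≤ d ≤ (log X) ^ B` with at least `X ^ (99 / 100)` progressions
`m, m + d, ..., m + J d` in `S`. -/
def exceptional (a b J B : ℕ) (η : ℝ) (X : ℕ) : Set ((Fin a → ℕ) × (Fin b → ℕ)) :=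
  {v | (∀ i, 1 ≤ v.1 i ∧ v.1 i ≤ X) ∧ (∀ j, v.2 j < X) ∧ Admissible v.1 v.2 ∧
    ∃ S ⊆ halves v.1 v.2 X, η * (halves v.1 v.2 X).card ≤ S.card ∧
      ¬ ∃ d : ℕ, 1 ≤ d ∧ (d : ℝ) ≤ Real.log X ^ B ∧ (X : ℝ) ^ (99 / 100 : ℝ) ≤ (progressions S J d : ℝ)}

theorem mem_halves {a b : ℕ} (g : Fin a → ℕ) (h : Fin b → ℕ) (X m : ℕ) (hm : m ∈ halves g h X) :
    X < m ∧ m ≤ 2 * X ∧ 6 * m - 1 ∈ PX (HalvesAtManyDistances.sg (a + b)) (HalvesAtManyDistances.vec g h) (6 * X) := by
  classical
  unfold halves at hm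
  rw [Finset.mem_filter, Finset.mem_Ioc] at hm
  obtain ⟨⟨h1, h2⟩, h3, h4, h5⟩ := hm
  refine ⟨h1, h2, ?_⟩
  unfold PX
  rw [Finset.mem_filter, Finset.mem_Ioc]
  refine ⟨by omega, fun j => ?_⟩
  refine Fin.cases ?_ (fun j => ?_) j
  · rw [fj_zero]
    exact (HalvesAtManyDistances.formA_iff m (by omega)).2 h3
  · rw [fj_false (HalvesAtManyDistances.vec g h) (6 * m - 1) rfl]
    refine Fin.addCases (fun i => ?_) (fun j => ?_) j
    · rw [HalvesAtManyDistances.vec_g]
      have h6 := (HalvesAtManyDistances.formA_iff (m + g i) (by omega)).2 (h4 i)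
      rwa [show 6 * (m + g i) - 1 = 6 * m - 1 + 6 * g i by omega] at h6
    · rw [HalvesAtManyDistances.vec_h]
      have h6 := (HalvesAtManyDistances.formB_iff (m + h j) (by omega)).2 (h5 j)
      rwa [show 6 * (m + h j) + 1 = 6 * m - 1 + (6 * h j + 2) by omega] at h6

/-- the main step: a non-exceptional vector gives a non-exceptional pair -/
theorem good_of {a b J B : ℕ} {η : ℝ} {X : ℕ} (g : Fin a → ℕ) (h : Fin b → ℕ) (j₀ : Fin b) (hX : 1 ≤ X)
    (hlog : Real.log ((6 * X : ℕ) : ℝ) ^ B ≤ Real.log X ^ (B + 1))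
    (hG : GoodSc (HalvesAtManyDistances.sg (a + b)) (HalvesAtManyDistances.vec g h) (6 * X) (J + 1) B η)
    (S : Finset ℕ) (hS : S ⊆ halves g h X) (hc : η * (halves g h X).card ≤ S.card) :
    ∃ d : ℕ, 1 ≤ d ∧ (d : ℝ) ≤ Real.log X ^ (B + 1) ∧ (X : ℝ) ^ (99 / 100 : ℝ) ≤ (progressions S J d : ℝ) := by
  classical
  have hXr : (1 : ℝ) ≤ X := by exact_mod_cast hX
  have hinj : Set.InjOn (fun m : ℕ => 6 * m - 1) (S : Set ℕ) := by
    intro m hm m' hm' he
    have h1 := (mem_halves g h X m (hS hm)).1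
    have h2 := (mem_halves g h X m' (hS hm')).1
    simp only at he
    omega
  have hcard : (halves g h X).card = (PX (HalvesAtManyDistances.sg (a + b)) (HalvesAtManyDistances.vec g h) (6 * X)).card := by
    have := HalvesAtManyDistances.count_eq g h j₀ X hX
    rw [Pool.Agent.J4H32.MV.PX_card, ← this]
    rfl
  have hTsub : S.image (fun m => 6 * m - 1) ⊆ PX (HalvesAtManyDistances.sg (a + b)) (HalvesAtManyDistances.vec g h) (6 * X) := by
    intro n hn
    obtain ⟨m, hm, rfl⟩ := Finset.mem_image.1 hn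
    exact (mem_halves g h X m (hS hm)).2.2
  have hTcard : (S.image (fun m => 6 * m - 1)).card = S.card := card_image_of_injOn hinj
  obtain ⟨d, hd1, hd2, hd3⟩ := hG (S.image (fun m => 6 * m - 1)) hTsub (by rw [hTcard, ← hcard]; exact hc)
  set T := S.image (fun m => 6 * m - 1) with hT
  have hX6 : (X : ℝ) ^ (99 / 100 : ℝ) ≤ ((6 * X : ℕ) : ℝ) ^ (99 / 100 : ℝ) := by
    apply Real.rpow_le_rpow (by positivity) _ (by norm_num)
    push_cast
    linarith
  have hpos : (0 : ℝ) < ((T.filter (fun a => ∀ j ≤ J + 1, a + j * d ∈ T)).card : ℝ) := by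
    refine lt_of_lt_of_le ?_ (hX6.trans hd3)
    positivity
  have hne : (T.filter (fun a => ∀ j ≤ J + 1, a + j * d ∈ T)).Nonempty := by
    rw [← Finset.card_pos]
    exact_mod_cast hpos
  -- `6` divides `d`
  obtain ⟨n₀, hn₀⟩ := hne
  rw [Finset.mem_filter] at hn₀
  have hT5 : ∀ n ∈ T, ∃ m ∈ S, 1 ≤ m ∧ n + 1 = 6 * m := by
    intro n hn
    obtain ⟨m, hm, he⟩ := Finset.mem_image.1 hn
    have h1 := (mem_halves g h X m (hS hm)).1
    exact ⟨m, hm, by omega, by omega⟩
  have hd6 : 6 ∣ d := by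
    obtain ⟨m, -, -, e1⟩ := hT5 n₀ hn₀.1
    obtain ⟨m', -, -, e2⟩ := hT5 (n₀ + 1 * d) (hn₀.2 1 (by omega))
    omega
  obtain ⟨e, he⟩ := hd6
  refine ⟨e, by omega, ?_, ?_⟩
  · have h1 : (e : ℝ) ≤ d := by
      have : e ≤ d := by omega
      exact_mod_cast this
    exact h1.trans (hd2.trans hlog)
  · refine (hX6.trans hd3).trans ?_
    unfold progressions
    have h1 : (T.filter (fun a => ∀ j ≤ J + 1, a + j * d ∈ T)).card ≤ (S.filter (fun m => ∀ j ≤ J, m + j * e ∈ S)).card := by
      apply card_le_card_of_injOn (fun n => (n + 1) / 6)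
      · intro n hn
        rw [Finset.mem_coe, Finset.mem_filter] at hn
        rw [Finset.mem_coe, Finset.mem_filter]
        obtain ⟨m, hm, hm1, e1⟩ := hT5 n hn.1
        have e2 : (n + 1) / 6 = m := by omega
        show (n + 1) / 6 ∈ S ∧ ∀ j ≤ J, (n + 1) / 6 + j * e ∈ S
        rw [e2]
        refine ⟨hm, fun j hj => ?_⟩
        obtain ⟨m', hm', -, e3⟩ := hT5 (n + j * d) (hn.2 j (by omega))
        have e4 : m' = m + j * e := by
          have e5 : j * d = 6 * (j * e) := by rw [he]; ring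
          omega
        rw [← e4]
        exact hm'
      · intro n hn n' hn' h'
        rw [Finset.mem_coe, Finset.mem_filter] at hn hn'
        obtain ⟨m, -, -, e1⟩ := hT5 n hn.1
        obtain ⟨m', -, -, e2⟩ := hT5 n' hn'.1
        simp only at h'
        omega
    exact_mod_cast h1

/-- For all `a`, `b ≥ 1`, `A`, `J` and `η > 0` there is `B` such that there are arbitrarily large `Y` such that for every `X` with
`Y ≤ X ≤ Y ^ ((log log Y) ^ A)` there are at most `X ^ (a + b) exp (-log X / (log log X) ^ (A + 8))` exceptional pairs. -/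
theorem result (a b A J : ℕ) (hb : 1 ≤ b) (η : ℝ) (hη : 0 < η) : ∃ B : ℕ, ∀ Y₀ : ℝ, ∃ Y : ℝ, Y₀ ≤ Y ∧ ∀ X : ℕ, Y ≤ X →
    (X : ℝ) ≤ Y ^ (Real.log (Real.log Y) ^ A) →
    ((exceptional a b J B η X).ncard : ℝ) ≤ (X : ℝ) ^ (a + b) * Real.exp (-(Real.log X / Real.log (Real.log X) ^ (A + 8))) := by
  classical
  obtain ⟨B, hB⟩ := scGY (a + b) (A + 1) (J + 1) (HalvesAtManyDistances.sg (a + b)) η hη
  refine ⟨B + 1, fun Y₀ => ?_⟩
  obtain ⟨X₁, hX₁, hsc⟩ := Pool.Agent.J4H40.TH.ev_scale (a + b) A (A + 1 + 6)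
  obtain ⟨X₂, hX₂⟩ := eventually_atTop.1 (Real.tendsto_log_atTop.eventually_ge_atTop (max (Real.log 6) ((2 : ℝ) ^ B)))
  obtain ⟨Y, hY, hYX⟩ := hB (max Y₀ (max X₁ X₂))
  have hY1 : X₁ ≤ Y := ((le_max_left _ _).trans (le_max_right _ _)).trans hY
  have hY2 : X₂ ≤ Y := ((le_max_right _ _).trans (le_max_right _ _)).trans hY
  refine ⟨Y, (le_max_left _ _).trans hY, fun X h1 h2 => ?_⟩
  have hXr : X₁ ≤ (X : ℝ) := hY1.trans h1
  have hX10 : (10 : ℝ) ≤ X := hX₁.trans hXr
  have hX1 : 1 ≤ X := by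
    have : (1 : ℝ) ≤ X := by linarith
    exact_mod_cast this
  have hlog : Real.log ((6 * X : ℕ) : ℝ) ^ B ≤ Real.log X ^ (B + 1) := by
    have h3 := hX₂ X (hY2.trans h1)
    have h4 : Real.log 6 ≤ Real.log X := (le_max_left _ _).trans h3
    have h5 : (2 : ℝ) ^ B ≤ Real.log X := (le_max_right _ _).trans h3
    have h6 : Real.log ((6 * X : ℕ) : ℝ) ≤ 2 * Real.log X := by
      push_cast
      rw [Real.log_mul (by norm_num) (by linarith)]
      linarith
    have h7 : 0 ≤ Real.log ((6 * X : ℕ) : ℝ) := by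
      apply Real.log_nonneg
      push_cast
      linarith
    have h8 : 0 ≤ Real.log (X : ℝ) := Real.log_nonneg (by linarith)
    calc Real.log ((6 * X : ℕ) : ℝ) ^ B ≤ (2 * Real.log X) ^ B := pow_le_pow_left₀ h7 h6 B
      _ = 2 ^ B * Real.log X ^ B := mul_pow _ _ _
      _ ≤ Real.log X * Real.log X ^ B := mul_le_mul_of_nonneg_right h5 (pow_nonneg h8 B)
      _ = Real.log X ^ (B + 1) := by ring
  obtain ⟨s1, s2, -, s4⟩ := hsc X hXr
  obtain ⟨-, -, s3, -⟩ := hsc Y hY1
  have hcast : ((6 * X : ℕ) : ℝ) = 6 * (X : ℝ) := by push_cast; ring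
  have hmain := hYX (6 * X) (by rw [hcast]; linarith) (by
    rw [hcast]
    linarith)
  rw [hcast] at hmain
  rw [show A + 8 = A + 1 + 6 + 1 by ring]
  refine le_trans ?_ (hmain.trans s4)
  set φ : ((Fin a → ℕ) × (Fin b → ℕ)) → (Fin (a + b) → ℕ) := fun v => HalvesAtManyDistances.vec v.1 v.2 with hφ
  have hinj : Function.Injective φ := by
    intro v v' h
    apply Prod.ext
    · funext i
      have h1 := congrFun h (Fin.castAdd b i)
      simp only [hφ, HalvesAtManyDistances.vec_g] at h1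
      omega
    · funext j
      have h1 := congrFun h (Fin.natAdd a j)
      simp only [hφ, HalvesAtManyDistances.vec_h] at h1
      omega
  have hmem : ∀ v ∈ exceptional a b J (B + 1) η X, φ v ∈
      ((Fintype.piFinset (fun i : Fin (a + b) => rgX (HalvesAtManyDistances.sg (a + b) i) (6 * X))).filter
      (fun x => AdX (HalvesAtManyDistances.sg (a + b)) x ∧
        ¬ GoodSc (HalvesAtManyDistances.sg (a + b)) x (6 * X) (J + 1) B η)) := by
    rintro ⟨g, h⟩ ⟨hg, hh, had, hex⟩
    simp only at hg hh had hex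
    rw [Finset.mem_filter, Fintype.mem_piFinset]
    show _ ∧ AdX (HalvesAtManyDistances.sg (a + b)) (HalvesAtManyDistances.vec g h) ∧
        ¬ GoodSc (HalvesAtManyDistances.sg (a + b)) (HalvesAtManyDistances.vec g h) (6 * X) (J + 1) B η
    refine ⟨?_, ?_, ?_⟩
    · intro i
      show HalvesAtManyDistances.vec g h i ∈ Finset.Icc 1 (6 * X)
      refine Fin.addCases (fun i => ?_) (fun j => ?_) i
      · rw [HalvesAtManyDistances.vec_g]
        have := hg i
        exact Finset.mem_Icc.2 (by omega)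
      · rw [HalvesAtManyDistances.vec_h]
        have := hh j
        exact Finset.mem_Icc.2 (by omega)
    · intro q hq
      obtain ⟨m, h1, h2, h3⟩ := had q hq
      have hq0 : (q : ℤ) ≠ 0 := by exact_mod_cast hq.ne_zero
      have hr0 : 0 ≤ (6 * m - 1) % q := Int.emod_nonneg _ hq0
      obtain ⟨s, hs⟩ := Int.eq_ofNat_of_zero_le hr0
      have hd : 6 * m - 1 = q * ((6 * m - 1) / q) + s := by
        have := Int.mul_ediv_add_emod (6 * m - 1) q
        omega
      refine ⟨s, ?_⟩
      intro j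
      refine Fin.cases ?_ (fun j => ?_) j
      · intro h4
        apply h1
        rw [hd]
        rw [HalvesAtManyDistances.es_0, add_zero] at h4
        exact dvd_add (dvd_mul_right _ _) h4
      · rw [HalvesAtManyDistances.es_s]
        refine Fin.addCases (fun i => ?_) (fun j => ?_) j
        · intro h4
          apply h2 i
          rw [HalvesAtManyDistances.vec_g] at h4
          have e : 6 * (m + (g i : ℤ)) - 1 = ((s : ℤ) + ((6 * g i : ℕ) : ℤ)) + q * ((6 * m - 1) / q) := by
            push_cast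
            linarith
          rw [e]
          exact dvd_add h4 (dvd_mul_right _ _)
        · intro h4
          apply h3 j
          rw [HalvesAtManyDistances.vec_h] at h4
          have e : 6 * (m + (h j : ℤ)) + 1 = ((s : ℤ) + ((6 * h j + 2 : ℕ) : ℤ)) + q * ((6 * m - 1) / q) := by
            push_cast
            linarith
          rw [e]
          exact dvd_add h4 (dvd_mul_right _ _)
    · intro hG
      obtain ⟨S, hS, hc, hn⟩ := hex
      exact hn (good_of g h ⟨0, hb⟩ hX1 hlog hG S hS hc)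
  have h3 : (exceptional a b J (B + 1) η X).ncard ≤
      ((Fintype.piFinset (fun i : Fin (a + b) => rgX (HalvesAtManyDistances.sg (a + b) i) (6 * X))).filter
      (fun x => AdX (HalvesAtManyDistances.sg (a + b)) x ∧
        ¬ GoodSc (HalvesAtManyDistances.sg (a + b)) x (6 * X) (J + 1) B η)).card := by
    rw [← Set.ncard_coe_finset, ← Set.ncard_image_of_injective _ hinj]
    apply Set.ncard_le_ncard _ (Finset.finite_toSet _)
    rintro _ ⟨v, hv, rfl⟩
    exact hmem v hv
  exact_mod_cast h3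

end Pool.Agent.J4H32.MV.Hv
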