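import Pool.Agent.J4H32.MV.Sz1

/-!
# Project SZ: the singular series from below (helper32; the local bound after helper73, J4H73.AQ.Low)
-/

set_option autoImplicit false

namespace Pool.Agent.J4H32.MV

open Finset Filter

theorem pow_quad' (u : ℝ) (hu0 : 0 ≤ u) (hu1 : u ≤ 1) (m : ℕ) : (1 - u) ^ m ≤ 1 - m * u + (m : ℝ) ^ 2 * u ^ 2 / 2 := by
  induction m with
  | zero => simp
  | succ m ih =>
    have h1 : (1 - u) ^ (m + 1) = (1 - u) ^ m * (1 - u) := pow_succ _ _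
    have h2 : (1 - u) ^ m * (1 - u) ≤ (1 - m * u + (m : ℝ) ^ 2 * u ^ 2 / 2) * (1 - u) :=
      mul_le_mul_of_nonneg_right ih (by linarith)
    rw [h1]
    refine h2.trans ?_
    push_cast
    have hm : (0 : ℝ) ≤ m := Nat.cast_nonneg m
    have h3 : 0 ≤ (m : ℝ) ^ 2 * u ^ 3 / 2 := by positivity
    have h4 : 0 ≤ u ^ 2 := by positivity
    nlinarith

theorem exp_le_one_sub' {t : ℝ} (h0 : 0 ≤ t) (h1 : t ≤ 1 / 2) : Real.exp (-(2 * t)) ≤ 1 - t := by
  rw [Real.exp_neg]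
  have h2 := Real.add_one_le_exp (2 * t)
  have h3 : (Real.exp (2 * t))⁻¹ ≤ (2 * t + 1)⁻¹ := inv_anti₀ (by linarith) h2
  refine h3.trans ?_
  rw [inv_le_iff_one_le_mul₀ (by linarith)]
  nlinarith

theorem fac01' (p : ℕ) (hp : p.Prime) : 0 < 1 - 1 / (p : ℝ) ∧ 1 - 1 / (p : ℝ) ≤ 1 := by
  have h1 : (2 : ℝ) ≤ p := by exact_mod_cast hp.two_le
  have h2 : 1 / (p : ℝ) ≤ 1 / 2 := one_div_le_one_div_of_le (by norm_num) h1
  have h3 : 0 ≤ 1 / (p : ℝ) := by positivity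
  constructor <;> linarith

theorem fac_low' (m : ℕ) (hm : 1 ≤ m) (p : ℕ) (hp : p.Prime) (v : ℕ) (hv : v ≤ m) (hvp : v < p) :
    (if p ≤ 2 * m then 1 / (2 * (m : ℝ)) else 1) * Real.exp (-(2 * (m : ℝ) ^ 2 * (1 / (p : ℝ) ^ 2))) *
      (1 - 1 / (p : ℝ)) ^ m ≤ 1 - (v : ℝ) / p := by
  have hp0 : (0 : ℝ) < p := by exact_mod_cast hp.pos
  have hp2 : (2 : ℝ) ≤ p := by exact_mod_cast hp.two_le
  have hm0 : (1 : ℝ) ≤ m := by exact_mod_cast hm
  have hf := fac01' p hp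
  have hexp1 : Real.exp (-(2 * (m : ℝ) ^ 2 * (1 / (p : ℝ) ^ 2))) ≤ 1 := by
    rw [Real.exp_le_one_iff]
    have : 0 ≤ 2 * (m : ℝ) ^ 2 * (1 / (p : ℝ) ^ 2) := by positivity
    linarith
  have hexp0 := (Real.exp_pos (-(2 * (m : ℝ) ^ 2 * (1 / (p : ℝ) ^ 2)))).le
  have hpow1 : (1 - 1 / (p : ℝ)) ^ m ≤ 1 := pow_le_one₀ hf.1.le hf.2
  have hpow0 : 0 ≤ (1 - 1 / (p : ℝ)) ^ m := pow_nonneg hf.1.le m
  split_ifs with h
  · have h1 : (v : ℝ) / p ≤ 1 - 1 / p := by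
      rw [div_le_iff₀ hp0]
      have h2 : (v : ℝ) + 1 ≤ p := by exact_mod_cast hvp
      have h3 : (1 - 1 / (p : ℝ)) * p = p - 1 := by field_simp
      rw [h3]
      linarith
    have h4 : 1 / (2 * (m : ℝ)) ≤ 1 / p := by
      apply one_div_le_one_div_of_le hp0
      exact_mod_cast h
    have h5 : 0 ≤ 1 / (2 * (m : ℝ)) := by positivity
    calc 1 / (2 * (m : ℝ)) * Real.exp (-(2 * (m : ℝ) ^ 2 * (1 / (p : ℝ) ^ 2))) * (1 - 1 / (p : ℝ)) ^ m ≤
        1 / (2 * (m : ℝ)) * 1 * 1 := by gcongr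
      _ = 1 / (2 * (m : ℝ)) := by ring
      _ ≤ _ := by linarith
  · push Not at h
    have hpm : 2 * (m : ℝ) ≤ p := by
      have : 2 * m ≤ p := h.le
      exact_mod_cast this
    have hu0 : 0 ≤ 1 / (p : ℝ) := by positivity
    have hu1 : 1 / (p : ℝ) ≤ 1 := by
      rw [div_le_one hp0]
      linarith
    have hq := pow_quad' (1 / (p : ℝ)) hu0 hu1 m
    set a : ℝ := (m : ℝ) / p with ha
    have ha2 : a ≤ 1 / 2 := by
      rw [ha, div_le_iff₀ hp0]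
      linarith
    have ha0 : 0 ≤ a := by positivity
    have hq' : (1 - 1 / (p : ℝ)) ^ m ≤ 1 - a + a ^ 2 / 2 := by
      have e : 1 - (m : ℝ) * (1 / p) + (m : ℝ) ^ 2 * (1 / (p : ℝ)) ^ 2 / 2 = 1 - a + a ^ 2 / 2 := by
        rw [ha]
        field_simp
      rwa [e] at hq
    have hexp : Real.exp (-(2 * (m : ℝ) ^ 2 * (1 / (p : ℝ) ^ 2))) ≤ 1 - a ^ 2 := by
      have e : 2 * (m : ℝ) ^ 2 * (1 / (p : ℝ) ^ 2) = 2 * a ^ 2 := by
        rw [ha]
        field_simp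
      rw [e]
      exact exp_le_one_sub' (by positivity) (by nlinarith)
    have hva : (v : ℝ) / p ≤ a := by
      rw [ha]
      have : (v : ℝ) ≤ m := by exact_mod_cast hv
      gcongr
    rw [one_mul]
    have hq0 : 0 ≤ 1 - a + a ^ 2 / 2 := by nlinarith
    have h1a : 0 ≤ 1 - a ^ 2 := by nlinarith
    calc Real.exp (-(2 * (m : ℝ) ^ 2 * (1 / (p : ℝ) ^ 2))) * (1 - 1 / (p : ℝ)) ^ m ≤
        (1 - a ^ 2) * (1 - a + a ^ 2 / 2) := mul_le_mul hexp hq' hpow0 h1a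
      _ ≤ 1 - a := by nlinarith [mul_nonneg ha0 ha0, mul_nonneg (mul_nonneg ha0 ha0) ha0]
      _ ≤ _ := by linarith

theorem sum_inv_sq' (y : ℕ) : ∑ n ∈ Icc 1 y, 1 / (n : ℝ) ^ 2 ≤ 2 := by
  have h : ∀ y : ℕ, 1 ≤ y → ∑ n ∈ Icc 1 y, 1 / (n : ℝ) ^ 2 ≤ 2 - 1 / (y : ℝ) := by
    intro y hy
    induction y, hy using Nat.le_induction with
    | base => norm_num
    | succ y hy ih =>
      rw [sum_Icc_succ_top (by omega)]
      have hy0 : (0 : ℝ) < y := by exact_mod_cast hy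
      have h1 : 1 / ((y + 1 : ℕ) : ℝ) ^ 2 ≤ 1 / y - 1 / ((y + 1 : ℕ) : ℝ) := by
        push_cast
        rw [div_sub_div _ _ hy0.ne' (by positivity), div_le_div_iff₀ (by positivity) (by positivity)]
        nlinarith
      linarith
  rcases Nat.eq_zero_or_pos y with h0 | h0
  · rw [h0]
    simp
  · have h1 := h y h0
    have h2 : 0 ≤ 1 / (y : ℝ) := by positivity
    linarith

/-- the part of the singular series at the primes up to `R` is bounded from below -/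
theorem SWZ_lo {K : ℕ} (hK : 1 ≤ K) (R : ℕ) (a : Fin K → ℤ) (ha : ∀ p : ℕ, p.Prime → nuZ a p < p) :
    (1 / (2 * (K : ℝ))) ^ (2 * K) * Real.exp (-(4 * (K : ℝ) ^ 2)) ≤ SWZ R a := by
  have hKr : (1 : ℝ) ≤ K := by exact_mod_cast hK
  have hν : ∀ p : ℕ, nuZ a p ≤ K := by
    intro p
    unfold nuZ
    refine card_image_le.trans ?_
    rw [card_univ, Fintype.card_fin]
  set F : Finset ℕ := (range (R + 1)).filter Nat.Prime with hF
  have h1 : ∏ p ∈ F, ((if p ≤ 2 * K then 1 / (2 * (K : ℝ)) else 1) * Real.exp (-(2 * (K : ℝ) ^ 2 * (1 / (p : ℝ) ^ 2)))) ≤ SWZ R a := by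
    unfold SWZ
    apply Finset.prod_le_prod
    · intro p _
      have h2 : 0 ≤ (if p ≤ 2 * K then 1 / (2 * (K : ℝ)) else 1) := by split_ifs <;> positivity
      exact mul_nonneg h2 (Real.exp_pos _).le
    · intro p hp
      rw [hF, Finset.mem_filter] at hp
      unfold facZ
      rw [le_div_iff₀ (pow_pos (fac01' p hp.2).1 _)]
      exact fac_low' K hK p hp.2 (nuZ a p) (hν p) (ha p hp.2)
  refine le_trans ?_ h1
  rw [prod_mul_distrib]
  have h2 : (1 / (2 * (K : ℝ))) ^ (2 * K) ≤ ∏ p ∈ F, (if p ≤ 2 * K then 1 / (2 * (K : ℝ)) else 1) := by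
    rw [prod_ite, prod_const, prod_const_one, mul_one]
    apply pow_le_pow_of_le_one (by positivity)
    · rw [div_le_one (by positivity)]
      linarith
    · have h3 : F.filter (fun p => p ≤ 2 * K) ⊆ Icc 1 (2 * K) := by
        intro p hp
        rw [Finset.mem_filter, hF, Finset.mem_filter] at hp
        rw [Finset.mem_Icc]
        exact ⟨hp.1.2.one_lt.le, hp.2⟩
      have h4 := card_le_card h3
      rwa [Nat.card_Icc, Nat.add_sub_cancel] at h4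
  have h3 : Real.exp (-(4 * (K : ℝ) ^ 2)) ≤ ∏ p ∈ F, Real.exp (-(2 * (K : ℝ) ^ 2 * (1 / (p : ℝ) ^ 2))) := by
    rw [← Real.exp_sum]
    apply Real.exp_le_exp.2
    rw [sum_neg_distrib, ← mul_sum]
    have h4 : ∑ p ∈ F, 1 / (p : ℝ) ^ 2 ≤ 2 := by
      refine le_trans ?_ (sum_inv_sq' R)
      apply sum_le_sum_of_subset_of_nonneg
      · intro p hp
        rw [hF, Finset.mem_filter, Finset.mem_range] at hp
        rw [Finset.mem_Icc]
        exact ⟨hp.2.one_lt.le, by omega⟩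
      · intro p _ _
        positivity
    have h5 : 0 ≤ 2 * (K : ℝ) ^ 2 := by positivity
    nlinarith
  exact mul_le_mul h2 h3 (Real.exp_pos _).le ((by positivity : (0 : ℝ) ≤ (1 / (2 * (K : ℝ))) ^ (2 * K)).trans h2)

end Pool.Agent.J4H32.MV
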