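import Pool.Agent.J4H32.MV.Fin
import Pool.Agent.J4H19.MV.Te
import Pool.Agent.J4H19.MV.Fr
import Pool.Agent.J4H45.MV.Cr
import Pool.Agent.J4H19.MV.Pv
import Pool.Agent.J4H19.MV.Bd
import Pool.Agent.J4H45.MV.Mc
import Pool.Agent.J4H45.MV.Lm
import Pool.Agent.J4H57.MV.Md
import Pool.Agent.J4H57.MV.Mb
import Pool.Agent.J4H68.MV.Rk
import Pool.Agent.J4H68.MV.Ps
import Pool.Agent.J4H68.MV.Nb
import Pool.Agent.J4H6.MV.Cn
import Pool.Agent.J4H81.MV.Gd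
import Pool.Agent.J4H81.MV.Ex
import Pool.Agent.J4H42.MV.Ch

/-!
# Project MV: the theorem (helper32, with helpers 6, 19, 42, 45, 57, 68, 81)
-/

set_option autoImplicit false

namespace Pool.Agent.J4H32.MV

open Finset Filter

theorem u_TE : S_TE := Pool.Agent.J4H19.MV.t_TE Pool.Agent.J4H19.MV.t_FR
theorem u_MC : S_MC := Pool.Agent.J4H45.MV.t_MC Pool.Agent.J4H19.MV.t_PV Pool.Agent.J4H45.MV.t_CR
theorem u_MD : S_MD := Pool.Agent.J4H57.MV.t_MD u_MC Pool.Agent.J4H45.MV.t_LM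
theorem u_MM : S_MM := Pool.Agent.J4H57.MV.t_MM u_MC Pool.Agent.J4H45.MV.t_LM
theorem u_MB : S_MB := Pool.Agent.J4H57.MV.t_MB u_MM
theorem u_RC : S_RC := Pool.Agent.J4H68.MV.t_RC
theorem u_BD : S_BD := Pool.Agent.J4H19.MV.t_BD Pool.Agent.J4H68.MV.t_RK
theorem u_CH : S_CH := Pool.Agent.J4H42.MV.t_CH Pool.Agent.J4H81.MV.t_GD Pool.Agent.J4H81.MV.t_EX

open Classical in
/-- prime constellations for all but few vectors of shifts, for every large `X` -/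
theorem main (k : ℕ) : ∀ᶠ X : ℕ in atTop,
    (((Fintype.piFinset (fun _ : Fin k => Icc 1 X)).filter (fun m => Ad m ∧
      (Cn m X : ℝ) < X * Real.exp (-(Real.log X / Real.log (Real.log X) ^ 4)))).card : ℝ) ≤
      (X : ℝ) ^ k * Real.exp (-(Real.log X / Real.log (Real.log X) ^ 13)) :=
  fin3 u_TE u_MD u_RC u_MB Pool.Agent.J4H6.MV.t_CN Pool.Agent.J4H68.MV.t_PS u_BD u_CH k

end Pool.Agent.J4H32.MV
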