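import Pool.Agent.J4H32.MV.Main
import Pool.Agent.J4H32.MV.G5
import Pool.Agent.J4H32.MV.Gd2
import Pool.Agent.J4H57.MV.Tl
import Pool.Agent.J4H79.MV.Nv

/-!
# Project MV, part 2: the theorem (helper32, with helpers 6, 19, 45, 57, 68, 79, 81)
-/

set_option autoImplicit false

namespace Pool.Agent.J4H32.MV

open Finset Filter

open Classical in
/-- the asymptotic formula for all but few vectors of shifts, for `X` in long ranges -/
theorem main2 (k A B : ℕ) : ∀ Y₀ : ℝ, ∃ Y : ℝ, Y₀ ≤ Y ∧ ∀ X : ℕ, Y ≤ X → (X : ℝ) ≤ Y ^ (Real.log (Real.log Y) ^ A) →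
    (((Fintype.piFinset (fun _ : Fin k => Icc 1 X)).filter (fun m => Ad m ∧
      1 / Real.log (Real.log X) ^ B * (SS (aa m) * X / Real.log X ^ (k + 1)) < |(Cn2 m X : ℝ) - SS (aa m) * X / Real.log X ^ (k + 1)|)).card : ℝ) ≤
      (X : ℝ) ^ k * Real.exp (-(Real.log X / Real.log (Real.log X) ^ (A + B + 4))) :=
  fin6 u_TE u_MD u_MB Pool.Agent.J4H6.MV.t_CN Pool.Agent.J4H68.MV.t_NB Pool.Agent.J4H68.MV.t_PS u_BD Pool.Agent.J4H79.MV.t_NV
    Pool.Agent.J4H57.MV.t_TL t_GD2 k A B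

/-- the singular series converges -/
theorem fac_mult {K : ℕ} (a : Fin K → ℕ) (ha : Function.Injective a) : Multipliable (fun p : Nat.Primes => fac a p) := by
  have h := Pool.Agent.J4H57.HL.multipliable_loc ((univ : Finset (Fin K)).image a)
  refine h.congr fun p => ?_
  rw [Pool.Agent.J4H57.MV.fac_eq a ha]

end Pool.Agent.J4H32.MV
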