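import Pool.Agent.J4H32.MV.X4
import Pool.Agent.J4H32.MV.G5

/-!
# Project GY: the choice of the scale (helper32)
-/

set_option autoImplicit false

namespace Pool.Agent.J4H32.MV

open Finset MeasureTheory Filter
open Pool.Agent.J4H81.PT
open Pool.Agent.J4H81.PT.ZF (NoZ ExZ)
open Pool.Agent.J4H81.GB

open Classical in
theorem fin6X (hTE : S_TE) (hMD : S_MDZ) (hEV : S_EV) (hREF : S_REF) (hMB : S_MBZ) (hCN : S_CN) (hPS : S_PS) (hRK : S_RK)
    (hGD : S_GD2) (k A B : ℕ) (σ : Fin k → Bool) : ∀ Y₀ : ℝ, ∃ Y : ℝ, Y₀ ≤ Y ∧ ∀ X : ℕ, Y ≤ X → (X : ℝ) ≤ Y ^ (Real.log (Real.log Y) ^ A) →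
      (((Fintype.piFinset (fun i : Fin k => rgX (σ i) X)).filter (fun m => AdX σ m ∧
        1 / Real.log (Real.log X) ^ B * (SSZ (es σ m) * X / Real.log X ^ (k + 1)) < |(CnX σ m X : ℝ) - SSZ (es σ m) * X / Real.log X ^ (k + 1)|)).card : ℝ) ≤
        (X : ℝ) ^ k * Real.exp (-(Real.log X / Real.log (Real.log X) ^ (A + B + 4))) := by
  intro Y₀
  obtain ⟨c, hc0, hc1, hgs⟩ := Pool.Agent.J4H81.PT.ZF.good_scales
  obtain ⟨D, Cst, l₀, hCst, h5⟩ := fin5X hTE hMD hEV hREF hMB hCN hPS hRK k B σ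
  obtain ⟨A₁, l₁, hA₁, hGD'⟩ := hGD c D hc0 hc1
  obtain ⟨l₂, hl₂⟩ := eventually_atTop.1 (scale_ev A B ((k + 1 : ℕ) : ℝ) A₁ Cst)
  obtain ⟨l, hl, hNZ⟩ := hgs (max (max l₀ l₁) (max l₂ Y₀))
  obtain ⟨hl1, hℓ1, hA₁ℓ, hKℓ, hll, hexp⟩ := hl₂ l ((le_max_left _ _).trans ((le_max_right _ _).trans hl))
  have hl₀ : l₀ ≤ l := (le_max_left _ _).trans ((le_max_left _ _).trans hl)
  have hl₁ : l₁ ≤ l := (le_max_right _ _).trans ((le_max_left _ _).trans hl)
  have hY₀ : Y₀ ≤ l := (le_max_right _ _).trans ((le_max_right _ _).trans hl)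
  have hl0 : 0 < l := by linarith
  set ℓ : ℝ := Real.log l with hℓ
  have hℓ0 : 0 < ℓ := by linarith
  have hℓsq : ℓ ≤ ℓ ^ 2 := by nlinarith only [hℓ1]
  have hlℓ : l ≤ l * ℓ ^ 2 := le_mul_of_one_le_right hl0.le (by nlinarith only [hℓ1])
  refine ⟨Real.exp (l * ℓ ^ 2), ?_, ?_⟩
  · linarith [Real.add_one_le_exp (l * ℓ ^ 2)]
  intro X hX1 hX2
  have hX0 : (0 : ℝ) < X := lt_of_lt_of_le (Real.exp_pos _) hX1
  set L : ℝ := Real.log X with hL
  have hL1 : l * ℓ ^ 2 ≤ L := (Real.le_log_iff_exp_le hX0).2 hX1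
  have hlogY : Real.log (Real.log (Real.exp (l * ℓ ^ 2))) ≤ 3 * ℓ := by
    rw [Real.log_exp, Real.log_mul (by positivity) (by positivity), Real.log_pow]
    have h1 : Real.log ℓ ≤ ℓ := (Real.log_le_sub_one_of_pos hℓ0).trans (by linarith)
    push_cast
    linarith
  have hlogY0 : 0 ≤ Real.log (Real.log (Real.exp (l * ℓ ^ 2))) := by
    rw [Real.log_exp]
    exact Real.log_nonneg (by linarith)
  have hL2 : L ≤ 3 ^ A * l * ℓ ^ (A + 2) := by
    have h1 : L ≤ Real.log (Real.exp (l * ℓ ^ 2) ^ (Real.log (Real.log (Real.exp (l * ℓ ^ 2))) ^ A)) := Real.log_le_log hX0 hX2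
    rw [Real.log_rpow (Real.exp_pos _), Real.log_exp] at h1
    rw [Real.log_exp] at hlogY hlogY0
    have h2 : Real.log (l * ℓ ^ 2) ^ A ≤ (3 * ℓ) ^ A := pow_le_pow_left₀ hlogY0 hlogY A
    calc L ≤ Real.log (l * ℓ ^ 2) ^ A * (l * ℓ ^ 2) := h1
      _ ≤ (3 * ℓ) ^ A * (l * ℓ ^ 2) := mul_le_mul_of_nonneg_right h2 (by positivity)
      _ = 3 ^ A * l * ℓ ^ (A + 2) := by rw [mul_pow]; ring
  have hL0 : 0 < L := by linarith
  have hu : ℓ ≤ Real.log L := Real.log_le_log hl0 (by linarith)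
  have hXexp : Real.exp (l * ℓ ^ 2) ≤ X := hX1
  have hlℓℓ : l * ℓ * 1 ≤ l * ℓ ^ 2 := by nlinarith only [mul_nonneg hl0.le (sub_nonneg.2 hℓsq)]
  have h1lℓ : 1 ≤ l * ℓ := one_le_mul_of_one_le_of_one_le hl1 hℓ1
  have hXbig : (4 : ℝ) ≤ X := by
    have h1 : (3 : ℝ) ≤ ℓ := by
      have : (0 : ℝ) ≤ ((k + 1 : ℕ) : ℝ) := Nat.cast_nonneg _
      linarith
    have h2 : (9 : ℝ) ≤ l * ℓ ^ 2 := by
      have h3 : (9 : ℝ) ≤ ℓ ^ 2 := by nlinarith only [h1]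
      have h4 : ℓ ^ 2 ≤ l * ℓ ^ 2 := le_mul_of_one_le_left (by positivity) hl1
      linarith
    linarith [Real.add_one_le_exp (l * ℓ ^ 2)]
  have hXp : (X : ℝ) / 2 ≤ ((4 * X / 5 : ℕ) : ℝ) := by
    have h1 : 4 * X < 5 * (4 * X / 5) + 5 := by omega
    have h2 : (4 : ℝ) * X < 5 * ((4 * X / 5 : ℕ) : ℝ) + 5 := by exact_mod_cast h1
    linarith
  have hSD : SD2 D l (4 * X / 5) := by
    apply hGD' l hl₁ hNZ
    · refine le_trans ?_ hXp
      rw [le_div_iff₀ (by norm_num)]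
      have h2 : (2 : ℝ) ≤ Real.exp 1 := by linarith [Real.add_one_le_exp (1 : ℝ)]
      calc Real.exp (A₁ * l * Real.log l) * 2 ≤ Real.exp (A₁ * l * Real.log l) * Real.exp 1 := mul_le_mul_of_nonneg_left h2 (Real.exp_pos _).le
        _ = Real.exp (A₁ * l * ℓ + 1) := by rw [← Real.exp_add]
        _ ≤ Real.exp (l * ℓ ^ 2) := by
            apply Real.exp_le_exp.2
            have h3 : l * ℓ * (A₁ + 1) ≤ l * ℓ * ℓ := mul_le_mul_of_nonneg_left hA₁ℓ (by positivity)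
            nlinarith only [h3, h1lℓ]
        _ ≤ X := hX1
    · refine le_trans ?_ hll
      have h1 : ((16 * (4 * X / 5) + 1 : ℕ) : ℝ) ≤ 16 * X := by
        have h2 : 5 * (4 * X / 5) ≤ 4 * X := Nat.mul_div_le (4 * X) 5
        have h3 : 5 * ((4 * X / 5 : ℕ) : ℝ) ≤ 4 * X := by exact_mod_cast h2
        rw [Nat.cast_add, Nat.cast_mul]
        push_cast at h3 ⊢
        linarith
      have h2 : Real.log (16 * X : ℝ) ≤ 3 + L := by
        rw [Real.log_mul (by norm_num) hX0.ne']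
        have h3 : Real.log 16 ≤ 3 := by
          have h4 : Real.log 16 = 4 * Real.log 2 := by
            rw [show (16 : ℝ) = 2 ^ 4 by norm_num, Real.log_pow]
            norm_num
          rw [h4]
          have := Real.log_two_lt_d9
          linarith
        linarith
      have h3 : (0 : ℝ) < ((16 * (4 * X / 5) + 1 : ℕ) : ℝ) := by exact_mod_cast Nat.succ_pos _
      exact (Real.log_le_log h3 h1).trans (by linarith)
  have hmain := h5 l hl₀ X (by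
    refine le_trans (Real.exp_le_exp.2 ?_) hX1
    have h1 : ((k + 1 : ℕ) : ℝ) + 3 ≤ ℓ ^ 2 := hKℓ.trans hℓsq
    nlinarith only [h1, hl0, mul_le_mul_of_nonneg_right h1 hl0.le]) (by linarith) hSD
  refine hmain.trans ?_
  apply mul_le_mul_of_nonneg_left _ (by positivity)
  refine hexp.trans ?_
  apply Real.exp_le_exp.2
  have h1 : L / Real.log L ^ (A + B + 4) ≤ 3 ^ A * l / ℓ ^ (B + 2) := by
    have h2 : 0 < ℓ ^ (A + B + 4) := by positivity
    calc L / Real.log L ^ (A + B + 4) ≤ L / ℓ ^ (A + B + 4) :=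
          div_le_div_of_nonneg_left hL0.le h2 (pow_le_pow_left₀ hℓ0.le hu _)
      _ ≤ (3 ^ A * l * ℓ ^ (A + 2)) / ℓ ^ (A + B + 4) := div_le_div_of_nonneg_right hL2 h2.le
      _ = 3 ^ A * l / ℓ ^ (B + 2) := by
          have e : ℓ ^ (A + B + 4) = ℓ ^ (A + 2) * ℓ ^ (B + 2) := by rw [← pow_add]; congr 1; ring
          rw [e]
          field_simp
  linarith

end Pool.Agent.J4H32.MV
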