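import Pool.Agent.J4H32.MV.Main2
import Pool.Agent.J4H32.MV.X5
import Pool.Agent.J4H81.GB.MainX

/-!
# Project GY: the asymptotic formula for mixed systems (helpers 32 and 81, with helpers 6, 17, 18, 19, 45, 57, 68, 79, 98)
-/

set_option autoImplicit false

namespace Pool.Agent.J4H32.MV

open Finset Filter
open Pool.Agent.J4H81.GB

open Classical in
/-- the asymptotic formula for the number of the `n` in `(X, 2 X]` for which `n` and all the `x_i - n` and `n + x_i` (according to the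
sign) are prime, for all but few vectors `x`, for `X` in long ranges -/
theorem mainGY (k A B : ℕ) (σ : Fin k → Bool) : ∀ Y₀ : ℝ, ∃ Y : ℝ, Y₀ ≤ Y ∧ ∀ X : ℕ, Y ≤ X → (X : ℝ) ≤ Y ^ (Real.log (Real.log Y) ^ A) →
    (((Fintype.piFinset (fun i : Fin k => rgX (σ i) X)).filter (fun m => AdX σ m ∧
      1 / Real.log (Real.log X) ^ B * (SSZ (es σ m) * X / Real.log X ^ (k + 1)) < |(CnX σ m X : ℝ) - SSZ (es σ m) * X / Real.log X ^ (k + 1)|)).card : ℝ) ≤
      (X : ℝ) ^ k * Real.exp (-(Real.log X / Real.log (Real.log X) ^ (A + B + 4))) :=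
  fin6X u_TE (Pool.Agent.J4H98.GB.t_MZ.1 u_MD) Pool.Agent.J4H98.GB.t_EV Pool.Agent.J4H17.GB.t_REF
    (Pool.Agent.J4H98.GB.t_MZ.2 u_MB) Pool.Agent.J4H6.MV.t_CN Pool.Agent.J4H68.MV.t_PS Pool.Agent.J4H68.MV.t_RK t_GD2 k A B σ

end Pool.Agent.J4H32.MV
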