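import Pool.Agent.J4H81.PT.GMb

/-!
# Project MV: correlations of the model, exact statements (helper32)
-/

set_option autoImplicit false

namespace Pool.Agent.J4H32.MV

open Finset
open Pool.Agent.J4H81.PT (GG TV hq QQ)

/-- the local factor of the model: `hq q n` is the product of the `lf p n` over the prime factors `p` of `q` -/
noncomputable def lf (p : ℕ) (n : ℤ) : ℝ := if (p : ℤ) ∣ n then -1 else 1 / ((p : ℝ) - 1)

/-- local means -/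
noncomputable def ml {J : ℕ} (W p : ℕ) (C : Fin J → ℕ) (S : Finset (Fin J)) : ℝ :=
  (∑ s ∈ range p, ∏ j ∈ S, lf p ((C j + W * s : ℕ) : ℤ)) / p

/-- sum of `1 / p` over the prime factors `p > w` of `h` -/
noncomputable def Sg (w : ℕ) (h : ℤ) : ℝ := ∑ p ∈ h.natAbs.primeFactors.filter (fun p => w < p), 1 / (p : ℝ)

/-- (PV) a periodic function against a weight (Abel summation) -/
def S_PV : Prop := ∀ (L T : ℕ) (Φ V : ℕ → ℝ), 1 ≤ L → (∀ s, Φ (s + L) = Φ s) → (∀ s, |Φ s| ≤ 1) → V T = 0 →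
  |∑ s ∈ range T, V s * Φ s - (∑ s ∈ range L, Φ s) / L * ∑ s ∈ range T, V s| ≤ 2 * L * TV V T

/-- (CR) the mean of a product of periodic functions with different prime periods -/
def S_CR : Prop := ∀ (S : Finset ℕ) (φ : ℕ → ℕ → ℝ), (∀ p ∈ S, p.Prime) → (∀ p ∈ S, ∀ s, φ p (s + p) = φ p s) →
  (∑ s ∈ range (∏ p ∈ S, p), ∏ p ∈ S, φ p s) / ((∏ p ∈ S, p : ℕ) : ℝ) = ∏ p ∈ S, ((∑ s ∈ range p, φ p s) / (p : ℝ))

/-- (LM) local means: zero for one shift, `O (1 / p)` for at least two, `O (1 / p ^ 2)` if they differ modulo `p` -/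
def S_LM : Prop := ∀ (J W p : ℕ) (C : Fin J → ℕ) (S : Finset (Fin J)), p.Prime → ¬ p ∣ W →
  (S.card = 1 → ml W p C S = 0) ∧
  (2 ≤ S.card → |ml W p C S| ≤ ((J : ℝ) + 2) / p) ∧
  (2 ≤ S.card → (∀ i ∈ S, ∀ j ∈ S, i ≠ j → ¬ (p : ℤ) ∣ (C i : ℤ) - C j) → |ml W p C S| ≤ ((J : ℝ) + 2) / ((p : ℝ) - 1) ^ 2)

open Classical in
/-- (MC) correlations of the model in terms of the local means -/
def S_MC : Prop := ∀ (W Q J T : ℕ) (C : Fin J → ℕ) (V x : ℕ → ℝ), 1 ≤ Q → V T = 0 → (∀ s, 0 ≤ V s) → (∀ p, 0 ≤ x p) →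
  (∀ p : ℕ, p.Prime → p ≤ Q → ¬ p ∣ W → ∑ S ∈ (univ : Finset (Finset (Fin J))).filter (fun S => S.Nonempty), |ml W p C S| ≤ x p) →
  |∑ s ∈ range T, V s * ∏ j, GG W Q ((C j + W * s : ℕ) : ℤ) - ∑ s ∈ range T, V s| ≤
    (∏ p ∈ (range (Q + 1)).filter (fun p => p.Prime ∧ ¬ p ∣ W), (1 + x p) - 1) * ∑ s ∈ range T, V s + 2 * (Q : ℝ) ^ (2 * J) * TV V T

/-- (MD) correlations of the model for different shifts -/
def S_MD : Prop := ∀ (W Q J T w : ℕ) (C : Fin J → ℕ) (V : ℕ → ℝ), 1 ≤ Q → 2 ≤ w → (∀ p : ℕ, p.Prime → p ≤ w → p ∣ W) →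
  V T = 0 → (∀ s, 0 ≤ V s) → Function.Injective C →
  |∑ s ∈ range T, V s * ∏ j, GG W Q ((C j + W * s : ℕ) : ℤ) - ∑ s ∈ range T, V s| ≤
    (Real.exp (2 ^ J * ((J : ℝ) + 2) * (2 / w + ∑ i : Fin J, ∑ j : Fin J, Sg w ((C i : ℤ) - C j))) - 1) * ∑ s ∈ range T, V s +
      2 * (Q : ℝ) ^ (2 * J) * TV V T

/-- (MM) moments of the model (the shifts may coincide) -/
def S_MM : Prop := ∀ (W Q J T : ℕ) (C : Fin J → ℕ) (V : ℕ → ℝ), 1 ≤ Q → V T = 0 → (∀ s, 0 ≤ V s) →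
  |∑ s ∈ range T, V s * ∏ j, GG W Q ((C j + W * s : ℕ) : ℤ)| ≤
    Real.exp (2 ^ J * ((J : ℝ) + 2) * ∑ p ∈ (range (Q + 1)).filter Nat.Prime, 1 / (p : ℝ)) * ∑ s ∈ range T, V s +
      2 * (Q : ℝ) ^ (2 * J) * TV V T

end Pool.Agent.J4H32.MV
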