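import Pool.Agent.J4H81.PT.XGg

/-!
# Project MV: scales with a good model, exact statements (helper32)
-/

set_option autoImplicit false

namespace Pool.Agent.J4H32.MV

open Finset MeasureTheory Filter
open DirichletCharacter
open Pool.Agent.J4H81.PT
open Pool.Agent.J4H81.PT.ZF (NoZ ExZ)

/-- the data at a scale `l`: primes in the classes modulo `W` have a good model -/
structure SDat (η : ℝ) (D : ℕ) (l : ℝ) (y w W T Q P N₁ : ℕ) (ω c : ℕ → ℝ) (B₀ m₀ Et : ℝ) : Prop where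
  hW : W = primorial w
  hw1 : l / 2000 ≤ w
  hw2 : (w : ℝ) ≤ l
  hWl : (W : ℝ) ≤ Real.exp (l / 700)
  hT : T = (y + 1) / W
  hQ1 : 1 ≤ Q
  hQl : (Q : ℝ) ≤ Real.exp (l / 40)
  hP1 : 1 ≤ P
  hω : Wt ω (W * T) N₁
  hc0 : ∀ n, 0 ≤ c n
  hcB : ∀ n, c n ≤ B₀
  hcN : ∀ n, W * T ≤ n → c n = 0
  hcp : ∀ n, c n ≠ 0 → n.Prime
  hmass : ∀ r < W, (1 - η) * T ≤ ∑ s ∈ range T, ω (r + W * s)
  hm0 : 0 ≤ m₀
  hm1 : m₀ ≤ T * Real.exp (-(l / 200))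
  hm : ∀ θ : ℝ, (∀ q : ℕ, 1 ≤ q → q ≤ P → ∀ a : ℤ, (P : ℝ) / (W * T : ℕ) < |θ - a / q|) → ‖hat (cx (hc W Q c ω)) (W * T) θ‖ ≤ m₀
  hB1 : 1 ≤ B₀
  hBD : B₀ ^ D ≤ Real.exp (l / 1000)
  hEt : ∫ θ in (0 : ℝ)..1, {θ : ℝ | W * θ ∈ MA P ((P : ℝ) / T)}.indicator (fun θ => ‖hat (cx (hc W Q c ω)) (W * T) θ‖ ^ 2) θ ≤ Et
  hEt1 : Et * (B₀ ^ D * l ^ D) ≤ (W * T : ℕ)

/-- there is a good model at the scale `l` for the integers up to `y` -/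
def SD (η : ℝ) (D : ℕ) (l : ℝ) (y : ℕ) : Prop :=
  ∃ (w W T Q P N₁ : ℕ) (ω c : ℕ → ℝ) (B₀ m₀ Et : ℝ), SDat η D l y w W T Q P N₁ ω c B₀ m₀ Et

/-- (GD) good scales: the first half of the proof of `Pool.Agent.J4H81.PT.final_step` (file FCd), `c n = nu n * om n`, `B₀ = log N` -/
def S_GD : Prop := ∀ (c₀ η : ℝ) (D : ℕ), 0 < c₀ → c₀ ≤ 1 → 0 < η → η ≤ 1 / 2 →
  ∃ A l₀ : ℝ, 1 ≤ A ∧ ∀ l : ℝ, l₀ ≤ l → NoZ c₀ l → ∀ y : ℕ, Real.exp (A * l * Real.log l) ≤ y → Real.log (y + 1 : ℕ) ≤ l ^ 2 →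
    SD η D l y

/-- (EX) exceptional scales: the first half of the proof of `Pool.Agent.J4H81.PT.exc_step` (file XGd), `B₀ = 2 * log N / rr b N` -/
def S_EX : Prop := ∀ (η : ℝ) (D : ℕ), 0 < η → η ≤ 1 / 2 →
  ∃ A l₀ : ℝ, 1 ≤ A ∧ ∀ l : ℝ, l₀ ≤ l → ∀ (q₁ : ℕ) [NeZero q₁] (χ₁ : DirichletCharacter ℂ q₁) (b d : ℝ),
    χ₁ ^ 2 = 1 → χ₁.IsPrimitive → χ₁ ≠ 1 → (q₁ : ℝ) ≤ Real.exp (l / 20000) → 0 < b → b ≤ 1 / 8 → Real.exp (-(l / (100000 * ((D : ℝ) + 1)))) ≤ b →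
    LFunction χ₁ ((1 - b : ℝ) : ℂ) = 0 → 1 / l ^ 2 ≤ d → d ≤ 1 / 8 → ZR q₁ χ₁ b d l →
    ∀ y : ℕ, Real.exp (101 * l) ≤ y → Real.log (y + 1 : ℕ) ≤ l ^ 2 → d * Real.log (y + 1 : ℕ) ≤ 2 * l →
      A * (Real.log l - Real.log b) ≤ d * Real.log y → SD η D l y

/-- (CH) the choice of the scale, as in `Pool.Agent.J4H81.PT.main_all` (files XGf, XGg), for `scale_choice` with
`l = L / (log L) ^ 8`, `m = L / (log L) ^ 12`, `L = log X` -/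
def S_CH : Prop := ∀ (η : ℝ) (D : ℕ), 0 < η → η ≤ 1 / 2 → ∃ X₀ : ℝ, ∀ X : ℕ, X₀ ≤ X →
  ∃ l : ℝ, Real.log X / Real.log (Real.log X) ^ 12 ≤ l ∧ l ≤ Real.log X / Real.log (Real.log X) ^ 4 ∧ SD η D l (4 * X)

end Pool.Agent.J4H32.MV
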