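import Pool.Agent.J4H32.MV.X1
import Pool.Agent.Y843.HS.Top
import Pool.Agent.Helper256.KM.Mertens

/-!
# Project SZ: sifted sets and singular series (helper32)
-/

set_option autoImplicit false

namespace Pool.Agent.J4H32.MV

open Finset Filter
open Pool.Agent.J4H81.PT hiding VV
open Pool.Agent.Y843.HS (Pr VV S_FIN)

/-- Mertens -/
theorem mert : ∃ C : ℝ, 1 ≤ C ∧ ∀ N : ℕ, 3 ≤ N → ∏ p ∈ (range (N + 1)).filter Nat.Prime, (1 - 1 / (p : ℝ)) ≤ C / Real.log N := by
  obtain ⟨C₀, h⟩ := Pool.Agent.Helper256.KM.mertens_inv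
  refine ⟨max 1 (Real.exp C₀), le_max_left _ _, fun N hN => ?_⟩
  have hset : (Finset.Icc 1 N).filter Nat.Prime = (range (N + 1)).filter Nat.Prime := by
    ext p
    simp only [Finset.mem_filter, Finset.mem_Icc, Finset.mem_range]
    constructor
    · rintro ⟨⟨h1, h2⟩, h3⟩; exact ⟨by omega, h3⟩
    · rintro ⟨h1, h2⟩; exact ⟨⟨h2.one_lt.le, by omega⟩, h2⟩
  have h1 := (abs_le.1 (h N hN)).1
  rw [hset] at h1
  have hN3 : (3 : ℝ) ≤ N := by exact_mod_cast hN
  have hlog : 1 ≤ Real.log N := by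
    rw [Real.le_log_iff_exp_le (by linarith)]
    have := Real.exp_one_lt_d9
    linarith
  have h2 : ∏ p ∈ (range (N + 1)).filter Nat.Prime, (1 - 1 / (p : ℝ)) ≤ Real.exp (-(∑ p ∈ (range (N + 1)).filter Nat.Prime, 1 / (p : ℝ))) := by
    rw [← sum_neg_distrib, Real.exp_sum]
    apply Finset.prod_le_prod
    · intro p hp
      rw [Finset.mem_filter] at hp
      have hp2 : (2 : ℝ) ≤ p := by exact_mod_cast hp.2.two_le
      have : 1 / (p : ℝ) ≤ 1 := by rw [div_le_one (by linarith)]; linarith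
      linarith
    · intro p _
      have := Real.add_one_le_exp (-(1 / (p : ℝ)))
      linarith
  refine h2.trans ?_
  have h3 : Real.exp (-(∑ p ∈ (range (N + 1)).filter Nat.Prime, 1 / (p : ℝ))) ≤ Real.exp (C₀ + -(Real.log (Real.log N))) :=
    Real.exp_le_exp.2 (by linarith)
  refine h3.trans ?_
  rw [Real.exp_add, Real.exp_neg, Real.exp_log (by linarith), ← div_eq_mul_inv]
  exact div_le_div_of_nonneg_right (le_max_right _ _) (by linarith)

/-- at most one large prime factor -/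
theorem Sg_small {M R : ℕ} {h : ℤ} (hh : h.natAbs ≤ M) (hR1 : 1 ≤ R) (hR : M < (R + 1) ^ 2) : Sg R h ≤ 1 / (R : ℝ) := by
  unfold Sg
  set F : Finset ℕ := h.natAbs.primeFactors.filter (fun p => R < p) with hF
  have hcard : F.card ≤ 1 := by
    rw [card_le_one]
    intro p hp q hq
    rw [hF, Finset.mem_filter, Nat.mem_primeFactors] at hp hq
    by_contra hne
    have hcop : p.Coprime q := (Nat.coprime_primes hp.1.1 hq.1.1).2 hne
    have h1 : p * q ∣ h.natAbs := hcop.mul_dvd_of_dvd_of_dvd hp.1.2.1 hq.1.2.1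
    have h2 : p * q ≤ h.natAbs := Nat.le_of_dvd (Nat.pos_of_ne_zero hp.1.2.2) h1
    have h3 : (R + 1) * (R + 1) ≤ p * q := Nat.mul_le_mul hp.2 hq.2
    have h4 : (R + 1) ^ 2 = (R + 1) * (R + 1) := by ring
    omega
  have hR0 : (0 : ℝ) < R := by exact_mod_cast hR1
  calc ∑ p ∈ F, 1 / (p : ℝ) ≤ ∑ p ∈ F, 1 / (R : ℝ) := by
        apply sum_le_sum
        intro p hp
        rw [hF, Finset.mem_filter] at hp
        apply one_div_le_one_div_of_le hR0
        exact_mod_cast hp.2.le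
    _ = F.card * (1 / (R : ℝ)) := by rw [sum_const, nsmul_eq_mul]
    _ ≤ 1 * (1 / (R : ℝ)) := by
        apply mul_le_mul_of_nonneg_right _ (by positivity)
        exact_mod_cast hcard
    _ = 1 / (R : ℝ) := one_mul _

/-- the classes modulo `p` in which one of the `n + a_j` is divisible by `p` -/
def Zs {K : ℕ} (a : Fin K → ℤ) (p : ℕ) : Finset ℕ := (range p).filter (fun c => ∃ j, (p : ℤ) ∣ (c : ℤ) + a j)

theorem Zs_card {K : ℕ} (a : Fin K → ℤ) {p : ℕ} (hp : 0 < p) : (Zs a p).card = nuZ a p := by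
  unfold nuZ
  have hp0 : (0 : ℤ) < p := by exact_mod_cast hp
  have e : (Zs a p).image (fun c : ℕ => (-(c : ℤ)) % (p : ℤ)) = (univ : Finset (Fin K)).image (fun j => a j % (p : ℤ)) := by
    ext y
    rw [Finset.mem_image, Finset.mem_image]
    constructor
    · rintro ⟨c, hc, rfl⟩
      unfold Zs at hc
      rw [Finset.mem_filter] at hc
      obtain ⟨-, j, hj⟩ := hc
      refine ⟨j, Finset.mem_univ j, ?_⟩
      have : (a j) ≡ -(c : ℤ) [ZMOD p] := by
        apply Int.ModEq.symm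
        rw [Int.modEq_iff_dvd]
        have e2 : a j - -(c : ℤ) = (c : ℤ) + a j := by ring
        rw [e2]
        exact hj
      exact this
    · rintro ⟨j, -, rfl⟩
      have h0 : 0 ≤ (-(a j)) % (p : ℤ) := Int.emod_nonneg _ hp0.ne'
      have h1 : (-(a j)) % (p : ℤ) < p := Int.emod_lt_of_pos _ hp0
      have h2 : (((-(a j)) % (p : ℤ)).toNat : ℤ) = (-(a j)) % (p : ℤ) := Int.toNat_of_nonneg h0
      refine ⟨((-(a j)) % (p : ℤ)).toNat, ?_, ?_⟩
      · unfold Zs
        rw [Finset.mem_filter, Finset.mem_range]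
        refine ⟨by omega, j, ?_⟩
        rw [h2]
        have h3 : (-(a j)) % (p : ℤ) + a j ≡ -(a j) + a j [ZMOD p] := (Int.mod_modEq _ _).add_right _
        rw [neg_add_cancel] at h3
        exact (Int.modEq_zero_iff_dvd).1 h3
      · rw [h2]
        have h3 : -((-(a j)) % (p : ℤ)) ≡ -(-(a j)) [ZMOD p] := (Int.mod_modEq _ _).neg
        rw [neg_neg] at h3
        exact h3
  rw [← e]
  symm
  apply card_image_of_injOn
  intro c hc c' hc' h
  unfold Zs at hc hc'
  rw [Finset.mem_coe, Finset.mem_filter, Finset.mem_range] at hc hc'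
  have h1 : -(c : ℤ) ≡ -(c' : ℤ) [ZMOD p] := h
  have h2 : (c : ℤ) ≡ c' [ZMOD p] := by
    have := h1.neg
    rwa [neg_neg, neg_neg] at this
  have h3 : c ≡ c' [MOD p] := (Int.natCast_modEq_iff).1 h2
  exact Nat.ModEq.eq_of_lt_of_lt h3 hc.1 hc'.1

/-- the density of the sifted set in terms of the singular series -/
theorem VV_eq {K : ℕ} (a : Fin K → ℤ) (R : ℕ) : VV (Zs a) 0 R = SWZ R a * (∏ p ∈ (range (R + 1)).filter Nat.Prime, (1 - 1 / (p : ℝ))) ^ K := by
  unfold Pool.Agent.Y843.HS.VV SWZ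
  have hset : Pr 0 R = (range (R + 1)).filter Nat.Prime := by
    unfold Pr
    ext p
    simp only [Finset.mem_filter, Finset.mem_Ioc, Finset.mem_range]
    constructor
    · rintro ⟨⟨h1, h2⟩, h3⟩; exact ⟨by omega, h3⟩
    · rintro ⟨h1, h2⟩; exact ⟨⟨h2.pos, by omega⟩, h2⟩
  rw [hset, ← prod_pow, ← prod_mul_distrib]
  refine prod_congr rfl fun p hp => ?_
  rw [Finset.mem_filter] at hp
  unfold facZ
  rw [Zs_card a hp.2.pos]
  have hp2 : (2 : ℝ) ≤ p := by exact_mod_cast hp.2.two_le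
  have h1 : (1 - 1 / (p : ℝ)) ^ K ≠ 0 := by
    apply pow_ne_zero
    have : 1 / (p : ℝ) ≤ 1 / 2 := one_div_le_one_div_of_le (by norm_num) hp2
    linarith
  rw [div_mul_cancel₀ _ h1]

end Pool.Agent.J4H32.MV
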