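import Pool.Agent.J4H32.MV.Sz1
import Pool.Agent.J4H32.MV.MainGY

/-!
# Project SZ: progressions of solutions for all but few mixed systems (helper32)
-/

set_option autoImplicit false

namespace Pool.Agent.J4H32.MV

open Finset Filter
open Pool.Agent.J4H81.PT hiding VV
open Pool.Agent.J4H81.GB
open Pool.Agent.Y843.HS (Pr S_FIN)

/-- the `n` in the window such that all the forms are primes -/
def PX {k : ℕ} (σ : Fin k → Bool) (x : Fin k → ℕ) (X : ℕ) : Finset ℕ := (Ioc X (2 * X)).filter (fun n => ∀ j, (fj σ x n j).Prime)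

theorem PX_card {k : ℕ} (σ : Fin k → Bool) (x : Fin k → ℕ) (X : ℕ) : (PX σ x X).card = CnX σ x X := rfl

/-- every dense subset has a progression of length `J` with a small difference -/
def GoodSz {k : ℕ} (σ : Fin k → Bool) (x : Fin k → ℕ) (X J B : ℕ) (η : ℝ) : Prop :=
  ∀ S ⊆ PX σ x X, η * (PX σ x X).card ≤ S.card → ∃ a d : ℕ, 1 ≤ d ∧ (d : ℝ) ≤ Real.log X ^ B ∧ ∀ j < J, a + j * d ∈ S

/-- divisibility of the forms -/
theorem fj_dvd {k n p : ℕ} {σ : Fin k → Bool} {x : Fin k → ℕ} (hn : ∀ i, σ i = true → n ≤ x i) (j : Fin (k + 1)) :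
    (p : ℤ) ∣ (n : ℤ) + es σ x j ↔ p ∣ fj σ x n j := by
  refine Fin.cases ?_ (fun i => ?_) j
  · rw [es_zero, add_zero, fj_zero]
    exact Int.natCast_dvd_natCast
  · cases hσ : σ i
    · rw [es_false x hσ, fj_false x n hσ, ← Nat.cast_add]
      exact Int.natCast_dvd_natCast
    · rw [es_true x hσ, fj_true x n hσ, ← Int.natCast_dvd_natCast (m := p), Nat.cast_sub (hn i hσ), ← dvd_neg]
      have e : -((n : ℤ) + -(x i : ℤ)) = (x i : ℤ) - n := by ring
      rw [e]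

/-- one vector -/
theorem one_sz {k : ℕ} {η CM : ℝ} (hη : 0 < η) (hCM : 1 ≤ CM)
    (hM : ∀ N : ℕ, 3 ≤ N → ∏ p ∈ (range (N + 1)).filter Nat.Prime, (1 - 1 / (p : ℝ)) ≤ CM / Real.log N)
    {CT : ℝ} (hCT : 1 ≤ CT) (hTL : ∀ (w : ℕ) (a : Fin (k + 1) → ℤ) (a' : Fin (k + 1) → ℕ) (c : ℤ) (ε : ℝ), (∀ j, (a' j : ℤ) = a j + c) → 1 ≤ w → 0 ≤ ε →
      Function.Injective a → (∀ i j, Sg w (a i - a j) ≤ ε) → CT * (1 / w + ε) ≤ 1 → |SSZ a - SWZ w a| ≤ CT * (1 / w + ε) * SWZ w a)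
    {J B X₀ : ℕ}
    (hFIN : ∀ X A : ℕ, X₀ ≤ X → ∀ Z : ℕ → Finset ℕ, (∀ p : ℕ, p.Prime → (p : ℝ) ≤ (X : ℝ) ^ (2 / 3 : ℝ) →
      (Z p).card ≤ k + 1 ∧ (Z p).card < p ∧ ∀ c ∈ Z p, c < p) →
      ∀ S : Finset ℕ, S ⊆ Ioc A (A + X) → (∀ n ∈ S, ∀ p : ℕ, p.Prime → (p : ℝ) ≤ (X : ℝ) ^ (2 / 3 : ℝ) → n % p ∉ Z p) →
      η / (8 * (2 * CM) ^ (k + 1)) * X * Pool.Agent.Y843.HS.VV Z 0 ⌊(X : ℝ) ^ (2 / 3 : ℝ)⌋₊ ≤ S.card →
      ∃ a d : ℕ, 1 ≤ d ∧ (d : ℝ) ≤ Real.log X ^ B ∧ ∀ j < J, a + j * d ∈ S)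
    (σ : Fin k → Bool) {X : ℕ} (hX₀ : X₀ ≤ X) (hX1 : (600 : ℝ) ≤ X) (hX2 : 4 * CT ≤ (X : ℝ) ^ (1 / 2 : ℝ)) (hX3 : (X : ℝ) ^ (1 / 2 : ℝ) ≤ (X : ℝ) ^ (2 / 3 : ℝ) - 1)
    {x : Fin k → ℕ} (hx : ∀ i, x i ∈ rgX (σ i) X) (hAd : AdX σ x) (hinj : Function.Injective (es σ x))
    (hcnt : 1 / 2 * (SSZ (es σ x) * X / Real.log X ^ (k + 1)) ≤ CnX σ x X) : GoodSz σ x X J B η := by
  intro S hS hSη
  have hX0 : (0 : ℝ) < X := by linarith
  set R : ℕ := ⌊(X : ℝ) ^ (2 / 3 : ℝ)⌋₊ with hR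
  have hR1 : (X : ℝ) ^ (2 / 3 : ℝ) < R + 1 := Nat.lt_floor_add_one _
  have hR2 : (R : ℝ) ≤ (X : ℝ) ^ (2 / 3 : ℝ) := Nat.floor_le (by positivity)
  have hR3 : (X : ℝ) ^ (1 / 2 : ℝ) ≤ R := by linarith
  have hRR : 4 * CT ≤ R := hX2.trans hR3
  have hR0 : (0 : ℝ) < R := by linarith
  have hRpos : 1 ≤ R := by exact_mod_cast hR0
  have hR3' : 3 ≤ R := by
    have : (3 : ℝ) ≤ R := by linarith
    exact_mod_cast this
  have hx4 : ∀ i, x i ≤ 4 * X := by
    intro i
    cases hσ : σ i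
    · have := rgX_false hσ (hx i); omega
    · exact (rgX_true hσ (hx i)).2
  have hx3 : ∀ i, σ i = true → 3 * X < x i := fun i hσ => (rgX_true hσ (hx i)).1
  -- the singular series and its part up to `R`
  have hes : ∀ j, |es σ x j| ≤ 4 * X := by
    intro j
    refine Fin.cases ?_ (fun i => ?_) j
    · rw [es_zero]; simp
    · have h1 : ((x i : ℕ) : ℤ) ≤ 4 * X := by exact_mod_cast hx4 i
      have h0 : (0 : ℤ) ≤ x i := Int.natCast_nonneg _
      cases hσ : σ i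
      · rw [es_false x hσ, abs_of_nonneg h0]; exact h1
      · rw [es_true x hσ, abs_neg, abs_of_nonneg h0]; exact h1
  have hSg : ∀ i j, Sg R (es σ x i - es σ x j) ≤ 1 / (R : ℝ) := by
    intro i j
    apply Sg_small (M := 8 * X) _ hRpos
    · have h1 : ((8 * X : ℕ) : ℝ) < ((R + 1) ^ 2 : ℕ) := by
        push_cast
        have h2 : (X : ℝ) ^ (4 / 3 : ℝ) = ((X : ℝ) ^ (2 / 3 : ℝ)) ^ 2 := by
          rw [← Real.rpow_natCast, ← Real.rpow_mul hX0.le]; norm_num
        have h3 : (X : ℝ) ^ (4 / 3 : ℝ) < (R + 1) ^ 2 := by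
          rw [h2]
          exact pow_lt_pow_left₀ hR1 (by positivity) (by norm_num)
        have h4 : 8 * (X : ℝ) ≤ (X : ℝ) ^ (4 / 3 : ℝ) := by
          have h5 : (X : ℝ) ^ (4 / 3 : ℝ) = X * (X : ℝ) ^ (1 / 3 : ℝ) := by
            rw [← Real.rpow_one_add' hX0.le (by norm_num)]; norm_num
          have h6 : (8 : ℝ) ≤ (X : ℝ) ^ (1 / 3 : ℝ) := by
            have h7 : (8 : ℝ) = ((8 : ℝ) ^ 3) ^ (1 / 3 : ℝ) := by
              rw [← Real.rpow_natCast, ← Real.rpow_mul (by norm_num)]; norm_num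
            have h9 : (8 : ℝ) ^ 3 ≤ X := by
              have h10 : (8 : ℝ) ^ 3 = 512 := by norm_num
              rw [h10]
              linarith
            rw [h7]
            exact Real.rpow_le_rpow (by norm_num) h9 (by norm_num)
          rw [h5]
          nlinarith
        linarith
      exact_mod_cast h1
    · have h1 := hes i
      have h2 := hes j
      have h3 : |es σ x i - es σ x j| ≤ 8 * X := by
        have := abs_sub (es σ x i) (es σ x j)
        linarith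
      have h4 : ((es σ x i - es σ x j).natAbs : ℤ) ≤ ((8 * X : ℕ) : ℤ) := by
        rw [Int.natCast_natAbs]
        push_cast
        exact h3
      exact_mod_cast h4
  have hcast : ∀ j, (((es σ x j + 4 * X).toNat : ℕ) : ℤ) = es σ x j + 4 * X := by
    intro j
    apply Int.toNat_of_nonneg
    have h1 := hes j
    have h2 := neg_abs_le (es σ x j)
    linarith
  have hγ : CT * (1 / R + 1 / R) ≤ 1 / 2 := by
    have : CT * (1 / R + 1 / R) = 2 * CT / R := by ring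
    rw [this, div_le_div_iff₀ hR0 (by norm_num)]
    linarith
  have hTL' := hTL R (es σ x) (fun j => (es σ x j + 4 * X).toNat) (4 * X) (1 / R) hcast hRpos (by positivity) hinj hSg (by linarith)
  -- the sifted set
  have hadm : ∀ p : ℕ, p.Prime → (Zs (es σ x) p).card ≤ k + 1 ∧ (Zs (es σ x) p).card < p ∧ ∀ c ∈ Zs (es σ x) p, c < p := by
    intro p hp
    refine ⟨?_, ?_, ?_⟩
    · rw [Zs_card _ hp.pos]
      unfold nuZ
      refine card_image_le.trans ?_
      rw [card_univ, Fintype.card_fin]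
    · obtain ⟨r, hr⟩ := hAd p hp
      have h1 : Zs (es σ x) p ⊂ range p := by
        rw [Finset.ssubset_iff_of_subset (by unfold Zs; exact filter_subset _ _)]
        refine ⟨r % p, Finset.mem_range.2 (Nat.mod_lt _ hp.pos), ?_⟩
        unfold Zs
        rw [Finset.mem_filter]
        rintro ⟨-, j, hj⟩
        apply hr j
        have h2 : (r : ℤ) ≡ ((r % p : ℕ) : ℤ) [ZMOD p] := by
          rw [Int.natCast_modEq_iff]
          exact (Nat.mod_modEq _ _).symm
        have h3 := (h2.add_right (es σ x j)).dvd_iff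
        exact h3.2 hj
      have h2 := card_lt_card h1
      rwa [card_range] at h2
    · intro c hc
      unfold Zs at hc
      exact Finset.mem_range.1 (Finset.mem_filter.1 hc).1
  have hsw : 0 ≤ SWZ R (es σ x) := by
    unfold SWZ
    apply prod_nonneg
    intro p hp
    rw [Finset.mem_filter] at hp
    have h1 := (hadm p hp.2).2.1
    rw [Zs_card _ hp.2.pos] at h1
    have hp2 : (2 : ℝ) ≤ p := by exact_mod_cast hp.2.two_le
    have h2 : (nuZ (es σ x) p : ℝ) ≤ p := by exact_mod_cast h1.le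
    unfold facZ
    have h3 : 1 / (p : ℝ) ≤ 1 / 2 := one_div_le_one_div_of_le (by norm_num) hp2
    have h4 : (nuZ (es σ x) p : ℝ) / p ≤ 1 := by rw [div_le_one (by linarith)]; exact h2
    apply div_nonneg (by linarith)
    apply pow_nonneg
    linarith
  have hSW : SWZ R (es σ x) ≤ 2 * SSZ (es σ x) := by
    have h1 := (abs_le.1 hTL').1
    have h2 := mul_le_mul_of_nonneg_right hγ hsw
    linarith
  have hss : 0 ≤ SSZ (es σ x) := by linarith
  have hlogX : 0 < Real.log X := Real.log_pos (by linarith)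
  have hVV : Pool.Agent.Y843.HS.VV (Zs (es σ x)) 0 R ≤ 2 * SSZ (es σ x) * ((2 * CM) ^ (k + 1) / Real.log X ^ (k + 1)) := by
    rw [VV_eq]
    have h1 : ∏ p ∈ (range (R + 1)).filter Nat.Prime, (1 - 1 / (p : ℝ)) ≤ 2 * CM / Real.log X := by
      refine (hM R hR3').trans ?_
      have h2 : 1 / 2 * Real.log X ≤ Real.log R := by
        rw [← Real.log_rpow hX0]
        exact Real.log_le_log (by positivity) hR3
      have h3 : CM / Real.log R ≤ CM / (1 / 2 * Real.log X) := div_le_div_of_nonneg_left (by linarith) (by positivity) h2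
      refine h3.trans (le_of_eq ?_)
      field_simp
    have h0 : 0 ≤ ∏ p ∈ (range (R + 1)).filter Nat.Prime, (1 - 1 / (p : ℝ)) := by
      apply prod_nonneg
      intro p hp
      rw [Finset.mem_filter] at hp
      have hp2 : (2 : ℝ) ≤ p := by exact_mod_cast hp.2.two_le
      have : 1 / (p : ℝ) ≤ 1 := by rw [div_le_one (by linarith)]; linarith
      linarith
    have h4 := pow_le_pow_left₀ h0 h1 (k + 1)
    rw [div_pow] at h4
    exact mul_le_mul hSW h4 (pow_nonneg h0 _) (by positivity)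
  -- the application
  have hwin : ∀ n ∈ S, X < n ∧ n ≤ 2 * X ∧ ∀ j, (fj σ x n j).Prime := by
    intro n hn
    have := hS hn
    unfold PX at this
    rw [Finset.mem_filter, Finset.mem_Ioc] at this
    exact ⟨this.1.1, this.1.2, this.2⟩
  apply hFIN X X hX₀ (Zs (es σ x)) (fun p hp _ => hadm p hp) S
  · intro n hn
    have := hwin n hn
    rw [Finset.mem_Ioc]
    omega
  · intro n hn p hp hpX hmem
    obtain ⟨h1, h2, h3⟩ := hwin n hn
    unfold Zs at hmem
    rw [Finset.mem_filter] at hmem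
    obtain ⟨-, j, hj⟩ := hmem
    have hnx : ∀ i, σ i = true → n ≤ x i := by
      intro i hσ
      have := hx3 i hσ
      omega
    have h4 : (p : ℤ) ∣ (n : ℤ) + es σ x j := by
      have h5 : (n : ℤ) ≡ ((n % p : ℕ) : ℤ) [ZMOD p] := by
        rw [Int.natCast_modEq_iff]
        exact (Nat.mod_modEq _ _).symm
      have h6 := (h5.add_right (es σ x j)).dvd_iff
      exact h6.2 hj
    rw [fj_dvd hnx] at h4
    have h5 : p = fj σ x n j := (Nat.prime_dvd_prime_iff_eq hp (h3 j)).1 h4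
    have h6 := (fj_range hx h1 h2 j).1
    have h7 : (X : ℝ) ≤ (X : ℝ) ^ (2 / 3 : ℝ) := by
      refine le_trans ?_ hpX
      rw [h5]
      exact_mod_cast h6
    have h8 : (X : ℝ) ^ (2 / 3 : ℝ) < (X : ℝ) ^ (1 : ℝ) := Real.rpow_lt_rpow_of_exponent_lt (by linarith) (by norm_num)
    rw [Real.rpow_one] at h8
    linarith
  · have h1 : η / (8 * (2 * CM) ^ (k + 1)) * X * Pool.Agent.Y843.HS.VV (Zs (es σ x)) 0 R ≤
        η / (8 * (2 * CM) ^ (k + 1)) * X * (2 * SSZ (es σ x) * ((2 * CM) ^ (k + 1) / Real.log X ^ (k + 1))) :=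
      mul_le_mul_of_nonneg_left hVV (by positivity)
    refine h1.trans ?_
    have e : η / (8 * (2 * CM) ^ (k + 1)) * X * (2 * SSZ (es σ x) * ((2 * CM) ^ (k + 1) / Real.log X ^ (k + 1))) =
        η / 4 * (SSZ (es σ x) * X / Real.log X ^ (k + 1)) := by
      field_simp
      ring
    rw [e]
    have h2 : 0 ≤ SSZ (es σ x) * X / Real.log X ^ (k + 1) := by positivity
    have h3 : η * (1 / 2 * (SSZ (es σ x) * X / Real.log X ^ (k + 1))) ≤ η * (CnX σ x X : ℝ) := mul_le_mul_of_nonneg_left hcnt hη.le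
    rw [PX_card] at hSη
    have h4 : 0 ≤ η * (SSZ (es σ x) * X / Real.log X ^ (k + 1)) := mul_nonneg hη.le h2
    linarith

end Pool.Agent.J4H32.MV
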