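import Pool.Agent.J4H32.MV.Sz2

/-!
# Project SZ: progressions of solutions for all but few mixed systems, conclusion (helper32)
-/

set_option autoImplicit false

namespace Pool.Agent.J4H32.MV

open Finset Filter
open Pool.Agent.J4H81.PT hiding VV
open Pool.Agent.J4H81.GB
open Pool.Agent.Y843.HS (Pr S_FIN)

/-- the facts about a large `X` -/
theorem ev_sz (A : ℕ) (C CT : ℝ) : ∀ᶠ X : ℕ in atTop, (600 : ℝ) ≤ X ∧ 4 * CT ≤ (X : ℝ) ^ (1 / 2 : ℝ) ∧ (X : ℝ) ^ (1 / 2 : ℝ) ≤ (X : ℝ) ^ (2 / 3 : ℝ) - 1 ∧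
    2 ≤ Real.log (Real.log X) ∧
    Real.exp (-(Real.log X / Real.log (Real.log X) ^ (A + 5))) + C / X ≤ Real.exp (-(Real.log X / Real.log (Real.log X) ^ (A + 6))) := by
  have hcast : Tendsto (fun X : ℕ => (X : ℝ)) atTop atTop := tendsto_natCast_atTop_atTop
  have hlog : Tendsto (fun X : ℕ => Real.log (X : ℝ)) atTop atTop := Real.tendsto_log_atTop.comp hcast
  have hloglog : Tendsto (fun X : ℕ => Real.log (Real.log (X : ℝ))) atTop atTop := Real.tendsto_log_atTop.comp hlog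
  have h12 := (tendsto_rpow_atTop (show (0 : ℝ) < 1 / 2 by norm_num)).comp hcast
  have h16 := (tendsto_rpow_atTop (show (0 : ℝ) < 1 / 6 by norm_num)).comp hcast
  filter_upwards [hcast.eventually (eventually_ge_atTop (600 : ℝ)), h12.eventually (eventually_ge_atTop (4 * CT)),
    h12.eventually (eventually_ge_atTop (1 : ℝ)), h16.eventually (eventually_ge_atTop (2 : ℝ)), hloglog.eventually (eventually_ge_atTop (2 : ℝ)),
    hlog.eventually (ev_log 4 (A + 5)), h12.eventually (eventually_ge_atTop (2 * |C|))] with X h1 h2 h3 h4 h5 h6 h7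
  simp only [Function.comp] at h2 h3 h4 h7
  have hX0 : (0 : ℝ) < X := by linarith
  refine ⟨h1, h2, ?_, h5, ?_⟩
  · have e : (X : ℝ) ^ (2 / 3 : ℝ) = (X : ℝ) ^ (1 / 2 : ℝ) * (X : ℝ) ^ (1 / 6 : ℝ) := by
      rw [← Real.rpow_add hX0]; norm_num
    rw [e]
    nlinarith
  · set L : ℝ := Real.log X with hL
    set u : ℝ := Real.log L with hu
    have hu0 : 0 < u := by linarith
    have hL0 : 0 < L := Real.log_pos (by linarith)
    have hLu : 4 ≤ L / u ^ (A + 5) := by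
      rw [le_div_iff₀ (by positivity)]
      exact h6
    have e1 : L / u ^ (A + 6) = L / u ^ (A + 5) / u := by
      rw [pow_succ u (A + 5), div_div]
    have h8 : L / u ^ (A + 6) ≤ L / u ^ (A + 5) / 2 := by
      rw [e1]
      exact div_le_div_of_nonneg_left (by positivity) (by norm_num) h5
    have hexp2 : (2 : ℝ) ≤ Real.exp 2 := by linarith [Real.add_one_le_exp (2 : ℝ)]
    have h9 : Real.exp (-(L / u ^ (A + 5))) ≤ 1 / 2 * Real.exp (-(L / u ^ (A + 6))) := by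
      have h10 : Real.exp (-(L / u ^ (A + 5))) ≤ Real.exp (-2 + -(L / u ^ (A + 6))) := Real.exp_le_exp.2 (by linarith)
      rw [Real.exp_add] at h10
      have h11 : Real.exp (-2) ≤ 1 / 2 := by
        rw [Real.exp_neg, ← one_div]
        exact one_div_le_one_div_of_le (by norm_num) hexp2
      exact h10.trans (mul_le_mul_of_nonneg_right h11 (Real.exp_pos _).le)
    have h10 : C / X ≤ 1 / 2 * Real.exp (-(L / u ^ (A + 6))) := by
      have h11 : Real.exp (-(L / 2)) ≤ Real.exp (-(L / u ^ (A + 6))) := by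
        apply Real.exp_le_exp.2
        have h12 : (2 : ℝ) ≤ u ^ (A + 6) := by
          calc (2 : ℝ) ≤ u := h5
            _ ≤ u ^ (A + 6) := le_self_pow₀ (by linarith) (by omega)
        have := div_le_div_of_nonneg_left hL0.le (by norm_num : (0 : ℝ) < 2) h12
        linarith
      have h12 : Real.exp (-(L / 2)) = 1 / (X : ℝ) ^ (1 / 2 : ℝ) := by
        rw [Real.rpow_def_of_pos hX0, Real.exp_neg, ← one_div]
        congr 2
        rw [← hL]
        ring
      rw [h12] at h11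
      refine le_trans ?_ (mul_le_mul_of_nonneg_left h11 (by norm_num))
      have h13 : (X : ℝ) = (X : ℝ) ^ (1 / 2 : ℝ) * (X : ℝ) ^ (1 / 2 : ℝ) := by
        rw [← Real.rpow_add hX0]; norm_num
      have h14 : 0 < (X : ℝ) ^ (1 / 2 : ℝ) := by positivity
      have h15 : C ≤ |C| := le_abs_self C
      rw [div_le_iff₀ hX0]
      have e2 : 1 / 2 * (1 / (X : ℝ) ^ (1 / 2 : ℝ)) * X = 1 / 2 * (X : ℝ) ^ (1 / 2 : ℝ) := by
        conv_lhs => rw [show (1 / 2 * (1 / (X : ℝ) ^ (1 / 2 : ℝ)) * X : ℝ) = 1 / 2 * (X / (X : ℝ) ^ (1 / 2 : ℝ)) by ring]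
        congr 1
        rw [div_eq_iff h14.ne']
        exact h13
      rw [e2]
      linarith
    linarith

open Classical in
/-- Szemerédi's theorem in the set of solutions for all but few mixed systems -/
theorem szGY (k A J : ℕ) (σ : Fin k → Bool) (η : ℝ) (hη : 0 < η) : ∃ B : ℕ, ∀ Y₀ : ℝ, ∃ Y : ℝ, Y₀ ≤ Y ∧ ∀ X : ℕ, Y ≤ X → (X : ℝ) ≤ Y ^ (Real.log (Real.log Y) ^ A) →
    (((Fintype.piFinset (fun i : Fin k => rgX (σ i) X)).filter (fun x => AdX σ x ∧ ¬ GoodSz σ x X J B η)).card : ℝ) ≤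
      (X : ℝ) ^ k * Real.exp (-(Real.log X / Real.log (Real.log X) ^ (A + 6))) := by
  obtain ⟨CM, hCM, hM⟩ := mert
  obtain ⟨CT, hCT, hTL⟩ := TLZ (k + 1)
  have hδ : 0 < η / (8 * (2 * CM) ^ (k + 1)) := by
    have : 0 < CM := by linarith
    positivity
  obtain ⟨B, X₀, hFIN⟩ := Pool.Agent.Y843.HS.fin J (k + 1) (2 / 3) (η / (8 * (2 * CM) ^ (k + 1))) (by norm_num) hδ
  obtain ⟨X₁, hX₁⟩ := eventually_atTop.1 (ev_sz A (17 * ((k : ℝ) + 1) ^ 2 * 4 ^ k) CT)
  refine ⟨B, fun Y₀ => ?_⟩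
  obtain ⟨Y, hY, hYX⟩ := mainGY k A 1 σ (max Y₀ (max X₀ X₁))
  refine ⟨Y, (le_max_left _ _).trans hY, fun X h1 h2 => ?_⟩
  have hXX₀ : X₀ ≤ X := by
    have : (X₀ : ℝ) ≤ X := ((le_max_left _ _).trans (le_max_right _ _)).trans (hY.trans h1)
    exact_mod_cast this
  have hXX₁ : X₁ ≤ X := by
    have : (X₁ : ℝ) ≤ X := ((le_max_right _ _).trans (le_max_right _ _)).trans (hY.trans h1)
    exact_mod_cast this
  obtain ⟨g1, g2, g3, g4, g5⟩ := hX₁ X hXX₁
  have hX0 : (0 : ℝ) < X := by linarith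
  have hXpos : 1 ≤ X := by exact_mod_cast hX0
  have hmain := hYX X h1 h2
  have hbd := BDY Pool.Agent.J4H68.MV.t_RK k (⌈Real.log X⌉₊ + 1) X σ 1 (by omega) hXpos
  set Bx : Finset (Fin k → ℕ) := Fintype.piFinset (fun i : Fin k => rgX (σ i) X) with hBx
  have hsub : Bx.filter (fun x => AdX σ x ∧ ¬ GoodSz σ x X J B η) ⊆
      Bx.filter (fun m => AdX σ m ∧
        1 / Real.log (Real.log X) ^ 1 * (SSZ (es σ m) * X / Real.log X ^ (k + 1)) < |(CnX σ m X : ℝ) - SSZ (es σ m) * X / Real.log X ^ (k + 1)|) ∪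
      Bx.filter (fun x => ∃ i j : Fin (k + 1), i ≠ j ∧
        (es σ x i = es σ x j ∨ 1 < Sg (⌈Real.log X⌉₊ + 1) (es σ x i - es σ x j))) := by
    intro x hx
    rw [Finset.mem_filter] at hx
    obtain ⟨hxB, hAd, hbad⟩ := hx
    rw [Finset.mem_union, Finset.mem_filter, Finset.mem_filter]
    by_cases hinj : Function.Injective (es σ x)
    · left
      refine ⟨hxB, hAd, ?_⟩
      by_contra hcon
      push Not at hcon
      apply hbad
      have hxr : ∀ i, x i ∈ rgX (σ i) X := Fintype.mem_piFinset.1 hxB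
      refine one_sz hη hCM hM hCT hTL hFIN σ hXX₀ g1 g2 g3 hxr hAd hinj ?_
      set M' : ℝ := SSZ (es σ x) * X / Real.log X ^ (k + 1) with hM'
      rw [pow_one] at hcon
      have h3 : 0 ≤ M' := by
        by_contra hneg
        push Not at hneg
        have h4 := (abs_nonneg _).trans hcon
        have h5 : 0 < 1 / Real.log (Real.log X) := by positivity
        have := mul_neg_of_pos_of_neg h5 hneg
        linarith
      have h4 : 1 / Real.log (Real.log X) ≤ 1 / 2 := one_div_le_one_div_of_le (by norm_num) g4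
      have h5 := mul_le_mul_of_nonneg_right h4 h3
      have h6 := (abs_le.1 hcon).1
      linarith
    · right
      refine ⟨hxB, ?_⟩
      unfold Function.Injective at hinj
      push Not at hinj
      obtain ⟨i, j, hij, hne⟩ := hinj
      exact ⟨i, j, hne, Or.inl hij⟩
  have hcard := (Nat.cast_le (α := ℝ)).2 ((card_le_card hsub).trans (card_union_le _ _))
  rw [Nat.cast_add] at hcard
  refine hcard.trans ((add_le_add hmain hbd).trans ?_)
  have hXk : 0 < (X : ℝ) ^ k := by positivity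
  have hw : Real.exp (-(1 * ((⌈Real.log X⌉₊ + 1 : ℕ) : ℝ))) ≤ 1 / X := by
    have h3 : Real.log X ≤ ((⌈Real.log X⌉₊ + 1 : ℕ) : ℝ) := by
      push_cast
      linarith [Nat.le_ceil (Real.log X)]
    have h4 : 1 / (X : ℝ) = Real.exp (-(Real.log X)) := by rw [Real.exp_neg, Real.exp_log hX0, one_div]
    rw [h4]
    exact Real.exp_le_exp.2 (by linarith)
  have h3 : ((k : ℝ) + 1) ^ 2 * ((4 * (X : ℝ)) ^ k / (4 * X) + 16 * (4 * (X : ℝ)) ^ k * Real.exp (-(1 * ((⌈Real.log X⌉₊ + 1 : ℕ) : ℝ)))) ≤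
      (X : ℝ) ^ k * (17 * ((k : ℝ) + 1) ^ 2 * 4 ^ k / X) := by
    have h4 : (4 * (X : ℝ)) ^ k / (4 * X) ≤ 4 ^ k * (X : ℝ) ^ k * (1 / X) := by
      rw [mul_pow, mul_one_div]
      exact div_le_div_of_nonneg_left (by positivity) hX0 (by linarith)
    have h5 : 16 * (4 * (X : ℝ)) ^ k * Real.exp (-(1 * ((⌈Real.log X⌉₊ + 1 : ℕ) : ℝ))) ≤ 16 * (4 ^ k * (X : ℝ) ^ k) * (1 / X) := by
      rw [mul_pow]
      exact mul_le_mul_of_nonneg_left hw (by positivity)
    calc _ ≤ ((k : ℝ) + 1) ^ 2 * (4 ^ k * (X : ℝ) ^ k * (1 / X) + 16 * (4 ^ k * (X : ℝ) ^ k) * (1 / X)) :=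
          mul_le_mul_of_nonneg_left (add_le_add h4 h5) (by positivity)
      _ = _ := by ring
  have h4 := mul_le_mul_of_nonneg_left g5 hXk.le
  have e5 : A + 1 + 4 = A + 5 := by omega
  rw [e5]
  refine (add_le_add le_rfl h3).trans ?_
  rw [← mul_add]
  exact h4

end Pool.Agent.J4H32.MV
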