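import Pool.Agent.J4H32.MV.Sz3
import Pool.Agent.J4H32.MV.Eng
import Pool.Agent.J4H32.MV.Lo

/-!
# Project SZ: many progressions of solutions with one difference, for all but few mixed systems (helper32)
-/

set_option autoImplicit false

namespace Pool.Agent.J4H32.MV

open Finset Filter
open Pool.Agent.J4H81.PT hiding VV
open Pool.Agent.J4H81.GB
open Pool.Agent.Y843.HS (Pr S_FIN)

/-- every dense subset has many progressions of length `J + 1` with one small difference -/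
def GoodSc {k : ℕ} (σ : Fin k → Bool) (x : Fin k → ℕ) (X J B : ℕ) (η : ℝ) : Prop :=
  ∀ S ⊆ PX σ x X, η * (PX σ x X).card ≤ S.card → ∃ d : ℕ, 1 ≤ d ∧ (d : ℝ) ≤ Real.log X ^ B ∧
    (X : ℝ) ^ (99 / 100 : ℝ) ≤ ((S.filter (fun a => ∀ j ≤ J, a + j * d ∈ S)).card : ℝ)

theorem Pf_one (Z : ℕ → Finset ℕ) (y : ℕ) : ∏ p ∈ Eng.Pf 1 y, (1 - ((Z p).card : ℝ) / p) = Pool.Agent.Y843.HS.VV Z 0 y := by
  unfold Pool.Agent.Y843.HS.VV
  congr 1
  unfold Eng.Pf Pr
  ext p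
  simp only [Finset.mem_filter, Finset.mem_Icc, Finset.mem_Ioc]
  constructor
  · rintro ⟨⟨h1, h2⟩, h3, -⟩
    exact ⟨⟨by omega, h2⟩, h3⟩
  · rintro ⟨⟨h1, h2⟩, h3⟩
    refine ⟨⟨by omega, h2⟩, h3, ?_⟩
    intro h
    exact h3.one_lt.ne' (Nat.dvd_one.1 h)

/-- one vector -/
theorem one_sc {k : ℕ} {η CM : ℝ} (hη : 0 < η) (hCM : 1 ≤ CM)
    (hM : ∀ N : ℕ, 3 ≤ N → ∏ p ∈ (range (N + 1)).filter Nat.Prime, (1 - 1 / (p : ℝ)) ≤ CM / Real.log N)
    {CT : ℝ} (hCT : 1 ≤ CT) (hTL : ∀ (w : ℕ) (a : Fin (k + 1) → ℤ) (a' : Fin (k + 1) → ℕ) (c : ℤ) (ε : ℝ), (∀ j, (a' j : ℤ) = a j + c) → 1 ≤ w → 0 ≤ ε →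
      Function.Injective a → (∀ i j, Sg w (a i - a j) ≤ ε) → CT * (1 / w + ε) ≤ 1 → |SSZ a - SWZ w a| ≤ CT * (1 / w + ε) * SWZ w a)
    {J B : ℕ} {X : ℕ}
    (hENG : ∀ (W b : ℕ), 0 < W → (W : ℝ) ≤ (X : ℝ) ^ (1 / 600 : ℝ) → ∀ Z : ℕ → Finset ℕ,
      (∀ p : ℕ, p.Prime → ¬ p ∣ W → (p : ℝ) ≤ (X : ℝ) ^ (3 / 4 : ℝ) → (Z p).card ≤ k + 1 ∧ (Z p).card < p ∧ ∀ c ∈ Z p, c < p) →
      ∀ T : Finset ℕ, (∀ n ∈ T, n ≡ b [MOD W] ∧ n ≤ ⌊7 * (X : ℝ)⌋₊ ∧ (X : ℝ) < n ∧
        ∀ p : ℕ, p.Prime → ¬ p ∣ W → (p : ℝ) ≤ (X : ℝ) ^ (3 / 4 : ℝ) → n % p ∉ Z p) →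
      (X : ℝ) ^ (497 / 500 : ℝ) ≤ (T.card : ℝ) →
      η / (8 * (2 * CM) ^ (k + 1)) * (X / W * ∏ p ∈ Eng.Pf W ⌊(X : ℝ) ^ (2 / 3 : ℝ)⌋₊, (1 - ((Z p).card : ℝ) / p)) ≤ T.card →
      ∃ d : ℕ, 1 ≤ d ∧ (d : ℝ) ≤ (Real.log X) ^ B ∧
        (X : ℝ) ^ (99 / 100 : ℝ) ≤ ((T.filter (fun n => ∀ j ≤ J, n + j * (W * d) ∈ T)).card : ℝ))
    (hlow : (X : ℝ) ^ (497 / 500 : ℝ) ≤ η / 4 * ((1 / (2 * ((k + 1 : ℕ) : ℝ))) ^ (2 * (k + 1)) * Real.exp (-(4 * ((k + 1 : ℕ) : ℝ) ^ 2)) * X / Real.log X ^ (k + 1)))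
    (σ : Fin k → Bool) (hX1 : (600 : ℝ) ≤ X) (hX2 : 4 * CT ≤ (X : ℝ) ^ (1 / 2 : ℝ)) (hX3 : (X : ℝ) ^ (1 / 2 : ℝ) ≤ (X : ℝ) ^ (2 / 3 : ℝ) - 1)
    {x : Fin k → ℕ} (hx : ∀ i, x i ∈ rgX (σ i) X) (hAd : AdX σ x) (hinj : Function.Injective (es σ x))
    (hcnt : 1 / 2 * (SSZ (es σ x) * X / Real.log X ^ (k + 1)) ≤ CnX σ x X) : GoodSc σ x X J B η := by
  intro S hS hSη
  have hX0 : (0 : ℝ) < X := by linarith
  set R : ℕ := ⌊(X : ℝ) ^ (2 / 3 : ℝ)⌋₊ with hR
  have hR1 : (X : ℝ) ^ (2 / 3 : ℝ) < R + 1 := Nat.lt_floor_add_one _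
  have hR2 : (R : ℝ) ≤ (X : ℝ) ^ (2 / 3 : ℝ) := Nat.floor_le (by positivity)
  have hR3 : (X : ℝ) ^ (1 / 2 : ℝ) ≤ R := by linarith
  have hRR : 4 * CT ≤ R := hX2.trans hR3
  have hR0 : (0 : ℝ) < R := by linarith
  have hRpos : 1 ≤ R := by exact_mod_cast hR0
  have hR3' : 3 ≤ R := by
    have : (3 : ℝ) ≤ R := by linarith
    exact_mod_cast this
  have hx4 : ∀ i, x i ≤ 4 * X := by
    intro i
    cases hσ : σ i
    · have := rgX_false hσ (hx i); omega
    · exact (rgX_true hσ (hx i)).2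
  have hx3 : ∀ i, σ i = true → 3 * X < x i := fun i hσ => (rgX_true hσ (hx i)).1
  -- the singular series and its part up to `R`
  have hes : ∀ j, |es σ x j| ≤ 4 * X := by
    intro j
    refine Fin.cases ?_ (fun i => ?_) j
    · rw [es_zero]; simp
    · have h1 : ((x i : ℕ) : ℤ) ≤ 4 * X := by exact_mod_cast hx4 i
      have h0 : (0 : ℤ) ≤ x i := Int.natCast_nonneg _
      cases hσ : σ i
      · rw [es_false x hσ, abs_of_nonneg h0]; exact h1
      · rw [es_true x hσ, abs_neg, abs_of_nonneg h0]; exact h1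
  have hSg : ∀ i j, Sg R (es σ x i - es σ x j) ≤ 1 / (R : ℝ) := by
    intro i j
    apply Sg_small (M := 8 * X) _ hRpos
    · have h1 : ((8 * X : ℕ) : ℝ) < ((R + 1) ^ 2 : ℕ) := by
        push_cast
        have h2 : (X : ℝ) ^ (4 / 3 : ℝ) = ((X : ℝ) ^ (2 / 3 : ℝ)) ^ 2 := by
          rw [← Real.rpow_natCast, ← Real.rpow_mul hX0.le]; norm_num
        have h3 : (X : ℝ) ^ (4 / 3 : ℝ) < (R + 1) ^ 2 := by
          rw [h2]
          exact pow_lt_pow_left₀ hR1 (by positivity) (by norm_num)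
        have h4 : 8 * (X : ℝ) ≤ (X : ℝ) ^ (4 / 3 : ℝ) := by
          have h5 : (X : ℝ) ^ (4 / 3 : ℝ) = X * (X : ℝ) ^ (1 / 3 : ℝ) := by
            rw [← Real.rpow_one_add' hX0.le (by norm_num)]; norm_num
          have h6 : (8 : ℝ) ≤ (X : ℝ) ^ (1 / 3 : ℝ) := by
            have h7 : (8 : ℝ) = ((8 : ℝ) ^ 3) ^ (1 / 3 : ℝ) := by
              rw [← Real.rpow_natCast, ← Real.rpow_mul (by norm_num)]; norm_num
            have h9 : (8 : ℝ) ^ 3 ≤ X := by
              have h10 : (8 : ℝ) ^ 3 = 512 := by norm_num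
              rw [h10]
              linarith
            rw [h7]
            exact Real.rpow_le_rpow (by norm_num) h9 (by norm_num)
          rw [h5]
          nlinarith
        linarith
      exact_mod_cast h1
    · have h1 := hes i
      have h2 := hes j
      have h3 : |es σ x i - es σ x j| ≤ 8 * X := by
        have := abs_sub (es σ x i) (es σ x j)
        linarith
      have h4 : ((es σ x i - es σ x j).natAbs : ℤ) ≤ ((8 * X : ℕ) : ℤ) := by
        rw [Int.natCast_natAbs]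
        push_cast
        exact h3
      exact_mod_cast h4
  have hcast : ∀ j, (((es σ x j + 4 * X).toNat : ℕ) : ℤ) = es σ x j + 4 * X := by
    intro j
    apply Int.toNat_of_nonneg
    have h1 := hes j
    have h2 := neg_abs_le (es σ x j)
    linarith
  have hγ : CT * (1 / R + 1 / R) ≤ 1 / 2 := by
    have : CT * (1 / R + 1 / R) = 2 * CT / R := by ring
    rw [this, div_le_div_iff₀ hR0 (by norm_num)]
    linarith
  have hTL' := hTL R (es σ x) (fun j => (es σ x j + 4 * X).toNat) (4 * X) (1 / R) hcast hRpos (by positivity) hinj hSg (by linarith)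
  -- the sifted set
  have hadm : ∀ p : ℕ, p.Prime → (Zs (es σ x) p).card ≤ k + 1 ∧ (Zs (es σ x) p).card < p ∧ ∀ c ∈ Zs (es σ x) p, c < p := by
    intro p hp
    refine ⟨?_, ?_, ?_⟩
    · rw [Zs_card _ hp.pos]
      unfold nuZ
      refine card_image_le.trans ?_
      rw [card_univ, Fintype.card_fin]
    · obtain ⟨r, hr⟩ := hAd p hp
      have h1 : Zs (es σ x) p ⊂ range p := by
        rw [Finset.ssubset_iff_of_subset (by unfold Zs; exact filter_subset _ _)]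
        refine ⟨r % p, Finset.mem_range.2 (Nat.mod_lt _ hp.pos), ?_⟩
        unfold Zs
        rw [Finset.mem_filter]
        rintro ⟨-, j, hj⟩
        apply hr j
        have h2 : (r : ℤ) ≡ ((r % p : ℕ) : ℤ) [ZMOD p] := by
          rw [Int.natCast_modEq_iff]
          exact (Nat.mod_modEq _ _).symm
        have h3 := (h2.add_right (es σ x j)).dvd_iff
        exact h3.2 hj
      have h2 := card_lt_card h1
      rwa [card_range] at h2
    · intro c hc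
      unfold Zs at hc
      exact Finset.mem_range.1 (Finset.mem_filter.1 hc).1
  have hsw : 0 ≤ SWZ R (es σ x) := by
    unfold SWZ
    apply prod_nonneg
    intro p hp
    rw [Finset.mem_filter] at hp
    have h1 := (hadm p hp.2).2.1
    rw [Zs_card _ hp.2.pos] at h1
    have hp2 : (2 : ℝ) ≤ p := by exact_mod_cast hp.2.two_le
    have h2 : (nuZ (es σ x) p : ℝ) ≤ p := by exact_mod_cast h1.le
    unfold facZ
    have h3 : 1 / (p : ℝ) ≤ 1 / 2 := one_div_le_one_div_of_le (by norm_num) hp2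
    have h4 : (nuZ (es σ x) p : ℝ) / p ≤ 1 := by rw [div_le_one (by linarith)]; exact h2
    apply div_nonneg (by linarith)
    apply pow_nonneg
    linarith
  have hSW : SWZ R (es σ x) ≤ 2 * SSZ (es σ x) := by
    have h1 := (abs_le.1 hTL').1
    have h2 := mul_le_mul_of_nonneg_right hγ hsw
    linarith
  have hss : 0 ≤ SSZ (es σ x) := by linarith
  have hlogX : 0 < Real.log X := Real.log_pos (by linarith)
  have hVV : Pool.Agent.Y843.HS.VV (Zs (es σ x)) 0 R ≤ 2 * SSZ (es σ x) * ((2 * CM) ^ (k + 1) / Real.log X ^ (k + 1)) := by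
    rw [VV_eq]
    have h1 : ∏ p ∈ (range (R + 1)).filter Nat.Prime, (1 - 1 / (p : ℝ)) ≤ 2 * CM / Real.log X := by
      refine (hM R hR3').trans ?_
      have h2 : 1 / 2 * Real.log X ≤ Real.log R := by
        rw [← Real.log_rpow hX0]
        exact Real.log_le_log (by positivity) hR3
      have h3 : CM / Real.log R ≤ CM / (1 / 2 * Real.log X) := div_le_div_of_nonneg_left (by linarith) (by positivity) h2
      refine h3.trans (le_of_eq ?_)
      field_simp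
    have h0 : 0 ≤ ∏ p ∈ (range (R + 1)).filter Nat.Prime, (1 - 1 / (p : ℝ)) := by
      apply prod_nonneg
      intro p hp
      rw [Finset.mem_filter] at hp
      have hp2 : (2 : ℝ) ≤ p := by exact_mod_cast hp.2.two_le
      have : 1 / (p : ℝ) ≤ 1 := by rw [div_le_one (by linarith)]; linarith
      linarith
    have h4 := pow_le_pow_left₀ h0 h1 (k + 1)
    rw [div_pow] at h4
    exact mul_le_mul hSW h4 (pow_nonneg h0 _) (by positivity)
  -- the application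
  have hwin : ∀ n ∈ S, X < n ∧ n ≤ 2 * X ∧ ∀ j, (fj σ x n j).Prime := by
    intro n hn
    have := hS hn
    unfold PX at this
    rw [Finset.mem_filter, Finset.mem_Ioc] at this
    exact ⟨this.1.1, this.1.2, this.2⟩
  have hlo : (1 / (2 * ((k + 1 : ℕ) : ℝ))) ^ (2 * (k + 1)) * Real.exp (-(4 * ((k + 1 : ℕ) : ℝ) ^ 2)) ≤ SWZ R (es σ x) := by
    apply SWZ_lo (by omega)
    intro p hp
    have h1 := (hadm p hp).2.1
    rwa [Zs_card _ hp.pos] at h1
  have hlo2 : SWZ R (es σ x) ≤ 2 * SSZ (es σ x) := hSW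
  have hPXS : η * (1 / 2 * (SSZ (es σ x) * X / Real.log X ^ (k + 1))) ≤ S.card := by
    rw [PX_card] at hSη
    exact (mul_le_mul_of_nonneg_left hcnt hη.le).trans hSη
  have hlk : 0 < Real.log X ^ (k + 1) := by positivity
  obtain ⟨d, hd1, hd2, hd3⟩ := hENG 1 0 one_pos (by
      rw [Nat.cast_one]
      exact Real.one_le_rpow (by linarith) (by norm_num)) (Zs (es σ x)) (fun p hp _ _ => hadm p hp) S (by
    intro n hn
    obtain ⟨h1, h2, h3⟩ := hwin n hn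
    refine ⟨Nat.modEq_one, ?_, by exact_mod_cast h1, ?_⟩
    · apply Nat.le_floor
      have : (n : ℝ) ≤ ((2 * X : ℕ) : ℝ) := by exact_mod_cast h2
      push_cast at this
      linarith
    · intro p hp _ hpX hmem
      unfold Zs at hmem
      rw [Finset.mem_filter] at hmem
      obtain ⟨-, j, hj⟩ := hmem
      have hnx : ∀ i, σ i = true → n ≤ x i := by
        intro i hσ
        have := hx3 i hσ
        omega
      have h4 : (p : ℤ) ∣ (n : ℤ) + es σ x j := by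
        have h5 : (n : ℤ) ≡ ((n % p : ℕ) : ℤ) [ZMOD p] := by
          rw [Int.natCast_modEq_iff]
          exact (Nat.mod_modEq _ _).symm
        have h6 := (h5.add_right (es σ x j)).dvd_iff
        exact h6.2 hj
      rw [fj_dvd hnx] at h4
      have h5 : p = fj σ x n j := (Nat.prime_dvd_prime_iff_eq hp (h3 j)).1 h4
      have h6 := (fj_range hx h1 h2 j).1
      have h7 : (X : ℝ) ≤ (X : ℝ) ^ (3 / 4 : ℝ) := by
        refine le_trans ?_ hpX
        rw [h5]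
        exact_mod_cast h6
      have h8 : (X : ℝ) ^ (3 / 4 : ℝ) < (X : ℝ) ^ (1 : ℝ) := Real.rpow_lt_rpow_of_exponent_lt (by linarith) (by norm_num)
      rw [Real.rpow_one] at h8
      linarith) (by
    refine hlow.trans (le_trans ?_ hPXS)
    have h1 : (1 / (2 * ((k + 1 : ℕ) : ℝ))) ^ (2 * (k + 1)) * Real.exp (-(4 * ((k + 1 : ℕ) : ℝ) ^ 2)) ≤ 2 * SSZ (es σ x) := hlo.trans hlo2
    have h2 : (1 / (2 * ((k + 1 : ℕ) : ℝ))) ^ (2 * (k + 1)) * Real.exp (-(4 * ((k + 1 : ℕ) : ℝ) ^ 2)) * X / Real.log X ^ (k + 1) ≤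
        2 * SSZ (es σ x) * X / Real.log X ^ (k + 1) := by
      apply div_le_div_of_nonneg_right _ hlk.le
      exact mul_le_mul_of_nonneg_right h1 hX0.le
    have h3 := mul_le_mul_of_nonneg_left h2 (show 0 ≤ η / 4 by positivity)
    refine h3.trans (le_of_eq ?_)
    ring) (by
    rw [Pf_one, Nat.cast_one, div_one, ← mul_assoc]
    have h1 : η / (8 * (2 * CM) ^ (k + 1)) * X * Pool.Agent.Y843.HS.VV (Zs (es σ x)) 0 R ≤
        η / (8 * (2 * CM) ^ (k + 1)) * X * (2 * SSZ (es σ x) * ((2 * CM) ^ (k + 1) / Real.log X ^ (k + 1))) :=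
      mul_le_mul_of_nonneg_left hVV (by positivity)
    refine h1.trans ?_
    have e : η / (8 * (2 * CM) ^ (k + 1)) * X * (2 * SSZ (es σ x) * ((2 * CM) ^ (k + 1) / Real.log X ^ (k + 1))) =
        η / 4 * (SSZ (es σ x) * X / Real.log X ^ (k + 1)) := by
      field_simp
      ring
    rw [e]
    have h2 : 0 ≤ SSZ (es σ x) * X / Real.log X ^ (k + 1) := by positivity
    have h4 : 0 ≤ η * (SSZ (es σ x) * X / Real.log X ^ (k + 1)) := mul_nonneg hη.le h2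
    linarith)
  refine ⟨d, hd1, hd2, hd3.trans (le_of_eq ?_)⟩
  simp only [one_mul]

open Classical in
/-- many progressions in every dense set of solutions, for all but few mixed systems -/
theorem scGY (k A J : ℕ) (σ : Fin k → Bool) (η : ℝ) (hη : 0 < η) : ∃ B : ℕ, ∀ Y₀ : ℝ, ∃ Y : ℝ, Y₀ ≤ Y ∧ ∀ X : ℕ, Y ≤ X → (X : ℝ) ≤ Y ^ (Real.log (Real.log Y) ^ A) →
    (((Fintype.piFinset (fun i : Fin k => rgX (σ i) X)).filter (fun x => AdX σ x ∧ ¬ GoodSc σ x X J B η)).card : ℝ) ≤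
      (X : ℝ) ^ k * Real.exp (-(Real.log X / Real.log (Real.log X) ^ (A + 6))) := by
  obtain ⟨CM, hCM, hM⟩ := mert
  obtain ⟨CT, hCT, hTL⟩ := TLZ (k + 1)
  have hδ : 0 < η / (8 * (2 * CM) ^ (k + 1)) := by
    have : 0 < CM := by linarith
    positivity
  obtain ⟨B, hB⟩ := Eng.engine J (k + 1) (3 / 4) (2 / 3) (η / (8 * (2 * CM) ^ (k + 1))) (by norm_num) (by norm_num) hδ
  obtain ⟨X₀, hX₀⟩ := eventually_atTop.1 ((tendsto_natCast_atTop_atTop (R := ℝ)).eventually hB)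
  have hev : ∀ᶠ X : ℕ in atTop, (X : ℝ) ^ (497 / 500 : ℝ) ≤ η / 4 * ((1 / (2 * ((k + 1 : ℕ) : ℝ))) ^ (2 * (k + 1)) *
      Real.exp (-(4 * ((k + 1 : ℕ) : ℝ) ^ 2)) * X / Real.log X ^ (k + 1)) := by
    have hcast : Tendsto (fun X : ℕ => (X : ℝ)) atTop atTop := tendsto_natCast_atTop_atTop
    set c : ℝ := η / 4 * ((1 / (2 * ((k + 1 : ℕ) : ℝ))) ^ (2 * (k + 1)) * Real.exp (-(4 * ((k + 1 : ℕ) : ℝ) ^ 2))) with hc
    have hc0 : 0 < c := by positivity
    filter_upwards [hcast.eventually (Eng.ev_log (1 / c) (k + 1) (3 / 500) (by norm_num)), hcast.eventually (eventually_ge_atTop (3 : ℝ))] with X h1 h2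
    have hX0 : (0 : ℝ) < X := by linarith
    have hl : 0 < Real.log X := Real.log_pos (by linarith)
    have e1 : η / 4 * ((1 / (2 * ((k + 1 : ℕ) : ℝ))) ^ (2 * (k + 1)) * Real.exp (-(4 * ((k + 1 : ℕ) : ℝ) ^ 2)) * X / Real.log X ^ (k + 1)) =
        c * X / Real.log X ^ (k + 1) := by rw [hc]; ring
    rw [e1, le_div_iff₀ (by positivity)]
    have e2 : (X : ℝ) = (X : ℝ) ^ (497 / 500 : ℝ) * (X : ℝ) ^ (3 / 500 : ℝ) := by
      rw [← Real.rpow_add hX0]
      norm_num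
    have h3 : Real.log X ^ (k + 1) ≤ c * (X : ℝ) ^ (3 / 500 : ℝ) := by
      have h4 := mul_le_mul_of_nonneg_left h1 hc0.le
      have e3 : c * (1 / c * Real.log X ^ (k + 1)) = Real.log X ^ (k + 1) := by field_simp
      rwa [e3] at h4
    calc (X : ℝ) ^ (497 / 500 : ℝ) * Real.log X ^ (k + 1) ≤ (X : ℝ) ^ (497 / 500 : ℝ) * (c * (X : ℝ) ^ (3 / 500 : ℝ)) :=
          mul_le_mul_of_nonneg_left h3 (by positivity)
      _ = c * ((X : ℝ) ^ (497 / 500 : ℝ) * (X : ℝ) ^ (3 / 500 : ℝ)) := by ring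
      _ = c * X := by rw [← e2]
  obtain ⟨X₂, hX₂⟩ := eventually_atTop.1 hev
  obtain ⟨X₁, hX₁⟩ := eventually_atTop.1 (ev_sz A (17 * ((k : ℝ) + 1) ^ 2 * 4 ^ k) CT)
  refine ⟨B, fun Y₀ => ?_⟩
  obtain ⟨Y, hY, hYX⟩ := mainGY k A 1 σ (max Y₀ (max (max X₀ X₂ : ℕ) X₁))
  refine ⟨Y, (le_max_left _ _).trans hY, fun X h1 h2 => ?_⟩
  have hXX₀₂ : max X₀ X₂ ≤ X := by
    have : ((max X₀ X₂ : ℕ) : ℝ) ≤ X := ((le_max_left _ _).trans (le_max_right _ _)).trans (hY.trans h1)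
    exact_mod_cast this
  have hXX₀ : X₀ ≤ X := (le_max_left _ _).trans hXX₀₂
  have hXX₂ : X₂ ≤ X := (le_max_right _ _).trans hXX₀₂
  have hXX₁ : X₁ ≤ X := by
    have : (X₁ : ℝ) ≤ X := ((le_max_right _ _).trans (le_max_right _ _)).trans (hY.trans h1)
    exact_mod_cast this
  obtain ⟨g1, g2, g3, g4, g5⟩ := hX₁ X hXX₁
  have hX0 : (0 : ℝ) < X := by linarith
  have hXpos : 1 ≤ X := by exact_mod_cast hX0
  have hmain := hYX X h1 h2
  have hbd := BDY Pool.Agent.J4H68.MV.t_RK k (⌈Real.log X⌉₊ + 1) X σ 1 (by omega) hXpos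
  set Bx : Finset (Fin k → ℕ) := Fintype.piFinset (fun i : Fin k => rgX (σ i) X) with hBx
  have hsub : Bx.filter (fun x => AdX σ x ∧ ¬ GoodSc σ x X J B η) ⊆
      Bx.filter (fun m => AdX σ m ∧
        1 / Real.log (Real.log X) ^ 1 * (SSZ (es σ m) * X / Real.log X ^ (k + 1)) < |(CnX σ m X : ℝ) - SSZ (es σ m) * X / Real.log X ^ (k + 1)|) ∪
      Bx.filter (fun x => ∃ i j : Fin (k + 1), i ≠ j ∧
        (es σ x i = es σ x j ∨ 1 < Sg (⌈Real.log X⌉₊ + 1) (es σ x i - es σ x j))) := by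
    intro x hx
    rw [Finset.mem_filter] at hx
    obtain ⟨hxB, hAd, hbad⟩ := hx
    rw [Finset.mem_union, Finset.mem_filter, Finset.mem_filter]
    by_cases hinj : Function.Injective (es σ x)
    · left
      refine ⟨hxB, hAd, ?_⟩
      by_contra hcon
      push Not at hcon
      apply hbad
      have hxr : ∀ i, x i ∈ rgX (σ i) X := Fintype.mem_piFinset.1 hxB
      refine one_sc hη hCM hM hCT hTL (hX₀ X hXX₀) (hX₂ X hXX₂) σ g1 g2 g3 hxr hAd hinj ?_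
      set M' : ℝ := SSZ (es σ x) * X / Real.log X ^ (k + 1) with hM'
      rw [pow_one] at hcon
      have h3 : 0 ≤ M' := by
        by_contra hneg
        push Not at hneg
        have h4 := (abs_nonneg _).trans hcon
        have h5 : 0 < 1 / Real.log (Real.log X) := by positivity
        have := mul_neg_of_pos_of_neg h5 hneg
        linarith
      have h4 : 1 / Real.log (Real.log X) ≤ 1 / 2 := one_div_le_one_div_of_le (by norm_num) g4
      have h5 := mul_le_mul_of_nonneg_right h4 h3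
      have h6 := (abs_le.1 hcon).1
      linarith
    · right
      refine ⟨hxB, ?_⟩
      unfold Function.Injective at hinj
      push Not at hinj
      obtain ⟨i, j, hij, hne⟩ := hinj
      exact ⟨i, j, hne, Or.inl hij⟩
  have hcard := (Nat.cast_le (α := ℝ)).2 ((card_le_card hsub).trans (card_union_le _ _))
  rw [Nat.cast_add] at hcard
  refine hcard.trans ((add_le_add hmain hbd).trans ?_)
  have hXk : 0 < (X : ℝ) ^ k := by positivity
  have hw : Real.exp (-(1 * ((⌈Real.log X⌉₊ + 1 : ℕ) : ℝ))) ≤ 1 / X := by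
    have h3 : Real.log X ≤ ((⌈Real.log X⌉₊ + 1 : ℕ) : ℝ) := by
      push_cast
      linarith [Nat.le_ceil (Real.log X)]
    have h4 : 1 / (X : ℝ) = Real.exp (-(Real.log X)) := by rw [Real.exp_neg, Real.exp_log hX0, one_div]
    rw [h4]
    exact Real.exp_le_exp.2 (by linarith)
  have h3 : ((k : ℝ) + 1) ^ 2 * ((4 * (X : ℝ)) ^ k / (4 * X) + 16 * (4 * (X : ℝ)) ^ k * Real.exp (-(1 * ((⌈Real.log X⌉₊ + 1 : ℕ) : ℝ)))) ≤
      (X : ℝ) ^ k * (17 * ((k : ℝ) + 1) ^ 2 * 4 ^ k / X) := by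
    have h4 : (4 * (X : ℝ)) ^ k / (4 * X) ≤ 4 ^ k * (X : ℝ) ^ k * (1 / X) := by
      rw [mul_pow, mul_one_div]
      exact div_le_div_of_nonneg_left (by positivity) hX0 (by linarith)
    have h5 : 16 * (4 * (X : ℝ)) ^ k * Real.exp (-(1 * ((⌈Real.log X⌉₊ + 1 : ℕ) : ℝ))) ≤ 16 * (4 ^ k * (X : ℝ) ^ k) * (1 / X) := by
      rw [mul_pow]
      exact mul_le_mul_of_nonneg_left hw (by positivity)
    calc _ ≤ ((k : ℝ) + 1) ^ 2 * (4 ^ k * (X : ℝ) ^ k * (1 / X) + 16 * (4 ^ k * (X : ℝ) ^ k) * (1 / X)) :=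
          mul_le_mul_of_nonneg_left (add_le_add h4 h5) (by positivity)
      _ = _ := by ring
  have h4 := mul_le_mul_of_nonneg_left g5 hXk.le
  have e5 : A + 1 + 4 = A + 5 := by omega
  rw [e5]
  refine (add_le_add le_rfl h3).trans ?_
  rw [← mul_add]
  exact h4

end Pool.Agent.J4H32.MV
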