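import Pool.Agent.J4H57.MV.Tl
import Pool.Agent.J4H79.MV.Nv

/-!
# Project GY: singular series of integral shifts (helper32)
-/

set_option autoImplicit false

namespace Pool.Agent.J4H32.MV

open Finset
open Pool.Agent.J4H81.PT

/-- the number of the residue classes modulo `p` occupied by the `a_j` -/
def nuZ {K : ℕ} (a : Fin K → ℤ) (p : ℕ) : ℕ := ((univ : Finset (Fin K)).image (fun j => a j % (p : ℤ))).card

/-- the factor of the singular series at `p` -/
noncomputable def facZ {K : ℕ} (a : Fin K → ℤ) (p : ℕ) : ℝ := (1 - (nuZ a p : ℝ) / p) / (1 - 1 / (p : ℝ)) ^ K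

/-- the singular series -/
noncomputable def SSZ {K : ℕ} (a : Fin K → ℤ) : ℝ := ∏' p : Nat.Primes, facZ a p

/-- the part at the primes up to `w` -/
noncomputable def SWZ {K : ℕ} (w : ℕ) (a : Fin K → ℤ) : ℝ := ∏ p ∈ (range (w + 1)).filter Nat.Prime, facZ a p

theorem nu_tr {K : ℕ} {a : Fin K → ℤ} {a' : Fin K → ℕ} {c : ℤ} (h : ∀ j, (a' j : ℤ) = a j + c) (p : ℕ) : nuP a' p = nuZ a p := by
  unfold nuP nuZ
  have e : (univ : Finset (Fin K)).image (fun j => ((a' j % p : ℕ) : ℤ)) = ((univ : Finset (Fin K)).image (fun j => a j % (p : ℤ))).image (fun x => (x + c) % (p : ℤ)) := by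
    rw [image_image]
    apply image_congr
    intro j _
    simp only [Function.comp]
    push_cast
    rw [h j, Int.emod_add_emod]
  have e2 : ((univ : Finset (Fin K)).image (fun j => ((a' j % p : ℕ) : ℤ))).card = ((univ : Finset (Fin K)).image (fun j => a' j % p)).card := by
    have : (univ : Finset (Fin K)).image (fun j => ((a' j % p : ℕ) : ℤ)) = ((univ : Finset (Fin K)).image (fun j => a' j % p)).image (fun n : ℕ => (n : ℤ)) := by
      rw [image_image]; rfl
    rw [this, card_image_of_injective _ Nat.cast_injective]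
  rw [← e2, e]
  apply card_image_of_injOn
  intro x hx y hy hxy
  simp only at hxy
  rw [Finset.mem_coe, Finset.mem_image] at hx hy
  obtain ⟨i, -, rfl⟩ := hx
  obtain ⟨j, -, rfl⟩ := hy
  have h1 : a i % (p : ℤ) + c ≡ a j % (p : ℤ) + c [ZMOD p] := hxy
  have h2 : a i % (p : ℤ) ≡ a j % (p : ℤ) [ZMOD p] := Int.ModEq.add_right_cancel' c h1
  unfold Int.ModEq at h2
  rwa [Int.emod_emod, Int.emod_emod] at h2

theorem fac_tr {K : ℕ} {a : Fin K → ℤ} {a' : Fin K → ℕ} {c : ℤ} (h : ∀ j, (a' j : ℤ) = a j + c) (p : ℕ) : fac a' p = facZ a p := by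
  unfold fac facZ
  rw [nu_tr h]

theorem SS_tr {K : ℕ} {a : Fin K → ℤ} {a' : Fin K → ℕ} {c : ℤ} (h : ∀ j, (a' j : ℤ) = a j + c) : SS a' = SSZ a := by
  unfold SS SSZ
  congr 1
  funext p
  exact fac_tr h p

theorem SW_tr {K : ℕ} {a : Fin K → ℤ} {a' : Fin K → ℕ} {c : ℤ} (h : ∀ j, (a' j : ℤ) = a j + c) (w : ℕ) : SW w a' = SWZ w a := by
  unfold SW SWZ
  exact prod_congr rfl fun p _ => fac_tr h p

/-- the tail of the singular series, for integral shifts -/
theorem TLZ (K : ℕ) : ∃ C : ℝ, 1 ≤ C ∧ ∀ (w : ℕ) (a : Fin K → ℤ) (a' : Fin K → ℕ) (c : ℤ) (ε : ℝ), (∀ j, (a' j : ℤ) = a j + c) → 1 ≤ w → 0 ≤ ε →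
    Function.Injective a → (∀ i j, Sg w (a i - a j) ≤ ε) → C * (1 / w + ε) ≤ 1 → |SSZ a - SWZ w a| ≤ C * (1 / w + ε) * SWZ w a := by
  obtain ⟨C, hC, h⟩ := Pool.Agent.J4H57.MV.t_TL K
  refine ⟨C, hC, fun w a a' c ε hc hw hε hinj hSg hCw => ?_⟩
  rw [← SS_tr hc, ← SW_tr hc]
  apply h w a' ε hw hε _ _ hCw
  · intro i j hij
    apply hinj
    have h1 := hc i
    rw [hij, hc j] at h1
    linarith
  · intro i j
    rw [hc i, hc j]
    have e : a i + c - (a j + c) = a i - a j := by ring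
    rw [e]
    exact hSg i j

/-- the singular series converges -/
theorem facZ_mult {K : ℕ} (a : Fin K → ℤ) (ha : Function.Injective a) : Multipliable (fun p : Nat.Primes => facZ a p) := by
  classical
  set c : ℤ := ∑ j, |a j| with hc
  have hnn : ∀ j, 0 ≤ a j + c := by
    intro j
    have h1 : |a j| ≤ c := Finset.single_le_sum (f := fun j => |a j|) (fun i _ => abs_nonneg _) (Finset.mem_univ j)
    have h2 := neg_abs_le (a j)
    linarith
  have h : ∀ j, (((a j + c).toNat : ℕ) : ℤ) = a j + c := fun j => Int.toNat_of_nonneg (hnn j)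
  have hinj : Function.Injective (fun j => (a j + c).toNat) := by
    intro i j hij
    simp only at hij
    apply ha
    have h1 := h i
    rw [hij, h j] at h1
    linarith
  have h3 := Pool.Agent.J4H57.HL.multipliable_loc ((univ : Finset (Fin K)).image (fun j => (a j + c).toNat))
  refine h3.congr fun p => ?_
  rw [← fac_tr (a' := fun j => (a j + c).toNat) h p, Pool.Agent.J4H57.MV.fac_eq _ hinj]

end Pool.Agent.J4H32.MV
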