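import Pool.Agent.J4H32.MV.G2a
import Pool.Agent.J4H81.GB.Stm2

/-!
# Project GY: windows, forms and classes for mixed systems (helper32)
-/

set_option autoImplicit false

namespace Pool.Agent.J4H32.MV

open Finset MeasureTheory Filter
open Pool.Agent.J4H81.PT
open Pool.Agent.J4H81.GB (es AdX)

/-- the form belonging to `x`: `x - n` or `n + x` -/
def fo2 (s : Bool) (n x : ℕ) : ℕ := if s then x - n else n + x

/-- the forms `n`, `x_i - n`, `n + x_i` -/
def fj {k : ℕ} (σ : Fin k → Bool) (x : Fin k → ℕ) (n : ℕ) : Fin (k + 1) → ℕ := Fin.cons n (fun i => fo2 (σ i) n (x i))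

/-- the range of an entry -/
def rgX (s : Bool) (X : ℕ) : Finset ℕ := if s then Ioc (3 * X) (4 * X) else Icc 1 X

/-- the number of the `n` in the window such that all the forms are primes -/
noncomputable def CnX {k : ℕ} (σ : Fin k → Bool) (x : Fin k → ℕ) (X : ℕ) : ℕ := ((Ioc X (2 * X)).filter (fun n => ∀ j, (fj σ x n j).Prime)).card

theorem rgX_true {s : Bool} {X y : ℕ} (h : s = true) (hy : y ∈ rgX s X) : 3 * X < y ∧ y ≤ 4 * X := by
  unfold rgX at hy
  rw [h, if_pos rfl] at hy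
  exact Finset.mem_Ioc.1 hy

theorem rgX_false {s : Bool} {X y : ℕ} (h : s = false) (hy : y ∈ rgX s X) : 1 ≤ y ∧ y ≤ X := by
  unfold rgX at hy
  rw [h] at hy
  exact Finset.mem_Icc.1 hy

theorem fj_zero {k : ℕ} (σ : Fin k → Bool) (x : Fin k → ℕ) (n : ℕ) : fj σ x n 0 = n := rfl

theorem fj_true {k : ℕ} {σ : Fin k → Bool} (x : Fin k → ℕ) (n : ℕ) {i : Fin k} (h : σ i = true) : fj σ x n i.succ = x i - n := by
  unfold fj fo2; simp [h]

theorem fj_false {k : ℕ} {σ : Fin k → Bool} (x : Fin k → ℕ) (n : ℕ) {i : Fin k} (h : σ i = false) : fj σ x n i.succ = n + x i := by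
  unfold fj fo2; simp [h]

/-- the forms have values in `(X, 3 X]` -/
theorem fj_range {k X n : ℕ} {σ : Fin k → Bool} {x : Fin k → ℕ} (hx : ∀ i, x i ∈ rgX (σ i) X) (h1 : X < n) (h2 : n ≤ 2 * X) (j : Fin (k + 1)) :
    X ≤ fj σ x n j ∧ fj σ x n j ≤ 3 * X := by
  refine Fin.cases ?_ (fun i => ?_) j
  · rw [fj_zero]; omega
  · cases h : σ i
    · rw [fj_false x n h]
      have := rgX_false h (hx i)
      omega
    · rw [fj_true x n h]
      have := rgX_true h (hx i)
      omega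

/-- from the weighted sum to the number -/
theorem convX {k X : ℕ} {σ : Fin k → Bool} {x : Fin k → ℕ} (hx : ∀ i, x i ∈ rgX (σ i) X) (hX : 3 ≤ X) {ω : ℕ → ℝ}
    (hω : ∀ n, X ≤ n → n ≤ 3 * X → ω n = 1) {φ : ℝ} (hφ : 0 ≤ φ) :
    (φ * Real.log X) ^ (k + 1) * CnX σ x X ≤ ∑ n ∈ Ioc X (2 * X), ∏ j, (φ * (nu (fj σ x n j) * ω (fj σ x n j))) ∧
    ∑ n ∈ Ioc X (2 * X), ∏ j, (φ * (nu (fj σ x n j) * ω (fj σ x n j))) ≤ (φ * Real.log (3 * X)) ^ (k + 1) * CnX σ x X := by
  classical
  have hX0 : (0 : ℝ) < X := by exact_mod_cast (by omega : 0 < X)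
  have hlogX : 0 ≤ Real.log X := Real.log_natCast_nonneg X
  have e : ∑ n ∈ Ioc X (2 * X), ∏ j, (φ * (nu (fj σ x n j) * ω (fj σ x n j))) =
      ∑ n ∈ (Ioc X (2 * X)).filter (fun n => ∀ j, (fj σ x n j).Prime), ∏ j, (φ * (nu (fj σ x n j) * ω (fj σ x n j))) := by
    rw [sum_filter]
    refine sum_congr rfl fun n _ => ?_
    split_ifs with h
    · rfl
    · push Not at h
      obtain ⟨j, hj⟩ := h
      apply prod_eq_zero (Finset.mem_univ j)
      unfold nu
      rw [if_neg hj]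
      ring
  rw [e]
  have hb : ∀ n ∈ (Ioc X (2 * X)).filter (fun n => ∀ j, (fj σ x n j).Prime),
      (φ * Real.log X) ^ (k + 1) ≤ ∏ j, (φ * (nu (fj σ x n j) * ω (fj σ x n j))) ∧
      ∏ j, (φ * (nu (fj σ x n j) * ω (fj σ x n j))) ≤ (φ * Real.log (3 * X)) ^ (k + 1) := by
    intro n hn
    rw [Finset.mem_filter, Finset.mem_Ioc] at hn
    obtain ⟨⟨h1, h2⟩, hp⟩ := hn
    have hval : ∀ j, φ * (nu (fj σ x n j) * ω (fj σ x n j)) = φ * Real.log ((fj σ x n j : ℕ) : ℝ) := by
      intro j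
      have h3 := fj_range hx h1 h2 j
      rw [hω _ h3.1 h3.2]
      unfold nu
      rw [if_pos (hp j), mul_one]
    have hlo : ∀ j, Real.log X ≤ Real.log ((fj σ x n j : ℕ) : ℝ) := fun j => log_nat_mono (fj_range hx h1 h2 j).1
    have hup : ∀ j, Real.log ((fj σ x n j : ℕ) : ℝ) ≤ Real.log (3 * X) := by
      intro j
      have h4 : Real.log ((fj σ x n j : ℕ) : ℝ) ≤ Real.log ((3 * X : ℕ) : ℝ) := log_nat_mono (fj_range hx h1 h2 j).2
      push_cast at h4 ⊢
      exact h4
    simp_rw [hval]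
    constructor
    · calc (φ * Real.log X) ^ (k + 1) = ∏ j : Fin (k + 1), (φ * Real.log X) := by rw [prod_const, card_univ, Fintype.card_fin]
        _ ≤ _ := prod_le_prod (fun j _ => by positivity) fun j _ => mul_le_mul_of_nonneg_left (hlo j) hφ
    · calc ∏ j, (φ * Real.log ((fj σ x n j : ℕ) : ℝ)) ≤ ∏ j : Fin (k + 1), (φ * Real.log (3 * X)) :=
            prod_le_prod (fun j _ => mul_nonneg hφ (hlogX.trans (hlo j))) fun j _ => mul_le_mul_of_nonneg_left (hup j) hφ
        _ = _ := by rw [prod_const, card_univ, Fintype.card_fin]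
  constructor
  · calc (φ * Real.log X) ^ (k + 1) * CnX σ x X = ∑ n ∈ (Ioc X (2 * X)).filter (fun n => ∀ j, (fj σ x n j).Prime), (φ * Real.log X) ^ (k + 1) := by
          rw [sum_const, nsmul_eq_mul, mul_comm]
          unfold CnX
          rfl
      _ ≤ _ := sum_le_sum fun n hn => (hb n hn).1
  · calc ∑ n ∈ (Ioc X (2 * X)).filter (fun n => ∀ j, (fj σ x n j).Prime), ∏ j, (φ * (nu (fj σ x n j) * ω (fj σ x n j))) ≤
          ∑ n ∈ (Ioc X (2 * X)).filter (fun n => ∀ j, (fj σ x n j).Prime), (φ * Real.log (3 * X)) ^ (k + 1) := sum_le_sum fun n hn => (hb n hn).2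
      _ = _ := by
          rw [sum_const, nsmul_eq_mul, mul_comm]
          unfold CnX
          rfl

/-- few classes are hit by a shifted vector -/
theorem hit_cardX {k W : ℕ} [NeZero W] (B : Finset (ZMod W)) (a : Fin (k + 1) → ℕ) (g : Fin (k + 1) → ZMod W → ZMod W)
    (hg : ∀ j, Function.Injective (g j)) :
    (((range W).filter (fun b => ∃ j, g j ((b + a j : ℕ) : ZMod W) ∈ B)).card : ℝ) ≤ ((k + 1 : ℕ) : ℝ) * B.card := by
  classical
  have h1 : (range W).filter (fun b => ∃ j, g j ((b + a j : ℕ) : ZMod W) ∈ B) ⊆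
      (univ : Finset (Fin (k + 1))).biUnion (fun j => (range W).filter (fun b => g j ((b + a j : ℕ) : ZMod W) ∈ B)) := by
    intro b hb
    rw [Finset.mem_filter] at hb
    obtain ⟨hb1, j, hj⟩ := hb
    rw [Finset.mem_biUnion]
    exact ⟨j, Finset.mem_univ j, Finset.mem_filter.2 ⟨hb1, hj⟩⟩
  have h2 : ∀ j, ((range W).filter (fun b => g j ((b + a j : ℕ) : ZMod W) ∈ B)).card ≤ B.card := by
    intro j
    apply card_le_card_of_injOn (fun b => g j ((b + a j : ℕ) : ZMod W))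
    · intro b hb
      rw [Finset.mem_coe, Finset.mem_filter] at hb
      exact hb.2
    · intro b hb b' hb' h
      rw [Finset.mem_coe, Finset.mem_filter, Finset.mem_range] at hb hb'
      simp only at h
      have h3 : b + a j ≡ b' + a j [MOD W] := (ZMod.natCast_eq_natCast_iff _ _ _).1 (hg j h)
      have h4 : b ≡ b' [MOD W] := Nat.ModEq.add_right_cancel' _ h3
      have h5 := h4
      unfold Nat.ModEq at h5
      rwa [Nat.mod_eq_of_lt hb.1, Nat.mod_eq_of_lt hb'.1] at h5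
  have h3 := (card_le_card h1).trans (card_biUnion_le.trans (sum_le_sum fun j _ => h2 j))
  rw [sum_const, card_univ, Fintype.card_fin, smul_eq_mul] at h3
  exact_mod_cast h3

open Classical in
/-- the sum over the window from the sums over the good classes -/
theorem aggX {k X W : ℕ} [NeZero W] (hWpos : 0 < W) (hq2 : 2 ≤ X / W) (B : Finset (ZMod W)) (a : Fin (k + 1) → ℕ)
    (g : Fin (k + 1) → ZMod W → ZMod W) (hg : ∀ j, Function.Injective (g j))
    (f : ℕ → ℝ) (hf0 : ∀ n, 0 ≤ f n) {B₁ : ℝ} (hfB : ∀ n, f n ≤ B₁) (hB1 : 1 ≤ B₁)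
    (hfp : ∀ n, X < n → n ≤ 2 * X → f n ≠ 0 → ∀ j, (n + a j).Coprime W) {β : ℝ} (hβ : 0 ≤ β)
    (hgood : ∀ b < W, (∀ j, (b + a j).Coprime W ∧ g j ((b + a j : ℕ) : ZMod W) ∉ B) → |∑ n ∈ Cl X W b, f n - ((X / W : ℕ) : ℝ)| ≤ β) :
    |∑ n ∈ Ioc X (2 * X), f n - (((range W).filter (fun b => ∀ j, (b + a j).Coprime W)).card : ℝ) * ((X / W : ℕ) : ℝ)| ≤
      β * ((range W).filter (fun b => ∀ j, (b + a j).Coprime W)).card + ((k + 1 : ℕ) : ℝ) * B.card * (2 * ((X / W : ℕ) : ℝ) * B₁) := by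
  set q : ℝ := ((X / W : ℕ) : ℝ) with hq
  have hq2r : 2 ≤ q := by rw [hq]; exact_mod_cast hq2
  set V : Finset ℕ := (range W).filter (fun b => ∀ j, (b + a j).Coprime W) with hV
  have hV0 : ∀ b ∈ range W, b ∉ V → ∑ n ∈ Cl X W b, f n = 0 := by
    intro b hb hbV
    apply sum_eq_zero
    intro n hn
    unfold Cl at hn
    rw [Finset.mem_filter, Finset.mem_Ioc] at hn
    obtain ⟨⟨hn1, hn2⟩, hn3⟩ := hn
    by_contra hne
    have hp := hfp n hn1 hn2 hne
    apply hbV
    rw [hV, Finset.mem_filter]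
    refine ⟨hb, fun j => ?_⟩
    have h2 := hp j
    have h3 : (b + a j) % W = (n + a j) % W := by
      have h4 : b ≡ n [MOD W] := by
        unfold Nat.ModEq
        rw [← hn3]
        exact Nat.mod_mod _ _
      exact Nat.ModEq.add_right (a j) h4
    unfold Nat.Coprime at h2 ⊢
    rw [Nat.gcd_comm, Nat.gcd_rec, h3, ← Nat.gcd_rec, Nat.gcd_comm]
    exact h2
  have hsumV : ∑ n ∈ Ioc X (2 * X), f n = ∑ b ∈ V, ∑ n ∈ Cl X W b, f n := by
    rw [sum_classes hWpos]
    symm
    apply sum_subset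
    · rw [hV]; exact filter_subset _ _
    · exact hV0
  have e : ∑ n ∈ Ioc X (2 * X), f n - (V.card : ℝ) * q = ∑ b ∈ V, (∑ n ∈ Cl X W b, f n - q) := by
    rw [hsumV, sum_sub_distrib, sum_const, nsmul_eq_mul]
  rw [e]
  refine (abs_sum_le_sum_abs _ _).trans ?_
  set H : Finset ℕ := (range W).filter (fun b => ∃ j, g j ((b + a j : ℕ) : ZMod W) ∈ B) with hH
  have hterm : ∀ b ∈ V, |∑ n ∈ Cl X W b, f n - q| ≤ β + (if b ∈ H then 2 * q * B₁ else 0) := by
    intro b hb
    rw [hV, Finset.mem_filter, Finset.mem_range] at hb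
    split_ifs with hbH
    · have h1 : ∑ n ∈ Cl X W b, f n ≤ (q + 2) * B₁ := by
        calc ∑ n ∈ Cl X W b, f n ≤ ∑ n ∈ Cl X W b, B₁ := sum_le_sum fun n _ => hfB n
          _ = (Cl X W b).card * B₁ := by rw [sum_const, nsmul_eq_mul]
          _ ≤ (q + 2) * B₁ := mul_le_mul_of_nonneg_right (Cl_card hWpos) (by linarith)
      have h2 : 0 ≤ ∑ n ∈ Cl X W b, f n := sum_nonneg fun n _ => hf0 n
      have h3 : (q + 2) * B₁ ≤ 2 * q * B₁ := mul_le_mul_of_nonneg_right (by linarith) (by linarith)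
      have h4 : q ≤ 2 * q * B₁ := by nlinarith
      rw [abs_le]
      constructor <;> linarith
    · rw [add_zero]
      apply hgood b hb.1
      intro j
      refine ⟨hb.2 j, fun hcon => hbH ?_⟩
      rw [hH, Finset.mem_filter, Finset.mem_range]
      exact ⟨hb.1, j, hcon⟩
  refine (sum_le_sum hterm).trans ?_
  rw [sum_add_distrib, sum_const, nsmul_eq_mul, mul_comm (V.card : ℝ)]
  have hnn : 0 ≤ 2 * q * B₁ := by positivity
  have h1 : ∑ b ∈ V, (if b ∈ H then 2 * q * B₁ else 0) ≤ ((k + 1 : ℕ) : ℝ) * B.card * (2 * q * B₁) := by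
    calc ∑ b ∈ V, (if b ∈ H then 2 * q * B₁ else 0) ≤ ∑ b ∈ range W, (if b ∈ H then 2 * q * B₁ else 0) := by
          apply sum_le_sum_of_subset_of_nonneg
          · rw [hV]; exact filter_subset _ _
          · intro b _ _
            split_ifs
            · exact hnn
            · exact le_rfl
      _ = ∑ b ∈ H, 2 * q * B₁ := by
          rw [← sum_filter]
          congr 1
          rw [hH]
          ext b
          simp only [Finset.mem_filter, Finset.mem_range]
          tauto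
      _ = H.card * (2 * q * B₁) := by rw [sum_const, nsmul_eq_mul]
      _ ≤ _ := mul_le_mul_of_nonneg_right (hit_cardX B a g hg) hnn
  linarith

/-- arithmetic of the reflection -/
theorem arith2 {W T N b r u : ℕ} (hb : b < W) (hr : r < W) (hN : N = b + r + W * u) (hNT : N < W * T) :
    u < T ∧ (b + (W * T - 1 - N)) / W = T - 1 - u ∧ (W * T - 1 - N) % W = W - 1 - N % W := by
  have hW : 0 < W := by omega
  have hu : u < T := by
    by_contra hcon
    have h1 : W * T ≤ W * u := Nat.mul_le_mul_left W (by omega)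
    omega
  have h1 : W * T = W * (T - 1 - u) + W * u + W := by
    obtain ⟨d, rfl⟩ : ∃ d, T = d + 1 + u := ⟨T - 1 - u, by omega⟩
    have : d + 1 + u - 1 - u = d := by omega
    rw [this]
    ring
  refine ⟨hu, ?_, ?_⟩
  · have h2 : b + (W * T - 1 - N) = (W - 1 - r) + W * (T - 1 - u) := by omega
    rw [h2, Nat.add_mul_div_left _ _ hW, Nat.div_eq_of_lt (by omega), zero_add]
  · have h3 := Nat.div_add_mod N W
    have h4 := Nat.mod_lt N hW
    have h5 : N / W < T := (Nat.div_lt_iff_lt_mul hW).2 (by rw [mul_comm]; exact hNT)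
    have h6 : W * T = W * (T - 1 - N / W) + W * (N / W) + W := by
      obtain ⟨d, hd⟩ : ∃ d, T = d + 1 + N / W := ⟨T - 1 - N / W, by omega⟩
      have : T - 1 - N / W = d := by omega
      rw [this, hd]
      ring
    have h7 : W * T - 1 - N = (W - 1 - N % W) + W * (T - 1 - N / W) := by omega
    rw [h7, Nat.add_mul_mod_self_left, Nat.mod_eq_of_lt (by omega)]

end Pool.Agent.J4H32.MV
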