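import Pool.Agent.J4H32.MV.X1
import Pool.Agent.J4H32.MV.X3
import Pool.Agent.J4H32.MV.G4
import Pool.Agent.J4H81.GB.Nvx
import Pool.Agent.J4H81.GB.Bdy

/-!
# Project GY: the asymptotic formula for mixed systems at one scale (helper32)
-/

set_option autoImplicit false

namespace Pool.Agent.J4H32.MV

open Finset MeasureTheory Filter
open Pool.Agent.J4H81.PT
open Pool.Agent.J4H81.GB

/-- the asymptotic formula for one vector -/
theorem one_vecX {k : ℕ} (σ : Fin k → Bool) {X w : ℕ} {x : Fin k → ℕ} {ω : ℕ → ℝ} {l β γ ε CT : ℝ} (hx : ∀ i, x i ∈ rgX (σ i) X) (hX : 3 ≤ X)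
    (hω : ∀ n, X ≤ n → n ≤ 3 * X → ω n = 1) (hl : 1 ≤ l) (hlW : l * (primorial w : ℝ) ≤ X) (hlX : l ≤ Real.log X)
    (hKl : 2 * ((k + 1 : ℕ) : ℝ) ≤ l) (hβ0 : 0 ≤ β) (hβ1 : β ≤ 1) (hγ : CT * (1 / w + ε) = γ) (hγ1 : γ ≤ 1 / 2)
    (hsg : ¬ ∃ i j : Fin (k + 1), i ≠ j ∧ (es σ x i = es σ x j ∨ ε < Sg w (es σ x i - es σ x j))) (hε0 : 0 ≤ ε)
    (hTLw : ∀ (a : Fin (k + 1) → ℤ) (a' : Fin (k + 1) → ℕ) (c : ℤ), (∀ j, (a' j : ℤ) = a j + c) → Function.Injective a →
      (∀ i j, Sg w (a i - a j) ≤ ε) → CT * (1 / w + ε) ≤ 1 → |SSZ a - SWZ w a| ≤ CT * (1 / w + ε) * SWZ w a)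
    (hF : |∑ n ∈ Ioc X (2 * X), ∏ j, ((Nat.totient (primorial w) : ℝ) / (primorial w : ℝ) * (nu (fj σ x n j) * ω (fj σ x n j))) -
          ((range (primorial w)).filter (fun b => ∀ j, (b + aX σ x (primorial w) X j).Coprime (primorial w))).card * ((X / primorial w : ℕ) : ℝ)| ≤
          β * (((range (primorial w)).filter (fun b => ∀ j, (b + aX σ x (primorial w) X j).Coprime (primorial w))).card * ((X / primorial w : ℕ) : ℝ))) :
    |(CnX σ x X : ℝ) - SSZ (es σ x) * X / Real.log X ^ (k + 1)| ≤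
      2 * (β + γ + 1 / l + 4 * ((k + 1 : ℕ) : ℝ) / Real.log X) * (SSZ (es σ x) * X / Real.log X ^ (k + 1)) := by
  have hl0 : 0 < l := by linarith
  have hWpos : 0 < primorial w := primorial_pos w
  have hW0 : (0 : ℝ) < primorial w := by exact_mod_cast hWpos
  have htot : (0 : ℝ) < Nat.totient (primorial w) := by exact_mod_cast Nat.totient_pos.2 hWpos
  have hL0 : 0 < Real.log X := by linarith
  have hX1 : (1 : ℝ) < X := by exact_mod_cast (by omega : 1 < X)
  have hx4 : ∀ i, x i ≤ 4 * X := by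
    intro i
    cases hσ : σ i
    · have := rgX_false hσ (hx i); omega
    · exact (rgX_true hσ (hx i)).2
  have hcast := aX_cast (σ := σ) hWpos hx4
  set φ : ℝ := (Nat.totient (primorial w) : ℝ) / (primorial w : ℝ) with hφ
  have hφ0 : 0 < φ := by positivity
  obtain ⟨hc1, hc2⟩ := convX (k := k) (X := X) (x := x) hx hX hω hφ0.le
  set V : ℝ := (((range (primorial w)).filter (fun b => ∀ j, (b + aX σ x (primorial w) X j).Coprime (primorial w))).card : ℝ) with hV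
  have hNV' : V / (primorial w : ℝ) * ((primorial w : ℝ) / (Nat.totient (primorial w) : ℝ)) ^ (k + 1) = SWZ w (es σ x) := by
    rw [← SW_tr hcast w]
    exact Pool.Agent.J4H79.MV.t_NV (k + 1) w (aX σ x (primorial w) X)
  have hV0 : 0 ≤ V := Nat.cast_nonneg _
  have hsw : 0 ≤ SWZ w (es σ x) := by rw [← hNV']; positivity
  have hVe : V = SWZ w (es σ x) * ((primorial w : ℝ) * φ ^ (k + 1)) := by
    rw [← hNV', hφ, div_pow, div_pow]
    field_simp
  have hinj : Function.Injective (es σ x) := by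
    intro i j hij
    by_contra hne
    exact hsg ⟨i, j, hne, Or.inl hij⟩
  have hSg : ∀ i j, Sg w (es σ x i - es σ x j) ≤ ε := by
    intro i j
    by_cases hij : i = j
    · subst hij
      rw [sub_self]
      unfold Sg
      simpa using hε0
    · by_contra hcon2
      push Not at hcon2
      exact hsg ⟨i, j, hij, Or.inr hcon2⟩
  have hTL' := hTLw (es σ x) (aX σ x (primorial w) X) _ hcast hinj hSg (by rw [hγ]; linarith)
  rw [hγ] at hTL'
  have h6 : (primorial w : ℝ) * ((X / primorial w : ℕ) : ℝ) ≤ X := by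
    exact_mod_cast Nat.mul_div_le X (primorial w)
  have h7 : (1 - 1 / l) * (X : ℝ) ≤ (primorial w : ℝ) * ((X / primorial w : ℕ) : ℝ) := by
    have h8 : X < primorial w * (X / primorial w) + primorial w := by
      have := Nat.lt_mul_div_succ X hWpos
      rw [Nat.mul_add, Nat.mul_one] at this
      exact this
    have h9 : (X : ℝ) < (primorial w : ℝ) * ((X / primorial w : ℕ) : ℝ) + primorial w := by exact_mod_cast h8
    have h10 : (primorial w : ℝ) ≤ 1 / l * X := by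
      rw [one_div, inv_mul_eq_div, le_div_iff₀ hl0]
      linarith
    linarith
  exact an (K := k + 1) (x := X) (W := (primorial w : ℝ)) (q := ((X / primorial w : ℕ) : ℝ)) (V := V) (N := CnX σ x X) (φ := φ) (L := Real.log X)
    (L3 := Real.log (3 * X)) (β := β) (γ := γ) (ζ := 1 / l) (θ := 4 * ((k + 1 : ℕ) : ℝ) / Real.log X) (sw := SWZ w (es σ x)) (ss := SSZ (es σ x))
    (by positivity) (Nat.cast_nonneg _) (Nat.cast_nonneg _) hφ0 hL0 hsw hβ0 hβ1 hγ1 (by positivity) (by positivity) hF hc1 hc2 hVe hTL' h6 h7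
    (log3 hX1 (by linarith))

open Classical in
theorem fin5X (hTE : S_TE) (hMD : S_MDZ) (hEV : S_EV) (hREF : S_REF) (hMB : S_MBZ) (hCN : S_CN) (hPS : S_PS) (hRK : S_RK) (k B : ℕ) (σ : Fin k → Bool) :
    ∃ (D : ℕ) (Cst l₀ : ℝ), 0 < Cst ∧ ∀ l : ℝ, l₀ ≤ l → ∀ X : ℕ,
      Real.exp ((((k + 1 : ℕ) : ℝ) + 3) * l) ≤ X → Real.log X ≤ l ^ 2 → SD2 D l (4 * X / 5) →
      (((Fintype.piFinset (fun i : Fin k => rgX (σ i) X)).filter (fun m => AdX σ m ∧
        1 / Real.log (Real.log X) ^ B * (SSZ (es σ m) * X / Real.log X ^ (k + 1)) < |(CnX σ m X : ℝ) - SSZ (es σ m) * X / Real.log X ^ (k + 1)|)).card : ℝ) ≤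
        (X : ℝ) ^ k * (Cst * l * Real.exp (-(l / (2000 * Real.log l ^ (B + 1))))) := by
  obtain ⟨C, hC, hPS⟩ := hPS
  set K : ℕ := k + 1 with hKdef
  obtain ⟨CT, hCT1, hTL⟩ := TLZ K
  have hK1 : (1 : ℝ) ≤ (K : ℝ) := by rw [hKdef]; push_cast; linarith [(Nat.cast_nonneg k : (0 : ℝ) ≤ k)]
  have hK0 : (0 : ℝ) < (K : ℝ) := by linarith
  set c₁ : ℕ := ⌈4 ^ K * (2 * (K : ℝ) + 2) * C⌉₊ with hc₁
  set A₂ : ℝ := 2 ^ K * ((K : ℝ) + 2) with hA₂
  have hA₂0 : 0 < A₂ := by positivity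
  set C₃ : ℝ := 2 * A₂ * (4000 + K ^ 2) + 23 + 2001 * CT + 1 + 4 * K with hC₃
  have hC₃0 : 0 < C₃ := by positivity
  set C₂ : ℝ := 2 * 2 ^ B * C₃ + 10 with hC₂
  obtain ⟨l₁, hl₁⟩ := eventually_atTop.1 (((poly_exp (show (0 : ℝ) < 1 / 250 by norm_num) (c₁ + 4) (4 * K)).and
    (ev_log 2 (B + 1))).and (Real.tendsto_log_atTop.eventually (eventually_ge_atTop C₂)))
  refine ⟨3 * K + c₁ + 10, 60 * 13 ^ k + 17 * ((k : ℝ) + 1) ^ 2 * 4 ^ k,
    max l₁ (max (10 ^ 4) (max (2 * ((K : ℝ) * (2 * (K : ℝ)) ^ (2 * K))) (2000 * (K : ℝ)))), by positivity, ?_⟩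
  intro l hl X hX hXl hSD
  have hll₁ : l₁ ≤ l := (le_max_left _ _).trans hl
  have hl' := (le_max_right _ _).trans hl
  have hl4 : 10 ^ 4 ≤ l := (le_max_left _ _).trans hl'
  have hl'' := (le_max_right _ _).trans hl'
  have hl2 : 2 * ((K : ℝ) * (2 * (K : ℝ)) ^ (2 * K)) ≤ l := (le_max_left _ _).trans hl''
  have hl3 : 2000 * (K : ℝ) ≤ l := (le_max_right _ _).trans hl''
  obtain ⟨⟨hF1, hF2⟩, hF3⟩ := hl₁ l hll₁
  have hl0 : 0 < l := by linarith
  have hl1 : 1 ≤ l := by linarith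
  set ℓ : ℝ := Real.log l with hℓ
  have hCC : 2 * C₃ ≤ 2 * 2 ^ B * C₃ := by
    have : (1 : ℝ) ≤ 2 ^ B := one_le_pow₀ (by norm_num)
    nlinarith only [this, hC₃0]
  have hℓ10 : 10 ≤ ℓ := by linarith
  have hℓ0 : 0 < ℓ := by linarith
  have hℓB : 10 ≤ ℓ ^ (B + 1) := hℓ10.trans (le_self_pow₀ (by linarith) (by omega))
  have hℓB0 : 0 < ℓ ^ (B + 1) := by positivity
  set ε : ℝ := 1 / ℓ ^ (B + 1) with hε
  have hε0 : 0 < ε := by positivity
  have hε1 : ε ≤ 1 := by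
    rw [hε, div_le_one hℓB0]
    linarith
  have hεl : 1 / l ≤ ε := one_div_le_one_div_of_le hℓB0 (by linarith)
  have hεℓ : ε ≤ 1 / ℓ := one_div_le_one_div_of_le hℓ0 (le_self_pow₀ (by linarith) (by omega))
  have hC₃ε : C₃ * ε ≤ 1 / 2 := by
    calc C₃ * ε ≤ C₃ * (1 / ℓ) := mul_le_mul_of_nonneg_left hεℓ hC₃0.le
      _ = C₃ / ℓ := by ring
      _ ≤ 1 / 2 := by
          rw [div_le_div_iff₀ hℓ0 (by norm_num)]
          linarith
  set L₁ : ℕ := ⌈ℓ ^ (B + 1)⌉₊ with hL₁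
  have hL₁a : ℓ ^ (B + 1) ≤ L₁ := Nat.le_ceil _
  have hL₁b : (L₁ : ℝ) ≤ l := by
    have := Nat.ceil_lt_add_one hℓB0.le
    rw [← hL₁] at this
    linarith
  have hL₁10 : 10 ≤ L₁ := by
    have : (10 : ℝ) ≤ L₁ := hℓB.trans hL₁a
    exact_mod_cast this
  have hL₁ε : 3 / (L₁ : ℝ) ≤ 3 * ε := by
    rw [hε, mul_one_div]
    exact div_le_div_of_nonneg_left (by norm_num) hℓB0 hL₁a
  set δ : ℝ := A₂ * (4000 / l + (K : ℝ) ^ 2 * ε) with hδ
  have h4000 : 4000 / l ≤ 4000 * ε := by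
    have : 4000 / l = 4000 * (1 / l) := by ring
    rw [this]
    exact mul_le_mul_of_nonneg_left hεl (by norm_num)
  have hδ0 : 0 ≤ δ := by positivity
  have hδε : δ ≤ A₂ * (4000 + K ^ 2) * ε := by
    rw [hδ]
    calc A₂ * (4000 / l + (K : ℝ) ^ 2 * ε) ≤ A₂ * (4000 * ε + K ^ 2 * ε) := by
          apply mul_le_mul_of_nonneg_left _ hA₂0.le
          linarith
      _ = _ := by ring
  have hrest : 0 ≤ (23 + 2001 * CT + 1 + 4 * K) * ε := by positivity
  have hAK : 0 ≤ A₂ * (4000 + K ^ 2) * ε := by positivity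
  have hC₃e : C₃ * ε = 2 * (A₂ * (4000 + K ^ 2) * ε) + 23 * ε + 2001 * CT * ε + ε + 4 * K * ε := by rw [hC₃]; ring
  have hCTε : 0 ≤ 2001 * CT * ε := by positivity
  have hKε : 0 ≤ 4 * (K : ℝ) * ε := by positivity
  have hδ1 : δ ≤ 1 := by linarith
  obtain ⟨w, ω, hw1, hw2, hω, hlW, hcard⟩ := fin4X (k := k) (D := 3 * K + c₁ + 10) (c₁ := c₁) (l := l) (ε := ε) (δ := δ) (C := C) (X := X)
    (X' := 4 * X / 5) (L₁ := L₁) hTE hMD hEV hREF hMB hCN σ (fun w x a _ hw ha hAd => NVX k w (4 * X) σ x a hw hAd ha) (by rw [← hKdef]) (fun Q hQ => hPS l (by linarith) Q hQ)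
    (by rw [← hKdef]; exact Nat.le_ceil _) hl4 (by rw [← hKdef]; exact hl2) (by rw [← hKdef]; exact hl3) hε0.le (by rw [← hKdef]) hδ1 hL₁10 hL₁b
    (by
      refine le_trans ?_ (hF1.trans (le_of_eq ?_))
      · rw [← hKdef]
      · congr 1; ring) rfl (by rw [← hKdef]; exact hX) hSD
  have hX0 : (0 : ℝ) < X := lt_of_lt_of_le (Real.exp_pos _) hX
  have hXpos : 1 ≤ X := by exact_mod_cast hX0
  have hw0 : (1 : ℝ) ≤ w := by linarith
  have hwpos : 1 ≤ w := by exact_mod_cast hw0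
  have hXbig : (10 : ℝ) ^ 4 ≤ X := by
    calc (10 : ℝ) ^ 4 ≤ l := hl4
      _ ≤ Real.exp l := by linarith [Real.add_one_le_exp l]
      _ ≤ Real.exp ((K + 3) * l) := Real.exp_le_exp.2 (by nlinarith only [hK0, hl0])
      _ ≤ X := hX
  have hX3 : 3 ≤ X := by
    have : (3 : ℝ) ≤ X := by linarith
    exact_mod_cast this
  have hLl : (K + 3) * l ≤ Real.log X := (Real.le_log_iff_exp_le hX0).2 hX
  have hlL : l ≤ Real.log X := by
    refine le_trans ?_ hLl
    nlinarith only [hK0, hl0]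
  have hL0 : 0 < Real.log X := by linarith
  have hbd := BDY hRK k w X σ ε hwpos hXpos
  have h1w : 1 / (w : ℝ) ≤ 2000 * ε := by
    have h1 : 1 / (w : ℝ) ≤ 1 / (l / 2000) := one_div_le_one_div_of_le (by positivity) hw1
    have e : 1 / (l / 2000) = 2000 * (1 / l) := by field_simp
    rw [e] at h1
    exact h1.trans (mul_le_mul_of_nonneg_left hεl (by norm_num))
  -- one vector
  have hγε : CT * (1 / w + ε) ≤ 2001 * CT * ε := by
    calc CT * (1 / w + ε) ≤ CT * (2000 * ε + ε) := mul_le_mul_of_nonneg_left (by linarith) (by linarith)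
      _ = _ := by ring
  have h20 : 20 / l ≤ 20 * ε := by
    have : 20 / l = 20 * (1 / l) := by ring
    rw [this]
    exact mul_le_mul_of_nonneg_left hεl (by norm_num)
  have hKL : 4 * (K : ℝ) / Real.log X ≤ 4 * K * ε := by
    have h1 : 1 / Real.log X ≤ ε := (one_div_le_one_div_of_le hl0 hlL).trans hεl
    have h2 : 4 * (K : ℝ) / Real.log X = 4 * K * (1 / Real.log X) := by ring
    rw [h2]
    exact mul_le_mul_of_nonneg_left h1 (by positivity)
  set β : ℝ := 2 * δ + 3 / L₁ + 20 / l with hβ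
  have hβ0 : 0 ≤ β := by positivity
  have htot : 2 * (β + CT * (1 / w + ε) + 1 / l + 4 * (K : ℝ) / Real.log X) ≤ 1 / Real.log (Real.log X) ^ B := by
    have h1 : β + CT * (1 / w + ε) + 1 / l + 4 * (K : ℝ) / Real.log X ≤ C₃ * ε := by linarith
    have hu1 : 1 ≤ Real.log (Real.log X) := by
      have : ℓ ≤ Real.log (Real.log X) := Real.log_le_log hl0 hlL
      linarith
    have hu2 : Real.log (Real.log X) ≤ 2 * ℓ := by
      have h2 : Real.log (Real.log X) ≤ Real.log (l ^ 2) := Real.log_le_log hL0 hXl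
      rw [Real.log_pow] at h2
      exact_mod_cast h2
    have huB : Real.log (Real.log X) ^ B ≤ 2 ^ B * ℓ ^ B := by
      rw [← mul_pow]
      exact pow_le_pow_left₀ (by linarith) hu2 B
    have huB0 : 0 < Real.log (Real.log X) ^ B := by positivity
    rw [le_div_iff₀ huB0]
    calc 2 * (β + CT * (1 / w + ε) + 1 / l + 4 * (K : ℝ) / Real.log X) * Real.log (Real.log X) ^ B ≤ 2 * (C₃ * ε) * (2 ^ B * ℓ ^ B) := by
          apply mul_le_mul _ huB huB0.le (by positivity)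
          linarith
      _ = (2 * 2 ^ B * C₃) / ℓ := by
          rw [hε, pow_succ]
          field_simp
      _ ≤ 1 := by
          rw [div_le_one hℓ0]
          linarith
  set e : ℝ := Real.exp (-(l / (2000 * ℓ ^ (B + 1)))) with he
  have he0 : 0 < e := Real.exp_pos _
  have hee : l / (2000 * ℓ ^ (B + 1)) = ε * (l / 2000) := by
    rw [hε]
    field_simp
  have h1 : Real.exp (-(ε * w)) ≤ e := by
    rw [he, hee]
    exact Real.exp_le_exp.2 (by
      have := mul_le_mul_of_nonneg_left hw1 hε0.le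
      linarith)
  have hεl2 : ε * (l / 2000) ≤ l / 2000 := mul_le_of_le_one_left (by positivity) hε1
  have h2 : Real.exp (-(l / 280)) ≤ e := by
    rw [he, hee]
    exact Real.exp_le_exp.2 (by linarith)
  have h3 : 1 / (X : ℝ) ≤ e := by
    have h4 : 1 / (X : ℝ) ≤ Real.exp (-((K + 3) * l)) := by
      rw [Real.exp_neg, ← one_div]
      exact one_div_le_one_div_of_le (Real.exp_pos _) hX
    rw [he, hee]
    refine h4.trans (Real.exp_le_exp.2 ?_)
    nlinarith only [hεl2, hl0, hK0]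
  set S₀ := (Fintype.piFinset (fun i : Fin k => rgX (σ i) X)) with hS₀
  have hsub : S₀.filter (fun m => AdX σ m ∧
        1 / Real.log (Real.log X) ^ B * (SSZ (es σ m) * X / Real.log X ^ K) < |(CnX σ m X : ℝ) - SSZ (es σ m) * X / Real.log X ^ K|) ⊆
      S₀.filter (fun m => AdX σ m ∧
      (¬ ∃ i j : Fin (k + 1), i ≠ j ∧ (es σ m i = es σ m j ∨ ε < Sg w (es σ m i - es σ m j))) ∧
      β * (((range (primorial w)).filter (fun b => ∀ j, (b + aX σ m (primorial w) X j).Coprime (primorial w))).card * ((X / primorial w : ℕ) : ℝ)) <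
        |∑ n ∈ Ioc X (2 * X), ∏ j, ((Nat.totient (primorial w) : ℝ) / (primorial w : ℝ) * (nu (fj σ m n j) * ω (fj σ m n j))) -
          ((range (primorial w)).filter (fun b => ∀ j, (b + aX σ m (primorial w) X j).Coprime (primorial w))).card * ((X / primorial w : ℕ) : ℝ)|) ∪
      S₀.filter (fun m => ∃ i j : Fin (k + 1), i ≠ j ∧ (es σ m i = es σ m j ∨ ε < Sg w (es σ m i - es σ m j))) := by
    intro m hm
    rw [Finset.mem_filter] at hm
    rw [Finset.mem_union, Finset.mem_filter, Finset.mem_filter]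
    by_cases hsg : ∃ i j : Fin (k + 1), i ≠ j ∧ (es σ m i = es σ m j ∨ ε < Sg w (es σ m i - es σ m j))
    · exact Or.inr ⟨hm.1, hsg⟩
    · refine Or.inl ⟨hm.1, hm.2.1, hsg, ?_⟩
      by_contra hcon
      push Not at hcon
      have hmle : ∀ i, m i ∈ rgX (σ i) X := Fintype.mem_piFinset.1 hm.1
      have hov := one_vecX σ (X := X) (w := w) (x := m) (ω := ω) (l := l) (β := β) (γ := CT * (1 / w + ε)) (ε := ε) (CT := CT)
        hmle hX3 hω hl1 hlW hlL (by rw [← hKdef]; linarith) hβ0 (by linarith) rfl (by linarith) hsg hε0.le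
        (fun a a' c ha0 ha1 ha2 ha3 => hTL w a a' c ε ha0 hwpos hε0.le ha1 ha2 ha3) hcon
      have hSS0 : 0 ≤ SSZ (es σ m) * X / Real.log X ^ K := by
        by_contra hneg
        push Not at hneg
        have h4 := (abs_nonneg _).trans hov
        have h5 : 0 < 2 * (β + CT * (1 / w + ε) + 1 / l + 4 * ((k + 1 : ℕ) : ℝ) / Real.log X) := by positivity
        have h6 := mul_neg_of_pos_of_neg h5 hneg
        rw [hKdef] at h6
        linarith
      have h4 := hov.trans (mul_le_mul_of_nonneg_right htot hSS0)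
      exact absurd h4 (not_le.2 hm.2.2)
  have hcard2 := (card_le_card hsub).trans (card_union_le _ _)
  have hcardr := (Nat.cast_le (α := ℝ)).2 hcard2
  rw [Nat.cast_add] at hcardr
  refine hcardr.trans ((add_le_add hcard hbd).trans ?_)
  have hXk : 0 < (X : ℝ) ^ k := by positivity
  have h5 : 60 * 13 ^ k * (X : ℝ) ^ k * (l * Real.exp (-(l / 280))) ≤ 60 * 13 ^ k * (X : ℝ) ^ k * (l * e) :=
    mul_le_mul_of_nonneg_left (mul_le_mul_of_nonneg_left h2 hl0.le) (by positivity)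
  have h6 : ((k : ℝ) + 1) ^ 2 * ((4 * (X : ℝ)) ^ k / (4 * X) + 16 * (4 * (X : ℝ)) ^ k * Real.exp (-(ε * w))) ≤
      ((k : ℝ) + 1) ^ 2 * (4 ^ k * (X : ℝ) ^ k * (l * e) + 16 * (4 ^ k * (X : ℝ) ^ k) * (l * e)) := by
    have h7 : e ≤ l * e := le_mul_of_one_le_left he0.le hl1
    apply mul_le_mul_of_nonneg_left _ (by positivity)
    rw [mul_pow]
    apply add_le_add
    · have h8 : 4 ^ k * (X : ℝ) ^ k / (4 * X) ≤ 4 ^ k * (X : ℝ) ^ k * (1 / X) := by
        rw [mul_one_div]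
        exact div_le_div_of_nonneg_left (by positivity) hX0 (by linarith)
      exact h8.trans (mul_le_mul_of_nonneg_left (h3.trans h7) (by positivity))
    · exact mul_le_mul_of_nonneg_left (h1.trans h7) (by positivity)
  calc _ ≤ 60 * 13 ^ k * (X : ℝ) ^ k * (l * e) + ((k : ℝ) + 1) ^ 2 * (4 ^ k * (X : ℝ) ^ k * (l * e) + 16 * (4 ^ k * (X : ℝ) ^ k) * (l * e)) := add_le_add h5 h6
    _ = _ := by ring

end Pool.Agent.J4H32.MV
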